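import Mathlib

/-!
# Operators from bounded bilinear forms on reflexive spaces, weak limits, and the representation of
functionals on a commutant
-/

set_option autoImplicit false
open Filter Topology Finset

namespace Pool.Agent.J6H45.TV

variable {X : Type*} [NormedAddCommGroup X] [NormedSpace ℂ X]

/-- Every functional on the dual space is the evaluation at a point of `X`. -/
def Reflexive (X : Type*) [NormedAddCommGroup X] [NormedSpace ℂ X] : Prop :=
  ∀ G : StrongDual ℂ (StrongDual ℂ X), ∃ x : X, ∀ f : StrongDual ℂ X, G f = f x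

lemma ext_dual {x y : X} (h : ∀ f : StrongDual ℂ X, f x = f y) : x = y :=
  (SeparatingDual.eq_iff_forall_dual_eq (R := ℂ)).2 h

/-- Bounded bilinear forms on `X × X*` are given by operators. -/
lemma exists_op (hX : Reflexive X) (b : X → StrongDual ℂ X → ℂ)
    (h1 : ∀ u u' v, b (u + u') v = b u v + b u' v) (h2 : ∀ (c : ℂ) u v, b (c • u) v = c * b u v)
    (h3 : ∀ u v v', b u (v + v') = b u v + b u v') (h4 : ∀ (c : ℂ) u v, b u (c • v) = c * b u v)
    {C : ℝ} (hC : 0 ≤ C) (hb : ∀ u v, ‖b u v‖ ≤ C * ‖u‖ * ‖v‖) :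
    ∃ R : X →L[ℂ] X, ‖R‖ ≤ C ∧ ∀ u v, v (R u) = b u v := by
  have hG : ∀ u : X, ∃ r : X, ∀ f : StrongDual ℂ X, f r = b u f := by
    intro u
    obtain ⟨r, hr⟩ := hX (LinearMap.mkContinuous
      { toFun := b u, map_add' := h3 u, map_smul' := fun c v => by simp [h4] } (C * ‖u‖) (hb u))
    exact ⟨r, fun f => (hr f).symm⟩
  choose r hr using hG
  refine ⟨LinearMap.mkContinuous
    { toFun := r
      map_add' := fun u u' => ext_dual fun f => by rw [map_add, hr, hr, hr, h1]
      map_smul' := fun c u => ext_dual fun f => by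
        rw [map_smul, hr, hr, h2, smul_eq_mul, RingHom.id_apply] } C ?_, ?_, ?_⟩
  · intro u
    refine NormedSpace.norm_le_dual_bound ℂ _ (by positivity) fun f => ?_
    exact (congrArg norm (hr u f)).le.trans (hb u f)
  · exact LinearMap.mkContinuous_norm_le _ hC _
  · intro u v
    exact hr u v

/-- Bounded families of operators have weak limits along ultrafilters. -/
lemma exists_limit_op (hX : Reflexive X) {W : Type*} (l : Ultrafilter W) (S : W → X →L[ℂ] X)
    (hS : ∀ w, ‖S w‖ ≤ 1) :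
    ∃ R : X →L[ℂ] X, ‖R‖ ≤ 1 ∧ ∀ u (v : StrongDual ℂ X),
      Tendsto (fun w => v (S w u)) l (𝓝 (v (R u))) := by
  have hb : ∀ w u (v : StrongDual ℂ X), ‖v (S w u)‖ ≤ 1 * ‖u‖ * ‖v‖ := by
    intro w u v
    refine (v.le_opNorm _).trans ?_
    rw [mul_comm]
    refine mul_le_mul_of_nonneg_right ?_ (norm_nonneg _)
    exact (S w).le_of_opNorm_le (hS w) u
  have hlim : ∀ u (v : StrongDual ℂ X), ∃ c : ℂ, ‖c‖ ≤ 1 * ‖u‖ * ‖v‖ ∧
      Tendsto (fun w => v (S w u)) l (𝓝 c) := by
    intro u v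
    obtain ⟨c, hc, hcl⟩ := (isCompact_closedBall (0 : ℂ) (1 * ‖u‖ * ‖v‖)).ultrafilter_le_nhds
      (l.map fun w => v (S w u)) (by
        rw [le_principal_iff, Ultrafilter.mem_coe, Ultrafilter.mem_map]
        filter_upwards with w
        rw [Set.mem_preimage, Metric.mem_closedBall, dist_zero_right]
        exact hb w u v)
    refine ⟨c, by simpa using hc, hcl⟩
  choose b hb1 hb2 using hlim
  obtain ⟨R, hR, hR2⟩ := exists_op hX b
    (fun u u' v => tendsto_nhds_unique (hb2 _ v) (by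
      simpa using (hb2 u v).add (hb2 u' v)))
    (fun c u v => tendsto_nhds_unique (hb2 _ v) (by
      simpa using (hb2 u v).const_mul c))
    (fun u v v' => tendsto_nhds_unique (hb2 u _) (by
      simpa using (hb2 u v).add (hb2 u v')))
    (fun c u v => tendsto_nhds_unique (hb2 u _) (by
      simpa using (hb2 u v).const_mul c))
    zero_le_one hb1
  exact ⟨R, hR, fun u v => by rw [hR2]; exact hb2 u v⟩

/-- The functional `S ↦ y (S x)` on the commutant of `T` has norm at most `ρ`. -/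
def HN (T : X →L[ℂ] X) (x : X) (y : StrongDual ℂ X) (ρ : ℝ) : Prop :=
  ∀ S : X →L[ℂ] X, S * T = T * S → ‖y (S x)‖ ≤ ρ * ‖S‖

/-- The set of parameters for which the functional `S ↦ y (S x)` on the commutant has norm less
than `ρ`. -/
def OS {W : Type*} (Φ : W → X →L[ℂ] X) (x : X) (y : StrongDual ℂ X) (ρ : ℝ) : Set W :=
  {w | ∃ ρ', 0 ≤ ρ' ∧ ρ' < ρ ∧ HN (Φ w) x y ρ'}

/-- **Semicontinuity.** -/
lemma isOpen_OS (hX : Reflexive X) {W : Type*} [TopologicalSpace W] (Φ : W → X →L[ℂ] X)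
    (h1 : ∀ x, Continuous fun w => Φ w x)
    (h2 : ∀ y : StrongDual ℂ X, Continuous fun w => y.comp (Φ w))
    (x : X) (y : StrongDual ℂ X) (ρ : ℝ) : IsOpen (OS Φ x y ρ) := by
  classical
  rw [isOpen_iff_ultrafilter]
  rintro w0 ⟨ρ', h0, hlt, hN⟩ l hl
  by_contra hcon
  set ρ'' : ℝ := (ρ' + ρ) / 2 with hρ''
  have hρ1 : ρ' < ρ'' := by rw [hρ'']; linarith
  have hρ2 : ρ'' < ρ := by rw [hρ'']; linarith
  have hbad : ∀ w, ∃ S : X →L[ℂ] X, ‖S‖ ≤ 1 ∧ (w ∉ OS Φ x y ρ → S * Φ w = Φ w * S ∧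
      ρ'' ≤ ‖y (S x)‖) := by
    intro w
    by_cases hw : w ∈ OS Φ x y ρ
    · exact ⟨0, by simp, fun h => absurd hw h⟩
    · have h3 : ¬ HN (Φ w) x y ρ'' := fun h => hw ⟨ρ'', by linarith, hρ2, h⟩
      unfold HN at h3
      push Not at h3
      obtain ⟨S, hS, hS2⟩ := h3
      have hS0 : 0 < ‖S‖ := by
        rw [norm_pos_iff]
        rintro rfl
        simp at hS2
      refine ⟨((‖S‖⁻¹ : ℝ) : ℂ) • S, ?_, fun _ => ⟨?_, ?_⟩⟩
      · rw [norm_smul, Complex.norm_real, Real.norm_of_nonneg (by positivity),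
          inv_mul_cancel₀ hS0.ne']
      · rw [smul_mul_assoc, mul_smul_comm, hS]
      · rw [_root_.smul_apply, map_smul, norm_smul, Complex.norm_real,
          Real.norm_of_nonneg (by positivity), inv_mul_eq_div, le_div_iff₀ hS0]
        exact hS2.le
  choose S hS1 hS2 using hbad
  obtain ⟨R, hR, hRl⟩ := exists_limit_op hX l S hS1
  have hco : ∀ᶠ w in (l : Filter W), w ∉ OS Φ x y ρ :=
    Ultrafilter.compl_mem_iff_notMem.2 hcon
  have t1 : ∀ u, Tendsto (fun w => Φ w u) l (𝓝 (Φ w0 u)) := fun u =>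
    ((h1 u).tendsto w0).mono_left hl
  have t2 : ∀ v : StrongDual ℂ X, Tendsto (fun w => v.comp (Φ w)) l (𝓝 (v.comp (Φ w0))) :=
    fun v => ((h2 v).tendsto w0).mono_left hl
  have hcomm : R * Φ w0 = Φ w0 * R := by
    ext u
    apply ext_dual
    intro v
    have a1 : Tendsto (fun w => v (S w (Φ w u))) l (𝓝 (v (R (Φ w0 u)))) := by
      have b1 : Tendsto (fun w => v (S w (Φ w u - Φ w0 u))) l (𝓝 0) := by
        rw [tendsto_zero_iff_norm_tendsto_zero]
        have c1 : Tendsto (fun w => ‖v‖ * ‖Φ w u - Φ w0 u‖) l (𝓝 (‖v‖ * 0)) :=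
          (tendsto_iff_norm_sub_tendsto_zero.1 (t1 u)).const_mul _
        rw [mul_zero] at c1
        refine squeeze_zero (fun _ => norm_nonneg _) (fun w => ?_) c1
        refine (v.le_opNorm _).trans (mul_le_mul_of_nonneg_left ?_ (norm_nonneg _))
        simpa using (S w).le_of_opNorm_le (hS1 w) (Φ w u - Φ w0 u)
      have b2 := b1.add (hRl (Φ w0 u) v)
      rw [zero_add] at b2
      refine b2.congr fun w => ?_
      rw [map_sub, map_sub, sub_add_cancel]
    have a2 : Tendsto (fun w => v (Φ w (S w u))) l (𝓝 (v (Φ w0 (R u)))) := by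
      have b1 : Tendsto (fun w => (v.comp (Φ w) - v.comp (Φ w0)) (S w u)) l (𝓝 0) := by
        rw [tendsto_zero_iff_norm_tendsto_zero]
        have c1 : Tendsto (fun w => ‖v.comp (Φ w) - v.comp (Φ w0)‖ * ‖u‖) l (𝓝 (0 * ‖u‖)) :=
          (tendsto_iff_norm_sub_tendsto_zero.1 (t2 v)).mul_const _
        rw [zero_mul] at c1
        refine squeeze_zero (fun _ => norm_nonneg _) (fun w => ?_) c1
        refine (ContinuousLinearMap.le_opNorm _ _).trans
          (mul_le_mul_of_nonneg_left ?_ (norm_nonneg _))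
        simpa using (S w).le_of_opNorm_le (hS1 w) u
      have b2 := b1.add (hRl u (v.comp (Φ w0)))
      rw [zero_add] at b2
      refine b2.congr fun w => ?_
      rw [_root_.sub_apply, sub_add_cancel]
      rfl
    refine tendsto_nhds_unique (a1.congr' ?_) a2
    filter_upwards [hco] with w hw
    have := congrArg (fun Q : X →L[ℂ] X => v (Q u)) (hS2 w hw).1
    simpa using this
  have hge : ρ'' ≤ ‖y (R x)‖ := by
    refine ge_of_tendsto (hRl x y).norm ?_
    filter_upwards [hco] with w hw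
    exact (hS2 w hw).2
  have hle := hN R hcomm
  have : ρ' * ‖R‖ ≤ ρ' := by
    calc ρ' * ‖R‖ ≤ ρ' * 1 := mul_le_mul_of_nonneg_left hR h0
      _ = ρ' := mul_one _
  linarith

end Pool.Agent.J6H45.TV
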