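import Pool.Agent.J6H45.TV.A

/-!
# The representation of functionals on a commutant
-/

set_option autoImplicit false
open Filter Topology Finset

namespace Pool.Agent.J6H45.TV

variable {X : Type*} [NormedAddCommGroup X] [NormedSpace ℂ X]

/-- The commutant of `A` in the corner of `P`. -/
def CM (A P : X →L[ℂ] X) : Submodule ℂ (X →L[ℂ] X) where
  carrier := {S | S * A = A * S ∧ P * S * P = S}
  add_mem' := by
    rintro a b ⟨h1, h2⟩ ⟨h3, h4⟩
    exact ⟨by rw [add_mul, mul_add, h1, h3], by rw [mul_add, add_mul, h2, h4]⟩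
  zero_mem' := ⟨by simp, by simp⟩
  smul_mem' := by
    rintro c a ⟨h1, h2⟩
    exact ⟨by rw [smul_mul_assoc, mul_smul_comm, h1], by
      rw [mul_smul_comm, smul_mul_assoc, h2]⟩

variable {E : Type*} [NormedAddCommGroup E] [NormedSpace ℂ E]

/-- The functional `S ↦ v (S u)`. -/
noncomputable def ev (𝒞 : E →ₗᵢ[ℂ] (X →L[ℂ] X)) (u : X) (v : StrongDual ℂ X) :
    StrongDual ℂ E :=
  (v.comp (ContinuousLinearMap.apply ℂ X u)).comp 𝒞.toContinuousLinearMap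

lemma ev_apply (𝒞 : E →ₗᵢ[ℂ] (X →L[ℂ] X)) (u : X) (v : StrongDual ℂ X) (S : E) :
    ev 𝒞 u v S = v ((𝒞 S) u) := rfl

/-- Sums of elementary functionals. -/
def KS (𝒞 : E →ₗᵢ[ℂ] (X →L[ℂ] X)) (p q ρ : ℝ) : Set (StrongDual ℂ E) :=
  {ψ | ∃ (n : ℕ) (u : ℕ → X) (v : ℕ → StrongDual ℂ X), ∑ i ∈ range n, ‖u i‖ ^ p ≤ ρ ∧
    ∑ i ∈ range n, ‖v i‖ ^ q ≤ ρ ∧ ψ = ∑ i ∈ range n, ev 𝒞 (u i) (v i)}

lemma norm_scale {Y : Type*} [NormedAddCommGroup Y] [NormedSpace ℂ Y] {a p : ℝ} (ha : 0 ≤ a)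
    (hp : 0 < p) (u : Y) : ‖((a ^ (1 / p) : ℝ) : ℂ) • u‖ ^ p = a * ‖u‖ ^ p := by
  rw [norm_smul, Complex.norm_real, Real.norm_of_nonneg (by positivity),
    Real.mul_rpow (by positivity) (norm_nonneg _), ← Real.rpow_mul ha, one_div_mul_cancel hp.ne',
    Real.rpow_one]

lemma ev_scale (𝒞 : E →ₗᵢ[ℂ] (X →L[ℂ] X)) {p q a : ℝ} (hpq : p.HolderConjugate q)
    (ha : 0 ≤ a) (u : X) (v : StrongDual ℂ X) :
    ev 𝒞 (((a ^ (1 / p) : ℝ) : ℂ) • u) (((a ^ (1 / q) : ℝ) : ℂ) • v) = (a : ℂ) • ev 𝒞 u v := by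
  ext S
  rw [ev_apply, map_smul, map_smul, _root_.smul_apply, _root_.smul_apply, ev_apply, smul_eq_mul,
    smul_eq_mul, smul_eq_mul, ← mul_assoc]
  congr 1
  rw [← Complex.ofReal_mul]
  congr 1
  rcases ha.eq_or_lt with rfl | ha
  · have h1 : (1 / p : ℝ) ≠ 0 := by have := hpq.pos; positivity
    rw [Real.zero_rpow h1, zero_mul]
  · rw [← Real.rpow_add ha]
    have : 1 / p + 1 / q = 1 := by
      have := hpq.inv_add_inv_eq_one
      simpa [one_div] using this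
    rw [this, Real.rpow_one]

lemma sum_ite_append {M : Type*} [AddCommMonoid M] (n m : ℕ) (f g : ℕ → M) :
    ∑ i ∈ range (n + m), (if i < n then f i else g (i - n)) =
      ∑ i ∈ range n, f i + ∑ i ∈ range m, g i := by
  rw [sum_range_add]
  congr 1
  · refine sum_congr rfl fun i hi => ?_
    rw [if_pos (mem_range.1 hi)]
  · refine sum_congr rfl fun i _ => ?_
    rw [if_neg (by omega), Nat.add_sub_cancel_left]

lemma convex_KS (𝒞 : E →ₗᵢ[ℂ] (X →L[ℂ] X)) {p q : ℝ} (hpq : p.HolderConjugate q) {ρ : ℝ} :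
    Convex ℝ (KS 𝒞 p q ρ) := by
  rintro ψ1 ⟨n, u, v, h1, h2, rfl⟩ ψ2 ⟨m, u', v', h3, h4, rfl⟩ a b ha hb hab
  have hp := hpq.pos
  have hq := hpq.symm.pos
  refine ⟨n + m, fun i => if i < n then ((a ^ (1 / p) : ℝ) : ℂ) • u i else
      ((b ^ (1 / p) : ℝ) : ℂ) • u' (i - n),
    fun i => if i < n then ((a ^ (1 / q) : ℝ) : ℂ) • v i else
      ((b ^ (1 / q) : ℝ) : ℂ) • v' (i - n), ?_, ?_, ?_⟩
  · have e : ∀ i, ‖(if i < n then ((a ^ (1 / p) : ℝ) : ℂ) • u i else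
        ((b ^ (1 / p) : ℝ) : ℂ) • u' (i - n))‖ ^ p = if i < n then a * ‖u i‖ ^ p else
          (fun j => b * ‖u' j‖ ^ p) (i - n) := by
      intro i
      split_ifs
      · exact norm_scale ha hp _
      · exact norm_scale hb hp _
    rw [sum_congr rfl fun i _ => e i, sum_ite_append n m (fun i => a * ‖u i‖ ^ p)
      (fun j => b * ‖u' j‖ ^ p), ← mul_sum, ← mul_sum]
    calc _ ≤ a * ρ + b * ρ := add_le_add (mul_le_mul_of_nonneg_left h1 ha)
          (mul_le_mul_of_nonneg_left h3 hb)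
      _ = ρ := by rw [← add_mul, hab, one_mul]
  · have e : ∀ i, ‖(if i < n then ((a ^ (1 / q) : ℝ) : ℂ) • v i else
        ((b ^ (1 / q) : ℝ) : ℂ) • v' (i - n))‖ ^ q = if i < n then a * ‖v i‖ ^ q else
          (fun j => b * ‖v' j‖ ^ q) (i - n) := by
      intro i
      split_ifs
      · exact norm_scale (Y := StrongDual ℂ X) ha hq (v i)
      · exact norm_scale (Y := StrongDual ℂ X) hb hq (v' (i - n))
    rw [sum_congr rfl fun i _ => e i, sum_ite_append n m (fun i => a * ‖v i‖ ^ q)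
      (fun j => b * ‖v' j‖ ^ q), ← mul_sum, ← mul_sum]
    calc _ ≤ a * ρ + b * ρ := add_le_add (mul_le_mul_of_nonneg_left h2 ha)
          (mul_le_mul_of_nonneg_left h4 hb)
      _ = ρ := by rw [← add_mul, hab, one_mul]
  · have e : ∀ i, ev 𝒞 (if i < n then ((a ^ (1 / p) : ℝ) : ℂ) • u i else
        ((b ^ (1 / p) : ℝ) : ℂ) • u' (i - n)) (if i < n then ((a ^ (1 / q) : ℝ) : ℂ) • v i else
        ((b ^ (1 / q) : ℝ) : ℂ) • v' (i - n)) = if i < n then a • ev 𝒞 (u i) (v i) else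
          (fun j => b • ev 𝒞 (u' j) (v' j)) (i - n) := by
      intro i
      split_ifs
      · rw [ev_scale 𝒞 hpq ha]
        ext S
        rw [_root_.smul_apply, _root_.smul_apply, Complex.real_smul, smul_eq_mul]
      · rw [ev_scale 𝒞 hpq hb]
        ext S
        beta_reduce
        rw [_root_.smul_apply, _root_.smul_apply, Complex.real_smul, smul_eq_mul]
    rw [sum_congr rfl fun i _ => e i, sum_ite_append n m (fun i => a • ev 𝒞 (u i) (v i))
      (fun j => b • ev 𝒞 (u' j) (v' j)), smul_sum, smul_sum]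

lemma smul_KS (𝒞 : E →ₗᵢ[ℂ] (X →L[ℂ] X)) {p q ρ : ℝ} {ψ : StrongDual ℂ E}
    (h : ψ ∈ KS 𝒞 p q ρ) {c : ℂ} (hc : ‖c‖ = 1) : c • ψ ∈ KS 𝒞 p q ρ := by
  obtain ⟨n, u, v, h1, h2, rfl⟩ := h
  refine ⟨n, fun i => c • u i, v, ?_, h2, ?_⟩
  · simpa [norm_smul, hc] using h1
  · rw [smul_sum]
    refine sum_congr rfl fun i _ => ?_
    ext S
    simp [ev_apply]

/-- **Representation.** -/
theorem rep_aux (hX : Reflexive X) {p q : ℝ} (hpq : p.HolderConjugate q) (A P : X →L[ℂ] X)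
    (𝒞 : E →ₗᵢ[ℂ] (X →L[ℂ] X)) (h𝒞 : ∀ S : E, 𝒞 S ∈ CM A P) (h𝒞' : ∀ S ∈ CM A P, ∃ S', 𝒞 S' = S)
    {x : X} {y : StrongDual ℂ X} {ρ : ℝ} (hρ : 0 < ρ)
    (hN : ∀ S ∈ CM A P, ‖y (S x)‖ ≤ ρ * ‖S‖) {η : ℝ} (hη : 0 < η) :
    ∃ (n : ℕ) (u : ℕ → X) (v : ℕ → StrongDual ℂ X), ∑ i ∈ range n, ‖u i‖ ^ p ≤ ρ ∧
      ∑ i ∈ range n, ‖v i‖ ^ q ≤ ρ ∧
      ∀ S ∈ CM A P, ‖y (S x) - ∑ i ∈ range n, v i (S (u i))‖ ≤ η * ‖S‖ := by
  classical
  have hp := hpq.pos
  have hq := hpq.symm.pos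
  have key : ev 𝒞 x y ∈ closure (KS 𝒞 p q ρ) := by
    by_contra hcon
    obtain ⟨f, s, hs1, hs2⟩ := RCLike.geometric_hahn_banach_closed_point (𝕜 := ℂ)
      (convex_KS 𝒞 hpq).closure isClosed_closure hcon
    have hfK : ∀ ψ ∈ KS 𝒞 p q ρ, ‖f ψ‖ ≤ s := by
      intro ψ hψ
      by_cases h0 : f ψ = 0
      · rw [h0, norm_zero]
        have h1 : (0 : StrongDual ℂ E) ∈ KS 𝒞 p q ρ :=
          ⟨0, fun _ => 0, fun _ => 0, by simpa using hρ.le, by simpa using hρ.le, by simp⟩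
        have h2 := hs1 _ (subset_closure h1)
        simp at h2
        exact h2.le
      · set c : ℂ := (starRingEnd ℂ (f ψ)) / ‖f ψ‖ with hc
        have hn0 : ‖f ψ‖ ≠ 0 := norm_ne_zero_iff.2 h0
        have hcn : ‖c‖ = 1 := by
          rw [hc, norm_div, RCLike.norm_conj, Complex.norm_real, norm_norm, div_self hn0]
        have h2 := hs1 _ (subset_closure (smul_KS 𝒞 hψ hcn))
        rw [map_smul, smul_eq_mul] at h2
        have h3 : c * f ψ = ((‖f ψ‖ : ℝ) : ℂ) := by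
          rw [hc, div_mul_eq_mul_div, mul_comm, Complex.mul_conj, Complex.normSq_eq_norm_sq]
          rw [div_eq_iff (by exact_mod_cast hn0)]
          push_cast
          ring
        rw [h3] at h2
        exact (show (‖f ψ‖ : ℝ) < s from by simpa using h2).le
    have hs0 : 0 ≤ s := by
      have h1 : (0 : StrongDual ℂ E) ∈ KS 𝒞 p q ρ :=
        ⟨0, fun _ => 0, fun _ => 0, by simpa using hρ.le, by simpa using hρ.le, by simp⟩
      exact (norm_nonneg _).trans (hfK _ h1)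
    -- the bilinear form
    have hbd : ∀ (u : X) (v : StrongDual ℂ X), ‖f (ev 𝒞 u v)‖ ≤ s / ρ * ‖u‖ * ‖v‖ := by
      intro u v
      by_cases hu : u = 0
      · subst hu
        have : ev 𝒞 (0 : X) v = 0 := by ext S; simp [ev_apply]
        rw [this]; simp
      by_cases hv : v = 0
      · subst hv
        have : ev 𝒞 u (0 : StrongDual ℂ X) = 0 := by ext S; simp [ev_apply]
        rw [this]; simp
      have hu0 : 0 < ‖u‖ := norm_pos_iff.2 hu
      have hv0 : 0 < ‖v‖ := norm_pos_iff.2 hv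
      have hmem : ev 𝒞 (((ρ ^ (1 / p) : ℝ) : ℂ) • (((‖u‖⁻¹ : ℝ) : ℂ) • u))
          (((ρ ^ (1 / q) : ℝ) : ℂ) • (((‖v‖⁻¹ : ℝ) : ℂ) • v)) ∈ KS 𝒞 p q ρ := by
        refine ⟨1, fun _ => ((ρ ^ (1 / p) : ℝ) : ℂ) • (((‖u‖⁻¹ : ℝ) : ℂ) • u), fun _ =>
          ((ρ ^ (1 / q) : ℝ) : ℂ) • (((‖v‖⁻¹ : ℝ) : ℂ) • v), ?_, ?_, by simp⟩
        · rw [sum_range_one, norm_scale hρ.le hp, norm_smul, Complex.norm_real,
            Real.norm_of_nonneg (by positivity), inv_mul_cancel₀ hu0.ne', Real.one_rpow, mul_one]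
        · rw [sum_range_one]
          beta_reduce
          rw [norm_scale (Y := StrongDual ℂ X) hρ.le hq, norm_smul, Complex.norm_real,
            Real.norm_of_nonneg (by positivity), inv_mul_cancel₀ hv0.ne', Real.one_rpow, mul_one]
      have h1 := hfK _ hmem
      rw [ev_scale 𝒞 hpq hρ.le] at h1
      have e1 : ev 𝒞 ((((‖u‖⁻¹ : ℝ) : ℂ)) • u) (((‖v‖⁻¹ : ℝ) : ℂ) • v) =
          (((‖u‖⁻¹ * ‖v‖⁻¹ : ℝ)) : ℂ) • ev 𝒞 u v := by
        ext S
        simp [ev_apply, mul_assoc]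
      rw [e1, map_smul, map_smul, norm_smul, norm_smul, Complex.norm_real, Complex.norm_real,
        Real.norm_of_nonneg hρ.le, Real.norm_of_nonneg (by positivity)] at h1
      have h2 : ‖f (ev 𝒞 u v)‖ = ρ * (‖u‖⁻¹ * ‖v‖⁻¹ * ‖f (ev 𝒞 u v)‖) / ρ * ‖u‖ * ‖v‖ := by
        field_simp
      rw [h2]
      gcongr
    obtain ⟨R, hR, hRf⟩ := exists_op hX (fun u v => f (ev 𝒞 u v))
      (fun u u' v => by
        rw [← map_add]; congr 1; ext S; simp [ev_apply])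
      (fun c u v => by
        rw [← smul_eq_mul, ← map_smul]; congr 1; ext S; simp [ev_apply])
      (fun u v v' => by
        rw [← map_add]; congr 1)
      (fun c u v => by
        rw [← smul_eq_mul, ← map_smul]; congr 1)
      (div_nonneg hs0 hρ.le) hbd
    have hRC : R ∈ CM A P := by
      constructor
      · ext u
        apply ext_dual
        intro v
        change v (R (A u)) = v (A (R u))
        have e1 : v (A (R u)) = (v.comp A) (R u) := rfl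
        rw [e1, hRf, hRf]
        congr 1
        ext S
        rw [ev_apply, ev_apply]
        have h3 : 𝒞 S * A = A * 𝒞 S := (h𝒞 S).1
        exact congrArg (fun Q : X →L[ℂ] X => v (Q u)) h3
      · ext u
        apply ext_dual
        intro v
        change v (P (R (P u))) = v (R u)
        have e1 : v (P (R (P u))) = (v.comp P) (R (P u)) := rfl
        rw [e1, hRf, hRf]
        congr 1
        ext S
        rw [ev_apply, ev_apply]
        have h3 : P * 𝒞 S * P = 𝒞 S := (h𝒞 S).2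
        exact congrArg (fun Q : X →L[ℂ] X => v (Q u)) h3
    have h1 := hN R hRC
    rw [hRf x y] at h1
    have h2 : s < ‖f (ev 𝒞 x y)‖ := hs2.trans_le (RCLike.re_le_norm _)
    have h3 : ρ * ‖R‖ ≤ s := by
      calc ρ * ‖R‖ ≤ ρ * (s / ρ) := mul_le_mul_of_nonneg_left hR hρ.le
        _ = s := by field_simp
    linarith
  obtain ⟨ψ, ⟨n, u, v, h1, h2, rfl⟩, hd⟩ :=
    Metric.mem_closure_iff.1 key η hη
  refine ⟨n, u, v, h1, h2, fun S hS => ?_⟩
  obtain ⟨S, rfl⟩ := h𝒞' S hS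
  rw [dist_eq_norm] at hd
  have h3 := (ev 𝒞 x y - ∑ i ∈ range n, ev 𝒞 (u i) (v i)).le_opNorm S
  rw [_root_.sub_apply, _root_.sum_apply] at h3
  simp only [ev_apply] at h3
  rw [𝒞.norm_map]
  exact h3.trans (mul_le_mul_of_nonneg_right hd.le (norm_nonneg _))

/-- **Representation.** The functional `S ↦ y (S x)` on the commutant of `A` in the corner of `P` is
close to a sum of elementary functionals with small coefficients. -/
theorem rep (hX : Reflexive X) {p q : ℝ} (hpq : p.HolderConjugate q) (A P : X →L[ℂ] X)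
    {x : X} {y : StrongDual ℂ X} {ρ : ℝ} (hρ : 0 < ρ)
    (hN : ∀ S ∈ CM A P, ‖y (S x)‖ ≤ ρ * ‖S‖) {η : ℝ} (hη : 0 < η) :
    ∃ (n : ℕ) (u : ℕ → X) (v : ℕ → StrongDual ℂ X), ∑ i ∈ range n, ‖u i‖ ^ p ≤ ρ ∧
      ∑ i ∈ range n, ‖v i‖ ^ q ≤ ρ ∧
      ∀ S ∈ CM A P, ‖y (S x) - ∑ i ∈ range n, v i (S (u i))‖ ≤ η * ‖S‖ :=
  rep_aux (E := CM A P) hX hpq A P ⟨⟨⟨Subtype.val, fun _ _ => rfl⟩, fun _ _ => rfl⟩, fun _ => rfl⟩
    (fun S => S.2) (fun S hS => ⟨⟨S, hS⟩, rfl⟩) hρ hN hη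

end Pool.Agent.J6H45.TV
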