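import Pool.Agent.J6H45.TV.B
import Pool.Agent.Y280.HMat

/-!
# Copies of an operator far away, coupled by a weighted shift

The structure of the commutant of `A ⊗ 1 + 1 ⊗ J` is `block_toeplitz` of the starting files (`Y280.HMat`).
-/

set_option autoImplicit false
open Filter Topology Finset Pool.Agent.Y280

namespace Pool.Agent.J6H45.TV

variable {X : Type*} [NormedAddCommGroup X] [NormedSpace ℂ X]

/-- `V 0, …, V n` embed `n + 1` copies of the range of `P = V 0` in `X`, with coordinate maps `W k`. The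
copies are in the position of an `ℓ_p`-sum and complemented by a projection of norm one. -/
structure Copies (p : ℝ) (P : X →L[ℂ] X) (n : ℕ) (V W : ℕ → X →L[ℂ] X) : Prop where
  V0 : V 0 = P
  W0 : W 0 = P
  PW : ∀ k ≤ n, P * W k = W k
  VP : ∀ k ≤ n, V k * P = V k
  bio : ∀ j ≤ n, ∀ k ≤ n, W j * V k = if j = k then P else 0
  normV : ∀ z : ℕ → X, ‖∑ k ∈ range (n + 1), V k (z k)‖ ^ p ≤ ∑ k ∈ range (n + 1), ‖z k‖ ^ p
  normW : ∀ x, ∑ k ∈ range (n + 1), ‖W k x‖ ^ p ≤ ‖x‖ ^ p

/-- Copies of `A`, coupled by a shift with the weights `δ, …, δ, w`. -/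
noncomputable def TT (A : X →L[ℂ] X) (m : ℕ) (δ w : ℝ) (V W : ℕ → X →L[ℂ] X) : X →L[ℂ] X :=
  ∑ k ∈ range (m + 2), V k * A * W k + ∑ k ∈ range (m + 1), wt m δ w k • (V (k + 1) * W k)

variable {p : ℝ} {P A : X →L[ℂ] X} {m : ℕ} {V W : ℕ → X →L[ℂ] X}

lemma Copies.PP {n : ℕ} (h : Copies p P n V W) : P * P = P := by
  have h1 := h.bio 0 (Nat.zero_le _) 0 (Nat.zero_le _)
  rwa [h.V0, h.W0, if_pos rfl] at h1

lemma rpow_le_of {a b p : ℝ} (hp : 0 < p) (hb : 0 ≤ b) (h : a ^ p ≤ b ^ p) : a ≤ b := by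
  by_contra hc
  push Not at hc
  exact absurd h (not_le.2 (Real.rpow_lt_rpow hb hc hp))

lemma Copies.norm_W {n : ℕ} (h : Copies p P n V W) (hp : 0 < p) {k : ℕ} (hk : k ≤ n) :
    ‖W k‖ ≤ 1 := by
  refine ContinuousLinearMap.opNorm_le_bound _ zero_le_one fun x => ?_
  rw [one_mul]
  refine rpow_le_of hp (norm_nonneg _) ?_
  refine le_trans ?_ (h.normW x)
  exact single_le_sum (f := fun k => ‖W k x‖ ^ p) (fun i _ => by positivity)
    (mem_range.2 (by omega))

lemma Copies.norm_V {n : ℕ} (h : Copies p P n V W) (hp : 0 < p) {k : ℕ} (hk : k ≤ n) :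
    ‖V k‖ ≤ 1 := by
  refine ContinuousLinearMap.opNorm_le_bound _ zero_le_one fun x => ?_
  rw [one_mul]
  refine rpow_le_of hp (norm_nonneg _) ?_
  have h1 := h.normV fun j => if j = k then x else 0
  have hk' : k ∈ range (n + 1) := mem_range.2 (by omega)
  rw [sum_eq_single_of_mem k hk' (fun j _ hj => by beta_reduce; rw [if_neg hj, map_zero]),
    sum_eq_single_of_mem k hk' (fun j _ hj => by
      beta_reduce; rw [if_neg hj, norm_zero, Real.zero_rpow hp.ne'])] at h1
  simpa using h1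

lemma TT_V (h : Copies p P (m + 1) V W) (hAP : A * P = A) (δ w : ℝ) {b : ℕ} (hb : b ≤ m + 1) :
    TT A m δ w V W * V b = V b * A + if b < m + 1 then wt m δ w b • V (b + 1) else 0 := by
  unfold TT
  rw [add_mul, sum_mul, sum_mul]
  congr 1
  · rw [sum_eq_single_of_mem b (mem_range.2 (by omega))]
    · rw [mul_assoc, h.bio b hb b hb, if_pos rfl, mul_assoc, hAP]
    · intro k hk hkb
      have := mem_range.1 hk
      rw [mul_assoc, h.bio k (by omega) b hb, if_neg hkb, mul_zero]
  · by_cases hb' : b < m + 1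
    · rw [if_pos hb', sum_eq_single_of_mem b (mem_range.2 hb')]
      · rw [smul_mul_assoc, mul_assoc, h.bio b hb b hb, if_pos rfl, h.VP (b + 1) (by omega)]
      · intro k hk hkb
        have := mem_range.1 hk
        rw [smul_mul_assoc, mul_assoc, h.bio k (by omega) b hb, if_neg hkb, mul_zero, smul_zero]
    · rw [if_neg hb']
      refine sum_eq_zero fun k hk => ?_
      have := mem_range.1 hk
      rw [smul_mul_assoc, mul_assoc, h.bio k (by omega) b hb, if_neg (by omega), mul_zero,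
        smul_zero]

lemma W_TT (h : Copies p P (m + 1) V W) (hPA : P * A = A) (δ w : ℝ) {a : ℕ} (ha : a ≤ m + 1) :
    W a * TT A m δ w V W = A * W a + if 0 < a then wt m δ w (a - 1) • W (a - 1) else 0 := by
  unfold TT
  rw [mul_add, mul_sum, mul_sum]
  congr 1
  · rw [sum_eq_single_of_mem a (mem_range.2 (by omega))]
    · rw [← mul_assoc, ← mul_assoc, h.bio a ha a ha, if_pos rfl, hPA]
    · intro k hk hka
      have := mem_range.1 hk
      rw [← mul_assoc, ← mul_assoc, h.bio a ha k (by omega), if_neg (Ne.symm hka), zero_mul,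
        zero_mul]
  · by_cases ha' : 0 < a
    · rw [if_pos ha', sum_eq_single_of_mem (a - 1) (mem_range.2 (by omega))]
      · rw [mul_smul_comm, ← mul_assoc, Nat.sub_add_cancel ha', h.bio a ha a ha, if_pos rfl,
          h.PW (a - 1) (by omega)]
      · intro k hk hka
        have := mem_range.1 hk
        rw [mul_smul_comm, ← mul_assoc, h.bio a ha (k + 1) (by omega), if_neg (by omega),
          zero_mul, smul_zero]
    · rw [if_neg ha']
      refine sum_eq_zero fun k hk => ?_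
      have := mem_range.1 hk
      rw [mul_smul_comm, ← mul_assoc, h.bio a ha (k + 1) (by omega), if_neg (by omega), zero_mul,
        smul_zero]

/-- The relations between the blocks of an operator in the commutant. -/
lemma hrel (h : Copies p P (m + 1) V W) (hPA : P * A = A) (hAP : A * P = A) (δ w : ℝ)
    {S : X →L[ℂ] X} (hS : S * TT A m δ w V W = TT A m δ w V W * S) :
    ∀ a ≤ m + 1, ∀ b ≤ m + 1, A * (W a * S * V b) - (W a * S * V b) * A =
      (if b < m + 1 then wt m δ w b • (W a * S * V (b + 1)) else 0) -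
        (if 0 < a then wt m δ w (a - 1) • (W (a - 1) * S * V b) else 0) := by
  intro a ha b hb
  have h1 := TT_V h hAP δ w hb
  have h2 := W_TT h hPA δ w ha
  set T := TT A m δ w V W
  have e1 : W a * S * (T * V b) = (W a * T) * (S * V b) := by
    have : W a * S * (T * V b) = W a * (S * T) * V b := by noncomm_ring
    rw [this, hS]; noncomm_ring
  rw [h1, h2] at e1
  have e2 : (if b < m + 1 then wt m δ w b • (W a * S * V (b + 1)) else 0) =
      W a * S * (if b < m + 1 then wt m δ w b • V (b + 1) else 0) := by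
    split_ifs
    · rw [mul_smul_comm]
    · rw [mul_zero]
  have e3 : (if 0 < a then wt m δ w (a - 1) • (W (a - 1) * S * V b) else 0) =
      (if 0 < a then wt m δ w (a - 1) • W (a - 1) else 0) * (S * V b) := by
    split_ifs
    · rw [smul_mul_assoc, mul_assoc]
    · rw [zero_mul]
  rw [e2, e3]
  rw [mul_add, add_mul] at e1
  have e4 : W a * S * V b * A = W a * S * (V b * A) := by noncomm_ring
  have e5 : A * (W a * S * V b) = A * W a * (S * V b) := by noncomm_ring
  rw [e4, e5]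
  rw [sub_eq_sub_iff_add_eq_add, ← e1, add_comm]

open Polynomial in
/-- **The functional on the commutant of the coupled copies.** -/
theorem main_est (hp : 0 < p) (h : Copies p P (m + 1) V W) (hPA : P * A = A) (hAP : A * P = A)
    {χ : ℂ[X]} (hχ : aeval A χ = 0) (hs : χ.Separable) {δ w : ℝ} (hδ : 0 < δ) (hw : 0 < w)
    (U : ℕ → X) (Y : ℕ → StrongDual ℂ X) {η : ℝ}
    (hη : ∀ S ∈ CM A P, ‖∑ a ∈ range (m + 1), Y a (S (U a))‖ ≤ η * ‖S‖) (hη0 : 0 ≤ η)
    {S : X →L[ℂ] X} (hS : S * TT A m δ w V W = TT A m δ w V W * S) :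
    ‖(∑ a ∈ range (m + 1), (Y a).comp (W a)) (S (∑ b ∈ range (m + 1), V b (U b)))‖ ≤
      (η + δ / w * ∑ a ∈ range (m + 1), ∑ b ∈ range (m + 1), ‖Y a‖ * ‖U b‖) * ‖S‖ := by
  obtain ⟨h1, h2, h3⟩ := block_toeplitz hχ hs m hδ hw (fun a b => W a * S * V b)
    (hrel h hPA hAP δ w hS)
  set B := W 0 * S * V 0 with hB
  have hBn : ∀ a ≤ m + 1, ∀ b ≤ m + 1, ‖W a * S * V b‖ ≤ ‖S‖ := by
    intro a ha b hb
    calc ‖W a * S * V b‖ ≤ ‖W a * S‖ * ‖V b‖ := norm_mul_le _ _
      _ ≤ ‖W a * S‖ * 1 := mul_le_mul_of_nonneg_left (h.norm_V hp hb) (norm_nonneg _)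
      _ ≤ ‖W a‖ * ‖S‖ := by rw [mul_one]; exact norm_mul_le _ _
      _ ≤ 1 * ‖S‖ := mul_le_mul_of_nonneg_right (h.norm_W hp ha) (norm_nonneg _)
      _ = ‖S‖ := one_mul _
  have hBC : B ∈ CM A P := by
    refine ⟨h1.symm, ?_⟩
    rw [hB, h.V0, h.W0]
    have e1 : P * (P * S * P) * P = (P * P) * S * (P * P) := by noncomm_ring
    rw [e1, h.PP]
  have hsum : (∑ a ∈ range (m + 1), (Y a).comp (W a)) (S (∑ b ∈ range (m + 1), V b (U b))) =
      ∑ a ∈ range (m + 1), ∑ b ∈ range (m + 1), Y a ((W a * S * V b) (U b)) := by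
    rw [_root_.sum_apply]
    refine sum_congr rfl fun a _ => ?_
    rw [map_sum, map_sum]
    rfl
  have hsplit : ∀ a ∈ range (m + 1), ∀ b ∈ range (m + 1), ‖Y a ((W a * S * V b) (U b)) -
      (if b = a then Y a (B (U a)) else 0)‖ ≤ δ / w * ‖S‖ * (‖Y a‖ * ‖U b‖) := by
    intro a ha b hb
    have ha' := mem_range.1 ha
    have hb' := mem_range.1 hb
    by_cases hab : b = a
    · subst hab
      rw [if_pos rfl, h2 b (by omega), sub_self, norm_zero]
      positivity
    · rw [if_neg hab, sub_zero]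
      obtain ⟨a', ha2, b', hb2, c, hc, hc2⟩ := h3 a (by omega) b (by omega) (Ne.symm hab)
      rw [hc2]
      calc ‖Y a ((c • (W a' * S * V b')) (U b))‖ ≤ ‖Y a‖ * ‖(c • (W a' * S * V b')) (U b)‖ :=
            (Y a).le_opNorm _
        _ ≤ ‖Y a‖ * (δ / w * ‖S‖ * ‖U b‖) := by
            refine mul_le_mul_of_nonneg_left ?_ (norm_nonneg _)
            refine ContinuousLinearMap.le_of_opNorm_le _ ?_ _
            rw [norm_smul]
            exact mul_le_mul hc (hBn a' ha2 b' hb2) (norm_nonneg _) (by positivity)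
        _ = _ := by ring
  have hdiag : ∑ a ∈ range (m + 1), ∑ b ∈ range (m + 1), (if b = a then Y a (B (U a)) else 0) =
      ∑ a ∈ range (m + 1), Y a (B (U a)) := by
    refine sum_congr rfl fun a ha => ?_
    rw [sum_ite_eq' , if_pos ha]
  rw [hsum]
  have e1 : ∑ a ∈ range (m + 1), ∑ b ∈ range (m + 1), Y a ((W a * S * V b) (U b)) =
      ∑ a ∈ range (m + 1), ∑ b ∈ range (m + 1), (Y a ((W a * S * V b) (U b)) -
        (if b = a then Y a (B (U a)) else 0)) + ∑ a ∈ range (m + 1), Y a (B (U a)) := by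
    rw [← hdiag, ← sum_add_distrib]
    refine sum_congr rfl fun a _ => ?_
    rw [← sum_add_distrib]
    refine sum_congr rfl fun b _ => ?_
    rw [sub_add_cancel]
  rw [e1]
  have b1 : ‖∑ a ∈ range (m + 1), ∑ b ∈ range (m + 1), (Y a ((W a * S * V b) (U b)) -
      (if b = a then Y a (B (U a)) else 0))‖ ≤
      ∑ a ∈ range (m + 1), ∑ b ∈ range (m + 1), δ / w * ‖S‖ * (‖Y a‖ * ‖U b‖) := by
    refine (norm_sum_le _ _).trans (sum_le_sum fun a ha => ?_)
    exact (norm_sum_le _ _).trans (sum_le_sum fun b hb => hsplit a ha b hb)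
  have b2 : ‖∑ a ∈ range (m + 1), Y a (B (U a))‖ ≤ η * ‖S‖ := by
    refine (hη B hBC).trans (mul_le_mul_of_nonneg_left ?_ hη0)
    exact hBn 0 (by omega) 0 (by omega)
  refine (norm_add_le _ _).trans ((add_le_add b1 b2).trans (le_of_eq ?_))
  simp_rw [← mul_sum]
  ring

end Pool.Agent.J6H45.TV
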