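import Pool.Agent.J6H45.TV.C

/-!
# The density step
-/

set_option autoImplicit false
open Filter Topology Finset Polynomial Pool.Agent.Y280

namespace Pool.Agent.J6H45.TV

variable {X : Type*} [NormedAddCommGroup X] [NormedSpace ℂ X]

/-- The approximation property of a set of operators which is used. -/
def Stp (p : ℝ) (𝒲 : Set (X →L[ℂ] X)) : Prop :=
  ∀ T ∈ 𝒲, ∀ (E : Finset X) (G : Finset (StrongDual ℂ X)) (ε : ℝ), 0 < ε →
    ∃ (A P : X →L[ℂ] X) (w : ℝ) (χ : ℂ[X]), A ∈ 𝒲 ∧ 0 < w ∧ aeval A χ = 0 ∧ χ.Separable ∧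
      P * A = A ∧ A * P = A ∧ ‖A‖ ≤ 1 ∧
      (∀ x ∈ E, ‖A x - T x‖ ≤ ε ∧ ‖P x - x‖ ≤ ε) ∧
      (∀ g ∈ G, ‖g.comp A - g.comp T‖ ≤ ε ∧ ‖g.comp P - g‖ ≤ ε) ∧
      ∀ (m : ℕ) (E' : Finset X) (G' : Finset (StrongDual ℂ X)) (ε' : ℝ), 0 < ε' →
        ∃ V W : ℕ → X →L[ℂ] X, Copies p P (m + 1) V W ∧
          (∀ x ∈ E', ∀ k, 1 ≤ k → k ≤ m + 1 → ‖W k x‖ ≤ ε') ∧
          (∀ g ∈ G', ∀ k, 1 ≤ k → k ≤ m + 1 → ‖g.comp (V k)‖ ≤ ε') ∧
          ∀ δ : ℝ, 0 < δ → δ ≤ w → TT A m δ w V W ∈ 𝒲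

/-- A parametrisation of `𝒲` with the strong* topology. -/
structure BW {Ω : Type*} [TopologicalSpace Ω] (Φ : Ω → X →L[ℂ] X) (𝒲 : Set (X →L[ℂ] X)) :
    Prop where
  surj : ∀ T ∈ 𝒲, ∃ w, Φ w = T
  mem : ∀ w, Φ w ∈ 𝒲
  cx : ∀ x, Continuous fun w => Φ w x
  cy : ∀ y : StrongDual ℂ X, Continuous fun w => y.comp (Φ w)
  nhd : ∀ (w : Ω) (O : Set Ω), IsOpen O → w ∈ O → ∃ (E : Finset X)
    (G : Finset (StrongDual ℂ X)) (ε : ℝ), 0 < ε ∧ ∀ w', (∀ x ∈ E, ‖Φ w' x - Φ w x‖ < ε) →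
      (∀ y ∈ G, ‖y.comp (Φ w') - y.comp (Φ w)‖ < ε) → w' ∈ O

variable {p q : ℝ} {P A : X →L[ℂ] X} {m : ℕ} {V W : ℕ → X →L[ℂ] X}

lemma Copies.sumV {n : ℕ} (h : Copies p P n V W) (hp : 0 < p) (z : ℕ → X) {ρ : ℝ}
    (hz : ∑ k ∈ range (n + 1), ‖z k‖ ^ p ≤ ρ) :
    ‖∑ k ∈ range (n + 1), V k (z k)‖ ≤ ρ ^ (1 / p) := by
  have h1 := (h.normV z).trans hz
  have h2 := Real.rpow_le_rpow (by positivity) h1 (show 0 ≤ 1 / p by positivity)
  rwa [← Real.rpow_mul (norm_nonneg _), mul_one_div_cancel hp.ne', Real.rpow_one] at h2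

lemma Copies.sumW {n : ℕ} (h : Copies p P n V W) (hpq : p.HolderConjugate q)
    (z : ℕ → StrongDual ℂ X) {ρ : ℝ} (hz : ∑ k ∈ range (n + 1), ‖z k‖ ^ q ≤ ρ) :
    ‖∑ k ∈ range (n + 1), (z k).comp (W k)‖ ≤ ρ ^ (1 / q) := by
  have hp := hpq.pos
  have hq := hpq.symm.pos
  have hρ : 0 ≤ ρ := le_trans (sum_nonneg fun _ _ => by positivity) hz
  refine ContinuousLinearMap.opNorm_le_bound _ (by positivity) fun x => ?_
  rw [_root_.sum_apply]
  have h1 : ‖∑ k ∈ range (n + 1), ((z k).comp (W k)) x‖ ≤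
      ∑ k ∈ range (n + 1), ‖z k‖ * ‖W k x‖ :=
    (norm_sum_le _ _).trans (sum_le_sum fun k _ => (z k).le_opNorm _)
  refine h1.trans ?_
  have h2 := Real.inner_le_Lp_mul_Lq (range (n + 1)) (fun k => ‖z k‖) (fun k => ‖W k x‖) hpq.symm
  simp only [abs_norm] at h2
  refine h2.trans (mul_le_mul ?_ ?_ (by positivity) (by positivity))
  · exact Real.rpow_le_rpow (sum_nonneg fun _ _ => by positivity) hz (by positivity)
  · have h4 := Real.rpow_le_rpow (sum_nonneg fun i _ => by positivity) (h.normW x)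
      (show 0 ≤ 1 / p by positivity)
    rwa [← Real.rpow_mul (norm_nonneg _), mul_one_div_cancel hp.ne', Real.rpow_one] at h4

lemma norm_wt_le {m : ℕ} {δ w : ℝ} (hδ : 0 < δ) (hw : δ ≤ w) (k : ℕ) : ‖wt m δ w k‖ ≤ w := by
  unfold wt
  split_ifs
  · rw [Complex.norm_real, Real.norm_of_nonneg hδ.le]; exact hw
  · rw [Complex.norm_real, Real.norm_of_nonneg (by linarith)]

/-- `TT` is close to `A` at a vector. -/
lemma TT_close_x (hp : 0 < p) (h : Copies p P (m + 1) V W) (hPA : P * A = A) (hAP : A * P = A)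
    (hA : ‖A‖ ≤ 1) (hm : 1 ≤ m) {δ w : ℝ} (hδ : 0 < δ) (hw : δ ≤ w) {x : X} {ε : ℝ}
    (hx : ∀ k, 1 ≤ k → k ≤ m + 1 → ‖W k x‖ ≤ ε) :
    ‖TT A m δ w V W x - A x‖ ≤ (m + 1) * (1 + w) * ε + δ * ‖x‖ := by
  have hε : 0 ≤ ε := (norm_nonneg _).trans (hx 1 le_rfl (by omega))
  have hw0 : 0 ≤ w := by linarith
  have hAPA : V 0 * A * W 0 = A := by rw [h.V0, h.W0, hPA, hAP]
  have e1 : TT A m δ w V W x - A x = ∑ k ∈ range (m + 1), V (k + 1) (A (W (k + 1) x)) +
      (∑ k ∈ range m, wt m δ w (k + 1) • V (k + 2) (W (k + 1) x) +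
        wt m δ w 0 • V 1 (W 0 x)) := by
    unfold TT
    rw [_root_.add_apply, _root_.sum_apply, _root_.sum_apply,
      sum_range_succ' (fun k => (V k * A * W k) x) (m + 1),
      sum_range_succ' (fun k => (wt m δ w k • (V (k + 1) * W k)) x) m, hAPA]
    have c1 : ∑ k ∈ range (m + 1), (V (k + 1) * A * W (k + 1)) x =
        ∑ k ∈ range (m + 1), V (k + 1) (A (W (k + 1) x)) := rfl
    have c2 : ∑ k ∈ range m, (wt m δ w (k + 1) • (V (k + 1 + 1) * W (k + 1))) x =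
        ∑ k ∈ range m, wt m δ w (k + 1) • V (k + 2) (W (k + 1) x) := rfl
    have c3 : (wt m δ w 0 • (V (0 + 1) * W 0)) x = wt m δ w 0 • V 1 (W 0 x) := rfl
    rw [c1, c2, c3]
    abel
  rw [e1]
  have b1 : ‖∑ k ∈ range (m + 1), V (k + 1) (A (W (k + 1) x))‖ ≤ (m + 1) * ε := by
    refine (norm_sum_le _ _).trans ((sum_le_sum (g := fun _ => ε) fun k hk => ?_).trans ?_)
    · have hk' := mem_range.1 hk
      refine ((V (k + 1)).le_of_opNorm_le (h.norm_V hp (by omega)) _).trans ?_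
      rw [one_mul]
      refine (A.le_of_opNorm_le hA _).trans ?_
      rw [one_mul]
      exact hx (k + 1) (by omega) (by omega)
    · rw [sum_const, card_range, nsmul_eq_mul]
      push_cast
      exact le_rfl
  have b2 : ‖∑ k ∈ range m, wt m δ w (k + 1) • V (k + 2) (W (k + 1) x)‖ ≤ m * (w * ε) := by
    refine (norm_sum_le _ _).trans ((sum_le_sum (g := fun _ => w * ε) fun k hk => ?_).trans ?_)
    · have hk' := mem_range.1 hk
      rw [norm_smul]
      refine mul_le_mul (norm_wt_le hδ hw _) ?_ (norm_nonneg _) hw0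
      refine ((V (k + 2)).le_of_opNorm_le (h.norm_V hp (by omega)) _).trans ?_
      rw [one_mul]
      exact hx (k + 1) (by omega) (by omega)
    · rw [sum_const, card_range, nsmul_eq_mul]
  have b3 : ‖wt m δ w 0 • V 1 (W 0 x)‖ ≤ δ * ‖x‖ := by
    have e2 : wt m δ w 0 = (δ : ℂ) := by unfold wt; rw [if_pos (by omega)]
    rw [e2, norm_smul, Complex.norm_real, Real.norm_of_nonneg hδ.le]
    refine mul_le_mul_of_nonneg_left ?_ hδ.le
    refine ((V 1).le_of_opNorm_le (h.norm_V hp (by omega)) _).trans ?_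
    rw [one_mul]
    refine ((W 0).le_of_opNorm_le (h.norm_W hp (by omega)) _).trans ?_
    rw [one_mul]
  have b4 := norm_add_le (∑ k ∈ range (m + 1), V (k + 1) (A (W (k + 1) x)))
    (∑ k ∈ range m, wt m δ w (k + 1) • V (k + 2) (W (k + 1) x) + wt m δ w 0 • V 1 (W 0 x))
  have b5 := norm_add_le (∑ k ∈ range m, wt m δ w (k + 1) • V (k + 2) (W (k + 1) x))
    (wt m δ w 0 • V 1 (W 0 x))
  have b6 : (m : ℝ) * (w * ε) ≤ (m + 1) * (w * ε) := by
    have : 0 ≤ w * ε := mul_nonneg hw0 hε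
    nlinarith
  nlinarith

/-- `TT` is close to `A` at a functional. -/
lemma TT_close_g (hp : 0 < p) (h : Copies p P (m + 1) V W) (hPA : P * A = A) (hAP : A * P = A)
    (hA : ‖A‖ ≤ 1) {δ w : ℝ} (hδ : 0 < δ) (hw : δ ≤ w) {g : StrongDual ℂ X} {ε : ℝ}
    (hg : ∀ k, 1 ≤ k → k ≤ m + 1 → ‖g.comp (V k)‖ ≤ ε) :
    ‖g.comp (TT A m δ w V W) - g.comp A‖ ≤ (m + 1) * (1 + w) * ε := by
  have hε : 0 ≤ ε := (norm_nonneg _).trans (hg 1 le_rfl (by omega))
  have hw0 : 0 ≤ w := by linarith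
  have hAPA : V 0 * A * W 0 = A := by rw [h.V0, h.W0, hPA, hAP]
  have e1 : g.comp (TT A m δ w V W) - g.comp A =
      ∑ k ∈ range (m + 1), ((g.comp (V (k + 1))).comp A).comp (W (k + 1)) +
      ∑ k ∈ range (m + 1), wt m δ w k • (g.comp (V (k + 1))).comp (W k) := by
    ext x
    unfold TT
    rw [_root_.sub_apply, ContinuousLinearMap.comp_apply, ContinuousLinearMap.comp_apply,
      _root_.add_apply, _root_.sum_apply, _root_.sum_apply, sum_range_succ', hAPA]
    simp only [_root_.smul_apply, mul_apply_eq_comp, _root_.add_apply, _root_.sum_apply,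
      ContinuousLinearMap.comp_apply, map_add, map_sum, map_smul]
    abel
  rw [e1]
  have hW : ∀ k ≤ m + 1, ‖W k‖ ≤ 1 := fun k hk => h.norm_W hp hk
  have b1 : ‖∑ k ∈ range (m + 1), ((g.comp (V (k + 1))).comp A).comp (W (k + 1))‖ ≤
      (m + 1) * ε := by
    refine (norm_sum_le _ _).trans ((sum_le_sum (g := fun _ => ε) fun k hk => ?_).trans ?_)
    · have hk' := mem_range.1 hk
      refine (ContinuousLinearMap.opNorm_comp_le _ _).trans ?_
      refine (mul_le_mul (ContinuousLinearMap.opNorm_comp_le _ _) (hW (k + 1) (by omega))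
        (norm_nonneg _) (by positivity)).trans ?_
      rw [mul_one]
      calc ‖g.comp (V (k + 1))‖ * ‖A‖ ≤ ε * 1 :=
            mul_le_mul (hg (k + 1) (by omega) (by omega)) hA (norm_nonneg _) hε
        _ = ε := mul_one _
    · rw [sum_const, card_range, nsmul_eq_mul]
      push_cast
      exact le_rfl
  have b2 : ‖∑ k ∈ range (m + 1), wt m δ w k • (g.comp (V (k + 1))).comp (W k)‖ ≤
      (m + 1) * (w * ε) := by
    refine (norm_sum_le _ _).trans ((sum_le_sum (g := fun _ => w * ε) fun k hk => ?_).trans ?_)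
    · have hk' := mem_range.1 hk
      rw [norm_smul]
      refine mul_le_mul (norm_wt_le hδ hw _) ?_ (norm_nonneg _) hw0
      refine (ContinuousLinearMap.opNorm_comp_le _ _).trans ?_
      calc ‖g.comp (V (k + 1))‖ * ‖W k‖ ≤ ε * 1 :=
            mul_le_mul (hg (k + 1) (by omega) (by omega)) (hW k (by omega)) (norm_nonneg _) hε
        _ = ε := mul_one _
    · rw [sum_const, card_range, nsmul_eq_mul]
      push_cast
      exact le_rfl
  refine (norm_add_le _ _).trans ((add_le_add b1 b2).trans (le_of_eq ?_))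
  ring

lemma exists_bound {α : Type*} [SeminormedAddCommGroup α] (E : Finset α) :
    ∃ M : ℝ, 0 < M ∧ ∀ x ∈ E, ‖x‖ ≤ M :=
  ⟨∑ x ∈ E, ‖x‖ + 1, by positivity, fun x hx => by
    have := single_le_sum (f := fun x : α => ‖x‖) (fun _ _ => norm_nonneg _) hx
    linarith⟩

/-- **The density step.** -/
theorem dens_step (hX : Reflexive X) (hpq : p.HolderConjugate q) {Ω : Type*} [TopologicalSpace Ω]
    {Φ : Ω → X →L[ℂ] X} {𝒲 : Set (X →L[ℂ] X)} (hB : BW Φ 𝒲) (hst : Stp p 𝒲) {x : X}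
    {y : StrongDual ℂ X} {ρ : ℝ} {O : Set Ω} (hO : IsOpen O) {w0 : Ω}
    (hw0 : w0 ∈ O) (hw0' : w0 ∈ OS Φ x y ρ) (d : X) {η : ℝ} (hη : 0 < η) :
    ∃ w2 ∈ O, ∃ (x' : X) (y' : StrongDual ℂ X), ‖x' - x‖ ≤ ρ ^ (1 / p) + η ∧
      ‖y' - y‖ ≤ ρ ^ (1 / q) + η ∧ ‖y' d - y d‖ ≤ η ∧ w2 ∈ OS Φ x' y' η := by
  classical
  have hp := hpq.pos
  have hq := hpq.symm.pos
  have hopen := isOpen_OS hX Φ hB.cx hB.cy x y ρ
  obtain ⟨E, G, ε, hε, hnear⟩ := hB.nhd w0 (O ∩ OS Φ x y ρ) (hO.inter hopen) ⟨hw0, hw0'⟩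
  set ε1 : ℝ := min (ε / 2) (η / (2 * (1 + ‖d‖))) with hε1
  have hε10 : 0 < ε1 := lt_min (by positivity) (by positivity)
  have hε1ε : ε1 < ε := lt_of_le_of_lt (min_le_left _ _) (by linarith)
  have hε1η : ε1 ≤ η / 2 := by
    refine (min_le_right _ _).trans ?_
    rw [div_le_div_iff₀ (by positivity) (by positivity)]
    nlinarith [norm_nonneg d]
  have hε1d : ε1 * ‖d‖ ≤ η / 2 := by
    have h1 : ε1 ≤ η / (2 * (1 + ‖d‖)) := min_le_right _ _
    rw [le_div_iff₀ (by positivity)] at h1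
    nlinarith [norm_nonneg d]
  obtain ⟨A, P, w, χ, hAW, hw, hχ, hs, hPA, hAP, hA1, hE, hG, hcop⟩ :=
    hst (Φ w0) (hB.mem w0) (insert x E) (insert y G) ε1 hε10
  obtain ⟨w1, hw1⟩ := hB.surj A hAW
  have hw1O : w1 ∈ O ∩ OS Φ x y ρ := by
    apply hnear
    · intro z hz
      rw [hw1]
      exact ((hE z (mem_insert_of_mem hz)).1).trans_lt hε1ε
    · intro g hg
      rw [hw1]
      exact ((hG g (mem_insert_of_mem hg)).1).trans_lt hε1ε
  obtain ⟨hw1O, ρ', hρ'0, hρ', hHN⟩ := hw1O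
  rw [hw1] at hHN
  set ρ1 : ℝ := (ρ' + ρ) / 2 with hρ1
  have hρ10 : 0 < ρ1 := by rw [hρ1]; linarith
  have hρ1' : ρ' ≤ ρ1 := by rw [hρ1]; linarith
  have hρ1ρ : ρ1 ≤ ρ := by rw [hρ1]; linarith
  obtain ⟨n, u, v, hu, hv, huv⟩ := rep hX hpq A P hρ10 (x := x) (y := y)
    (fun S hS => (hHN S hS.1).trans (mul_le_mul_of_nonneg_right hρ1' (norm_nonneg _)))
    (show 0 < η / 4 by positivity)
  obtain ⟨E2, G2, ε2, hε2, hnear2⟩ := hB.nhd w1 O hO hw1O
  obtain ⟨M, hM0, hM⟩ := exists_bound E2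
  -- the vectors and functionals on the copies
  set m := n + 1 with hm
  set z : ℕ → X := fun k => if k = 0 then 0 else if k ≤ n then u (k - 1) else 0 with hz
  set ζ : ℕ → StrongDual ℂ X := fun k => if k = 0 then 0 else if k ≤ n then -v (k - 1) else 0
    with hζ
  have hz0 : z 0 = 0 := by simp [hz]
  have hζ0 : ζ 0 = 0 := by simp [hζ]
  have hzs : ∀ k, z (k + 1) = if k < n then u k else 0 := by
    intro k
    simp only [hz]
    rw [if_neg (by omega)]
    by_cases hk : k < n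
    · rw [if_pos (by omega), if_pos hk, Nat.add_sub_cancel]
    · rw [if_neg (by omega), if_neg hk]
  have hζs : ∀ k, ζ (k + 1) = if k < n then -v k else 0 := by
    intro k
    simp only [hζ]
    rw [if_neg (by omega)]
    by_cases hk : k < n
    · rw [if_pos (by omega), if_pos hk, Nat.add_sub_cancel]
    · rw [if_neg (by omega), if_neg hk]
  have hzp : ∑ k ∈ range (m + 1 + 1), ‖z k‖ ^ p ≤ ρ := by
    rw [sum_range_succ', hz0, norm_zero, Real.zero_rpow hp.ne', add_zero, hm, sum_range_succ,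
      sum_range_succ, hzs, hzs, if_neg (by omega), if_neg (by omega), norm_zero,
      Real.zero_rpow hp.ne', add_zero, add_zero]
    refine le_trans (le_of_eq (sum_congr rfl fun k hk => ?_)) (hu.trans hρ1ρ)
    rw [hzs, if_pos (mem_range.1 hk)]
  have hζq : ∑ k ∈ range (m + 1 + 1), ‖ζ k‖ ^ q ≤ ρ := by
    rw [sum_range_succ', hζ0, norm_zero, Real.zero_rpow hq.ne', add_zero, hm, sum_range_succ,
      sum_range_succ, hζs, hζs, if_neg (by omega), if_neg (by omega), norm_zero,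
      Real.zero_rpow hq.ne', add_zero, add_zero]
    refine le_trans (le_of_eq (sum_congr rfl fun k hk => ?_)) (hv.trans hρ1ρ)
    rw [hζs, if_pos (mem_range.1 hk), norm_neg]
  set U : ℕ → X := fun k => if k = 0 then x else z k with hU
  set Y : ℕ → StrongDual ℂ X := fun k => if k = 0 then y else ζ k with hY
  have hrepU : ∀ S ∈ CM A P, ‖∑ a ∈ range (m + 1), Y a (S (U a))‖ ≤ η / 4 * ‖S‖ := by
    intro S hS
    refine le_trans (le_of_eq ?_) (huv S hS)
    congr 1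
    rw [sum_range_succ', hm, sum_range_succ]
    have e0 : Y 0 (S (U 0)) = y (S x) := by simp [hY, hU]
    have e1 : Y (n + 1) (S (U (n + 1))) = 0 := by
      simp only [hY, hU]
      rw [if_neg (by omega), hζs, if_neg (by omega)]
      rfl
    have e2 : ∑ a ∈ range n, Y (a + 1) (S (U (a + 1))) = - ∑ a ∈ range n, v a (S (u a)) := by
      rw [← sum_neg_distrib]
      refine sum_congr rfl fun a ha => ?_
      have ha' := mem_range.1 ha
      simp only [hY, hU]
      rw [if_neg (by omega), if_neg (by omega), hζs, hzs, if_pos ha', if_pos ha']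
      rfl
    rw [e0, e1, e2]
    ring
  set CC : ℝ := ∑ a ∈ range (m + 1), ∑ b ∈ range (m + 1), ‖Y a‖ * ‖U b‖ with hCC
  have hCC0 : 0 ≤ CC := sum_nonneg fun _ _ => sum_nonneg fun _ _ => by positivity
  set ZZ : ℝ := ∑ k ∈ range (m + 1 + 1), ‖ζ k‖ with hZZ
  have hZZ0 : 0 ≤ ZZ := sum_nonneg fun _ _ => norm_nonneg _
  set δ : ℝ := min w (min (ε2 / (4 * M)) (η * w / (4 * (CC + 1)))) with hδ
  have hδ0 : 0 < δ := lt_min hw (lt_min (by positivity) (by positivity))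
  have hδw : δ ≤ w := min_le_left _ _
  have hδM : δ * M ≤ ε2 / 4 := by
    have h1 : δ ≤ ε2 / (4 * M) := (min_le_right _ _).trans (min_le_left _ _)
    rw [le_div_iff₀ (by positivity)] at h1
    linarith
  have hδC : δ / w * CC ≤ η / 4 := by
    have h1 : δ ≤ η * w / (4 * (CC + 1)) := (min_le_right _ _).trans (min_le_right _ _)
    rw [le_div_iff₀ (by positivity)] at h1
    rw [div_mul_eq_mul_div, div_le_iff₀ hw]
    nlinarith
  set ε' : ℝ := min (ε2 / (4 * ((m + 1) * (1 + w)))) (η / (2 * (ZZ + 1))) with hε'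
  have hε'0 : 0 < ε' := lt_min (by positivity) (by positivity)
  have hε'1 : (m + 1) * (1 + w) * ε' ≤ ε2 / 4 := by
    have h1 : ε' ≤ ε2 / (4 * ((m + 1) * (1 + w))) := min_le_left _ _
    rw [le_div_iff₀ (by positivity)] at h1
    linarith
  have hε'2 : ZZ * ε' ≤ η / 2 := by
    have h1 : ε' ≤ η / (2 * (ZZ + 1)) := min_le_right _ _
    rw [le_div_iff₀ (by positivity)] at h1
    nlinarith
  obtain ⟨V, W, hVW, hWE, hVG, hTT⟩ := hcop m (insert d E2) G2 ε' hε'0
  obtain ⟨w2, hw2⟩ := hB.surj _ (hTT δ hδ0 hδw)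
  have hx' : ∑ b ∈ range (m + 1), V b (U b) = P x + ∑ k ∈ range (m + 1 + 1), V k (z k) := by
    rw [sum_range_succ' (fun k => V k (z k)), hz0, map_zero, add_zero, sum_range_succ', add_comm]
    congr 1
    · simp [hU, hVW.V0]
    · rw [sum_range_succ (fun k => V (k + 1) (z (k + 1))) m]
      have : z (m + 1) = 0 := by rw [hzs, if_neg (by omega)]
      rw [this, map_zero, add_zero]
      refine sum_congr rfl fun k _ => ?_
      simp only [hU]
      rw [if_neg (by omega)]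
  have hy' : ∑ a ∈ range (m + 1), (Y a).comp (W a) =
      y.comp P + ∑ k ∈ range (m + 1 + 1), (ζ k).comp (W k) := by
    rw [sum_range_succ' (fun k => (ζ k).comp (W k)), hζ0, ContinuousLinearMap.zero_comp, add_zero,
      sum_range_succ', add_comm]
    congr 1
    · simp [hY, hVW.W0]
    · rw [sum_range_succ (fun k => (ζ (k + 1)).comp (W (k + 1))) m]
      have : ζ (m + 1) = 0 := by rw [hζs, if_neg (by omega)]
      rw [this, ContinuousLinearMap.zero_comp, add_zero]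
      refine sum_congr rfl fun k _ => ?_
      simp only [hY]
      rw [if_neg (by omega)]
  refine ⟨w2, ?_, ∑ b ∈ range (m + 1), V b (U b), ∑ a ∈ range (m + 1), (Y a).comp (W a), ?_, ?_,
    ?_, ?_⟩
  · apply hnear2
    · intro e he
      rw [hw1, hw2]
      refine (TT_close_x hp hVW hPA hAP hA1 (by omega) hδ0 hδw
        (fun k hk1 hk2 => hWE e (mem_insert_of_mem he) k hk1 hk2)).trans_lt ?_
      have := mul_le_mul_of_nonneg_left (hM e he) hδ0.le
      linarith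
    · intro g hg
      rw [hw1, hw2]
      refine (TT_close_g hp hVW hPA hAP hA1 hδ0 hδw
        (fun k hk1 hk2 => hVG g hg k hk1 hk2)).trans_lt ?_
      linarith
  · rw [hx']
    have e1 : P x + ∑ k ∈ range (m + 1 + 1), V k (z k) - x =
        ∑ k ∈ range (m + 1 + 1), V k (z k) + (P x - x) := by abel
    rw [e1]
    refine (norm_add_le _ _).trans (add_le_add (hVW.sumV hp z hzp) ?_)
    exact ((hE x (mem_insert_self _ _)).2).trans (by linarith)
  · rw [hy']
    have e1 : y.comp P + ∑ k ∈ range (m + 1 + 1), (ζ k).comp (W k) - y =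
        ∑ k ∈ range (m + 1 + 1), (ζ k).comp (W k) + (y.comp P - y) := by abel
    rw [e1]
    refine (norm_add_le _ _).trans (add_le_add (hVW.sumW hpq ζ hζq) ?_)
    exact ((hG y (mem_insert_self _ _)).2).trans (by linarith)
  · rw [hy']
    have e1 : (y.comp P + ∑ k ∈ range (m + 1 + 1), (ζ k).comp (W k)) d - y d =
        (y.comp P - y) d + ∑ k ∈ range (m + 1 + 1), ζ k (W k d) := by
      rw [_root_.add_apply, _root_.sub_apply, _root_.sum_apply]
      simp only [ContinuousLinearMap.comp_apply]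
      ring
    rw [e1]
    have b1 : ‖(y.comp P - y) d‖ ≤ η / 2 := by
      refine ((y.comp P - y).le_opNorm d).trans (le_trans ?_ hε1d)
      exact mul_le_mul_of_nonneg_right (hG y (mem_insert_self _ _)).2 (norm_nonneg _)
    have b2 : ‖∑ k ∈ range (m + 1 + 1), ζ k (W k d)‖ ≤ ZZ * ε' := by
      rw [hZZ, sum_mul]
      refine (norm_sum_le _ _).trans (sum_le_sum fun k hk => ?_)
      rcases Nat.eq_zero_or_pos k with rfl | hk0
      · rw [hζ0]; simp
      · refine ((ζ k).le_opNorm _).trans (mul_le_mul_of_nonneg_left ?_ (norm_nonneg _))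
        exact hWE d (mem_insert_self _ _) k hk0 (by have := mem_range.1 hk; omega)
    refine (norm_add_le _ _).trans ?_
    linarith
  · refine ⟨η / 4 + δ / w * CC, by positivity, by linarith, fun S hS => ?_⟩
    rw [hw2] at hS
    exact main_est hp hVW hPA hAP hχ hs hδ0 hw U Y hrepU (by positivity) hS

end Pool.Agent.J6H45.TV
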