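import Pool.Agent.J6H45.TV.E

/-!
# Near every operator of finite rank there is one with a separable annihilating polynomial
-/

set_option autoImplicit false
open Finset Filter Topology Polynomial Pool.Agent.Y280

namespace Pool.Agent.J6H45.TV

lemma sep_scale {f : ℂ[X]} (hf : f.Separable) {s c : ℂ} (hs : s ≠ 0) :
    (f.comp (C s * X + C c)).Separable := by
  obtain ⟨a, b, hab⟩ := hf
  refine ⟨a.comp (C s * X + C c), C s⁻¹ * b.comp (C s * X + C c), ?_⟩
  have h1 := congrArg (fun g : ℂ[X] => g.comp (C s * X + C c)) hab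
  simp only [add_comp, mul_comp, one_comp] at h1
  rw [← h1, derivative_comp]
  congr 1
  have e : derivative (C s * X + C c) = C s := by simp
  have e2 : C s⁻¹ * C s = 1 := by rw [← C_mul, inv_mul_cancel₀ hs, C_1]
  rw [e]
  linear_combination (comp b (C s * X + C c) * comp (derivative f) (C s * X + C c)) * e2

/-- Near every matrix there is one with a separable annihilating polynomial that does not vanish at
zero; the difference is a small diagonal matrix. -/
lemma exists_diag {N : ℕ} (M : Matrix (Fin N) (Fin N) ℂ) {τ : ℝ} (hτ : 0 < τ) :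
    ∃ (D : Fin N → ℂ) (χ : ℂ[X]), (∀ i, ‖D i‖ ≤ τ) ∧ aeval (M + Matrix.diagonal D) χ = 0 ∧
      χ.Separable ∧ χ.coeff 0 ≠ 0 := by
  obtain ⟨s, hs, hs'⟩ := exists_large_sep M (2 * ((N : ℝ) + 1) / τ)
  have hs0 : 0 < s := lt_trans (by positivity) hs
  have hsC : (s : ℂ) ≠ 0 := by exact_mod_cast hs0.ne'
  set χ₀ : ℂ[X] := ((Matrix.diagonal fun i : Fin N => ((i : ℕ) : ℂ)) + (s : ℂ) • M).charpoly with hχ₀
  have hne : χ₀ ≠ 0 := (Matrix.charpoly_monic _).ne_zero
  obtain ⟨c, hc0, hc1, hc⟩ : ∃ c : ℝ, 0 < c ∧ c ≤ τ / 2 ∧ χ₀.eval (-(s : ℂ) * c) ≠ 0 := by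
    by_contra hcon
    push Not at hcon
    apply hne
    apply Polynomial.eq_zero_of_infinite_isRoot
    refine Set.infinite_of_injective_forall_mem
      (f := fun n : ℕ => -(s : ℂ) * ((τ / 2 / ((n : ℝ) + 1) : ℝ) : ℂ)) ?_ ?_
    · intro a b hab
      have h1 : ((τ / 2 / ((a : ℝ) + 1) : ℝ) : ℂ) = ((τ / 2 / ((b : ℝ) + 1) : ℝ) : ℂ) :=
        mul_left_cancel₀ (neg_ne_zero.2 hsC) hab
      have h2 : τ / 2 / ((a : ℝ) + 1) = τ / 2 / ((b : ℝ) + 1) := Complex.ofReal_injective h1
      have h3 : (a : ℝ) + 1 = b + 1 := by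
        field_simp at h2
        linarith
      exact_mod_cast add_right_cancel h3
    · intro n
      refine hcon _ (by positivity) ?_
      refine div_le_self (by positivity) ?_
      have : (0 : ℝ) ≤ n := Nat.cast_nonneg n
      linarith
  refine ⟨fun i => (s : ℂ)⁻¹ * ((i : ℕ) : ℂ) + c, χ₀.comp (C (s : ℂ) * X + C (-(s : ℂ) * c)), ?_, ?_,
    sep_scale hs' hsC, ?_⟩
  · intro i
    refine (norm_add_le _ _).trans ?_
    rw [norm_mul, norm_inv, Complex.norm_real, Complex.norm_real, Complex.norm_natCast,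
      Real.norm_of_nonneg hs0.le, Real.norm_of_nonneg hc0.le]
    have h1 : s⁻¹ * ((i : ℕ) : ℝ) ≤ τ / 2 := by
      rw [inv_mul_le_iff₀ hs0]
      rw [div_lt_iff₀ hτ] at hs
      have h2 : ((i : ℕ) : ℝ) ≤ N := by exact_mod_cast i.2.le
      nlinarith
    linarith
  · rw [aeval_comp]
    have e : aeval (M + Matrix.diagonal fun i : Fin N => (s : ℂ)⁻¹ * ((i : ℕ) : ℂ) + c)
        (C (s : ℂ) * X + C (-(s : ℂ) * c)) =
        (Matrix.diagonal fun i : Fin N => ((i : ℕ) : ℂ)) + (s : ℂ) • M := by
      rw [map_add, map_mul, aeval_X, aeval_C, aeval_C, Algebra.algebraMap_eq_smul_one,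
        Algebra.algebraMap_eq_smul_one, smul_mul_assoc, one_mul]
      ext i j
      simp only [Matrix.add_apply, Matrix.smul_apply, Matrix.diagonal_apply, Matrix.one_apply,
        smul_eq_mul]
      split_ifs
      · field_simp
        ring
      · ring
    rw [e]
    exact Matrix.aeval_self_charpoly _
  · rw [coeff_zero_eq_eval_zero, eval_comp]
    simpa using hc

variable {E : Type*} [NormedAddCommGroup E] [NormedSpace ℂ E]

/-- Near every operator of finite rank there is one with a separable annihilating polynomial. -/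
theorem exists_sep_op (A P : E →L[ℂ] E) (hPP : P * P = P) (hPA : P * A = A) (hAP : A * P = A)
    [FiniteDimensional ℂ (LinearMap.range (A : E →ₗ[ℂ] E))] {τ : ℝ} (hτ : 0 < τ) :
    ∃ (B : E →L[ℂ] E) (χ : ℂ[X]), ‖B - A‖ ≤ τ ∧ P * B = B ∧ B * P = B ∧ aeval B χ = 0 ∧
      χ.Separable := by
  classical
  set R : Submodule ℂ E := LinearMap.range (A : E →ₗ[ℂ] E) with hR
  set N := Module.finrank ℂ R with hN
  let b := Module.finBasis ℂ R
  -- the coordinates of `A`
  let f : Fin N → (E →L[ℂ] ℂ) := fun i =>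
    (LinearMap.toContinuousLinearMap (b.coord i)).comp
      (A.codRestrict R fun x => ⟨x, rfl⟩)
  have hf : ∀ x, A x = ∑ i, f i x • (b i : E) := by
    intro x
    have h1 := b.sum_repr (⟨A x, x, rfl⟩ : R)
    have h2 := congrArg (Subtype.val) h1
    rw [Submodule.coe_sum] at h2
    exact h2.symm
  choose g hg using fun i => exists_extension_norm_eq R (LinearMap.toContinuousLinearMap (b.coord i))
  have hPb : ∀ i, P (b i : E) = b i := by
    intro i
    obtain ⟨x, hx⟩ := (b i).2
    rw [← hx]
    exact congrArg (fun Q : E →L[ℂ] E => Q x) hPA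
  have hgb : ∀ i j, g i (b j : E) = if i = j then 1 else 0 := by
    intro i j
    rw [(hg i).1 (b j)]
    change b.coord i (b j) = _
    rw [Module.Basis.coord_apply, Module.Basis.repr_self, Finsupp.single_apply]
    simp only [eq_comm]
  set M : Matrix (Fin N) (Fin N) ℂ := Matrix.of fun i j => f i (b j : E) with hM
  set K : ℝ := ∑ i, ‖(g i).comp P‖ * ‖(b i : E)‖ with hK
  have hK0 : 0 ≤ K := sum_nonneg fun _ _ => by positivity
  obtain ⟨D, χ, hD, hχ, hs, hχ0⟩ := exists_diag M (show 0 < τ / (K + 1) by positivity)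
  let f' : Fin N → (E →L[ℂ] ℂ) := fun i => f i + D i • (g i).comp P
  let B : E →L[ℂ] E := ∑ i, (f' i).smulRight (b i : E)
  have hB : ∀ x, B x = ∑ i, f' i x • (b i : E) := by
    intro x
    simp only [B, _root_.sum_apply, ContinuousLinearMap.smulRight_apply]
  have hfP : ∀ i x, f i (P x) = f i x := by
    intro i x
    have h1 : A (P x) = A x := congrArg (fun Q : E →L[ℂ] E => Q x) hAP
    have h2 : (A.codRestrict R fun x => ⟨x, rfl⟩) (P x) = (A.codRestrict R fun x => ⟨x, rfl⟩) x :=
      Subtype.ext h1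
    simp only [f, ContinuousLinearMap.comp_apply]
    rw [h2]
  have hf'P : ∀ i x, f' i (P x) = f' i x := by
    intro i x
    have h1 : P (P x) = P x := congrArg (fun Q : E →L[ℂ] E => Q x) hPP
    simp only [f', _root_.add_apply, _root_.smul_apply, ContinuousLinearMap.comp_apply]
    rw [hfP, h1]
  have hf'b : ∀ i j, f' i (b j : E) = (M + Matrix.diagonal D) i j := by
    intro i j
    simp only [f', _root_.add_apply, _root_.smul_apply, ContinuousLinearMap.comp_apply,
      Matrix.add_apply, Matrix.diagonal_apply, hM, Matrix.of_apply]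
    rw [hPb, hgb, smul_eq_mul, mul_ite, mul_one, mul_zero]
  have hpow : ∀ (n : ℕ) x, (B ^ (n + 1)) x =
      ∑ i, (((M + Matrix.diagonal D) ^ n).mulVec fun j => f' j x) i • (b i : E) := by
    intro n
    induction n with
    | zero =>
      intro x
      rw [zero_add, pow_one, hB, pow_zero, Matrix.one_mulVec]
    | succ n ih =>
      intro x
      rw [pow_succ', ContinuousLinearMap.mul_apply, ih x, map_sum]
      rw [pow_succ' (M + Matrix.diagonal D), ← Matrix.mulVec_mulVec]
      set c := ((M + Matrix.diagonal D) ^ n).mulVec fun j => f' j x with hc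
      have h1 : ∀ i, B (c i • (b i : E)) = ∑ k, (c i * (M + Matrix.diagonal D) k i) • (b k : E) := by
        intro i
        rw [map_smul, hB, smul_sum]
        refine sum_congr rfl fun k _ => ?_
        rw [hf'b, smul_smul]
      rw [sum_congr rfl fun i _ => h1 i, sum_comm]
      refine sum_congr rfl fun k _ => ?_
      rw [← sum_smul]
      congr 1
      rw [Matrix.mulVec, dotProduct]
      exact sum_congr rfl fun i _ => mul_comm _ _
  have hpoly : ∀ (r : ℂ[X]) x, (B * aeval B r) x =
      ∑ i, ((aeval (M + Matrix.diagonal D) r).mulVec fun j => f' j x) i • (b i : E) := by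
    intro r
    induction r using Polynomial.induction_on' with
    | add r r' h1 h2 =>
      intro x
      rw [map_add, mul_add, _root_.add_apply, h1, h2, map_add, Matrix.add_mulVec, ← sum_add_distrib]
      refine sum_congr rfl fun i _ => ?_
      rw [Pi.add_apply, add_smul]
    | monomial n a =>
      intro x
      rw [aeval_monomial, aeval_monomial, Algebra.algebraMap_eq_smul_one,
        Algebra.algebraMap_eq_smul_one, smul_mul_assoc, one_mul, smul_mul_assoc, one_mul,
        mul_smul_comm, ← pow_succ', _root_.smul_apply, hpow, Matrix.smul_mulVec, smul_sum]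
      refine sum_congr rfl fun i _ => ?_
      rw [Pi.smul_apply, smul_assoc]
  refine ⟨B, X * χ, ?_, ?_, ?_, ?_, ?_⟩
  · have e : B - A = ∑ i, D i • ((g i).comp P).smulRight (b i : E) := by
      ext x
      rw [_root_.sub_apply, hB, hf, ← sum_sub_distrib, _root_.sum_apply]
      refine sum_congr rfl fun i _ => ?_
      simp only [f', _root_.add_apply, _root_.smul_apply, ContinuousLinearMap.smulRight_apply]
      rw [add_smul, add_sub_cancel_left, smul_assoc]
    rw [e]
    refine (norm_sum_le _ _).trans ?_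
    have h1 : ∀ i ∈ (univ : Finset (Fin N)), ‖D i • ((g i).comp P).smulRight (b i : E)‖ ≤
        τ / (K + 1) * (‖(g i).comp P‖ * ‖(b i : E)‖) := by
      intro i _
      rw [norm_smul, ContinuousLinearMap.norm_smulRight_apply]
      exact mul_le_mul_of_nonneg_right (hD i) (by positivity)
    refine (sum_le_sum h1).trans ?_
    rw [← mul_sum, ← hK, div_mul_eq_mul_div, div_le_iff₀ (by positivity)]
    nlinarith
  · ext x
    change P (B x) = B x
    rw [hB, map_sum]
    refine sum_congr rfl fun i _ => ?_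
    rw [map_smul, hPb]
  · ext x
    change B (P x) = B x
    rw [hB, hB]
    refine sum_congr rfl fun i _ => ?_
    rw [hf'P]
  · rw [map_mul, aeval_X]
    ext x
    rw [hpoly, hχ]
    simp
  · refine Separable.mul separable_X hs ?_
    rw [(Polynomial.irreducible_X).coprime_iff_not_dvd, X_dvd_iff]
    exact hχ0

end Pool.Agent.J6H45.TV
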