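import Pool.Agent.J6H45.TV.F
import Pool.Agent.Y280.CM
import Pool.Agent.Y280.Defs

/-!
# All contractions of a self-similar space with the metric approximation property
-/

set_option autoImplicit false
open Finset Filter Topology TopologicalSpace Polynomial Pool.Agent.Y280

namespace Pool.Agent.J6H45.TV

variable {E : Type*} [NormedAddCommGroup E] [NormedSpace ℂ E]

/-- The metric approximation property. -/
def MetricAP (E : Type*) [NormedAddCommGroup E] [NormedSpace ℂ E] : Prop :=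
  ∀ (X : Finset E) (ε : ℝ), 0 < ε → ∃ F : E →L[ℂ] E, ‖F‖ ≤ 1 ∧
    FiniteDimensional ℂ (LinearMap.range (F : E →ₗ[ℂ] E)) ∧ ∀ x ∈ X, ‖F x - x‖ ≤ ε

/-- The identity is approximated by projections, of norm one, onto subspaces of which there are arbitrarily
many copies far away, in the position of an `ℓ_p`-sum. -/
def SelfSum (p : ℝ) (E : Type*) [NormedAddCommGroup E] [NormedSpace ℂ E] : Prop :=
  ∀ (X : Finset E) (Y : Finset (StrongDual ℂ E)) (ε : ℝ), 0 < ε → ∃ P : E →L[ℂ] E,
    (∀ x ∈ X, ‖P x - x‖ ≤ ε) ∧ (∀ y ∈ Y, ‖y.comp P - y‖ ≤ ε) ∧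
    ∀ (n : ℕ) (X' : Finset E) (Y' : Finset (StrongDual ℂ E)) (ε' : ℝ), 0 < ε' →
      ∃ V W : ℕ → E →L[ℂ] E, Copies p P n V W ∧
        (∀ x ∈ X', ∀ k, 1 ≤ k → k ≤ n → ‖W k x‖ ≤ ε') ∧
        (∀ y ∈ Y', ∀ k, 1 ≤ k → k ≤ n → ‖y.comp (V k)‖ ≤ ε')

lemma range_convex {F G : E →L[ℂ] E} (hF : FiniteDimensional ℂ (LinearMap.range (F : E →ₗ[ℂ] E)))
    (hG : FiniteDimensional ℂ (LinearMap.range (G : E →ₗ[ℂ] E))) (a b : ℝ) :
    FiniteDimensional ℂ (LinearMap.range ((a • F + b • G : E →L[ℂ] E) : E →ₗ[ℂ] E)) := by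
  refine Submodule.finiteDimensional_of_le (S₂ := LinearMap.range (F : E →ₗ[ℂ] E) ⊔
    LinearMap.range (G : E →ₗ[ℂ] E)) ?_
  rintro _ ⟨x, rfl⟩
  refine Submodule.add_mem_sup ?_ ?_
  · refine ⟨(a : ℂ) • x, ?_⟩
    simp
  · refine ⟨(b : ℂ) • x, ?_⟩
    simp

/-- On a reflexive space the metric approximation property holds for the space and its dual at the
same time. -/
theorem two_sided (hE : Reflexive E) (h : MetricAP E) (X : Finset E)
    (Y : Finset (StrongDual ℂ E)) {ε : ℝ} (hε : 0 < ε) :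
    ∃ F : E →L[ℂ] E, ‖F‖ ≤ 1 ∧ FiniteDimensional ℂ (LinearMap.range (F : E →ₗ[ℂ] E)) ∧
      (∀ x ∈ X, ‖F x - x‖ ≤ ε) ∧ ∀ y ∈ Y, ‖y.comp F - y‖ ≤ ε := by
  classical
  -- the map into the product
  let Ψ : (E →L[ℂ] E) → ((X → E) × (Y → StrongDual ℂ E)) := fun F =>
    (fun x => F x - x, fun y => (y : StrongDual ℂ E).comp F - y)
  let K : Set ((X → E) × (Y → StrongDual ℂ E)) :=
    Ψ '' {F | ‖F‖ ≤ 1 ∧ FiniteDimensional ℂ (LinearMap.range (F : E →ₗ[ℂ] E))}
  have hK : Convex ℝ K := by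
    rintro _ ⟨F, ⟨hF1, hF2⟩, rfl⟩ _ ⟨G, ⟨hG1, hG2⟩, rfl⟩ a b ha hb hab
    refine ⟨a • F + b • G, ⟨?_, range_convex hF2 hG2 a b⟩, ?_⟩
    · calc ‖a • F + b • G‖ ≤ ‖a • F‖ + ‖b • G‖ := norm_add_le _ _
        _ ≤ a * 1 + b * 1 := by
            rw [norm_smul, norm_smul, Real.norm_of_nonneg ha, Real.norm_of_nonneg hb]
            exact add_le_add (mul_le_mul_of_nonneg_left hF1 ha) (mul_le_mul_of_nonneg_left hG1 hb)
        _ = 1 := by rw [mul_one, mul_one, hab]
    · have e1 : ∀ x : E, x = a • x + b • x := fun x => by rw [← add_smul, hab, one_smul]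
      refine Prod.ext ?_ ?_
      · funext x
        change (a • F + b • G) (x : E) - x = a • (F x - x) + b • (G x - x)
        conv_lhs => rw [e1 (x : E)]
        rw [← e1 (x : E)]
        simp only [_root_.add_apply, _root_.smul_apply, smul_sub]
        nth_rewrite 3 [e1 (x : E)]
        abel
      · funext y
        ext z
        change (y : StrongDual ℂ E) ((a • F + b • G) z) - (y : StrongDual ℂ E) z =
          (a • ((y : StrongDual ℂ E).comp F - y) + b • ((y : StrongDual ℂ E).comp G - y)) z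
        simp only [_root_.add_apply, _root_.smul_apply, _root_.sub_apply,
          ContinuousLinearMap.comp_apply, map_add, Complex.real_smul]
        have e2 : (y : StrongDual ℂ E) (a • F z) = (a : ℂ) * (y : StrongDual ℂ E) (F z) := by
          rw [← Complex.coe_smul, map_smul, smul_eq_mul]
        have e3 : (y : StrongDual ℂ E) (b • G z) = (b : ℂ) * (y : StrongDual ℂ E) (G z) := by
          rw [← Complex.coe_smul, map_smul, smul_eq_mul]
        rw [e2, e3]
        have e4 : (a : ℂ) + b = 1 := by rw [← Complex.ofReal_add, hab, Complex.ofReal_one]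
        linear_combination (-(y : StrongDual ℂ E) z) * e4.symm
  have h0 : (0 : (X → E) × (Y → StrongDual ℂ E)) ∈ closure K := by
    by_contra hcon
    obtain ⟨f, s, hs1, hs2⟩ := RCLike.geometric_hahn_banach_point_closed (𝕜 := ℂ) hK.closure
      isClosed_closure hcon
    rw [map_zero] at hs1
    have hs0 : 0 < s := by simpa using hs1
    -- the functionals
    let fg : Y → (StrongDual ℂ (StrongDual ℂ E)) := fun y =>
      f.comp ((ContinuousLinearMap.inr ℂ (X → E) (Y → StrongDual ℂ E)).comp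
        (ContinuousLinearMap.single ℂ (fun _ : Y => StrongDual ℂ E) y))
    choose z hz using fun y => hE (fg y)
    set C : ℝ := ‖f‖ + ∑ y : Y, ‖(y : StrongDual ℂ E)‖ + 1 with hC
    have hC0 : 0 < C := by positivity
    obtain ⟨F, hF1, hF2, hF3⟩ := h (X ∪ univ.image z) (s / (2 * C)) (by positivity)
    have hmem : Ψ F ∈ K := ⟨F, ⟨hF1, hF2⟩, rfl⟩
    have h1 := hs2 _ (subset_closure hmem)
    have e1 : f (Ψ F) = f (fun x : X => F x - x, 0) +
        ∑ y : Y, (y : StrongDual ℂ E) (F (z y) - z y) := by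
      have e2 : Ψ F = (fun x : X => F x - x, 0) +
          ∑ y : Y, (ContinuousLinearMap.inr ℂ (X → E) (Y → StrongDual ℂ E))
            (ContinuousLinearMap.single ℂ (fun _ : Y => StrongDual ℂ E) y
              ((y : StrongDual ℂ E).comp F - y)) := by
        rw [← map_sum]
        refine Prod.ext ?_ ?_
        · simp [Ψ, Prod.fst_sum]
        · simp only [Ψ, Prod.snd_add, zero_add, ContinuousLinearMap.inr_apply]
          funext y
          rw [Finset.sum_apply]
          simp [ContinuousLinearMap.single_apply, Pi.single_apply]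
      rw [e2, map_add, map_sum]
      congr 1
      refine sum_congr rfl fun y _ => ?_
      have h3 : f ((ContinuousLinearMap.inr ℂ (X → E) (Y → StrongDual ℂ E))
            (ContinuousLinearMap.single ℂ (fun _ : Y => StrongDual ℂ E) y
              ((y : StrongDual ℂ E).comp F - y))) = ((y : StrongDual ℂ E).comp F - y) (z y) :=
        hz y ((y : StrongDual ℂ E).comp F - y)
      rw [h3, _root_.sub_apply, ContinuousLinearMap.comp_apply,
        map_sub (y : StrongDual ℂ E) (F (z y)) (z y)]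
    have b1 : ‖f (fun x : X => F x - x, 0)‖ ≤ ‖f‖ * (s / (2 * C)) := by
      refine (f.le_opNorm _).trans (mul_le_mul_of_nonneg_left ?_ (norm_nonneg _))
      rw [Prod.norm_def]
      refine max_le ?_ (by rw [norm_zero]; positivity)
      rw [pi_norm_le_iff_of_nonneg (by positivity)]
      intro x
      exact hF3 x (mem_union_left _ x.2)
    have b2 : ‖∑ y : Y, (y : StrongDual ℂ E) (F (z y) - z y)‖ ≤
        (∑ y : Y, ‖(y : StrongDual ℂ E)‖) * (s / (2 * C)) := by
      rw [sum_mul]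
      refine (norm_sum_le _ _).trans (sum_le_sum fun y _ => ?_)
      refine ((y : StrongDual ℂ E).le_opNorm _).trans
        (mul_le_mul_of_nonneg_left ?_ (norm_nonneg _))
      exact hF3 _ (mem_union_right _ (mem_image_of_mem _ (mem_univ y)))
    have b3 : ‖f (Ψ F)‖ ≤ C * (s / (2 * C)) := by
      rw [e1]
      refine (norm_add_le _ _).trans ((add_le_add b1 b2).trans ?_)
      rw [← add_mul]
      refine mul_le_mul_of_nonneg_right ?_ (by positivity)
      rw [hC]; linarith
    have b4 : C * (s / (2 * C)) = s / 2 := by field_simp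
    have b5 := (RCLike.re_le_norm (f (Ψ F)))
    linarith
  obtain ⟨_, ⟨F, ⟨hF1, hF2⟩, rfl⟩, hd⟩ := Metric.mem_closure_iff.1 h0 ε hε
  rw [dist_comm, dist_zero_right, Prod.norm_def, max_lt_iff] at hd
  refine ⟨F, hF1, hF2, fun x hx => ?_, fun y hy => ?_⟩
  · exact (norm_le_pi_norm (Ψ F).1 ⟨x, hx⟩).trans hd.1.le
  · exact (norm_le_pi_norm (Ψ F).2 ⟨y, hy⟩).trans hd.2.le

/-- The norm of the coupled copies. -/
lemma norm_TT_le {p : ℝ} (hp : 0 < p) {P A : E →L[ℂ] E} {m : ℕ} {V W : ℕ → E →L[ℂ] E}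
    (h : Copies p P (m + 1) V W) {δ w : ℝ} (hδ : 0 < δ) (hδw : δ ≤ w) :
    ‖TT A m δ w V W‖ ≤ ‖A‖ + w := by
  have hw : 0 ≤ w := by linarith
  refine ContinuousLinearMap.opNorm_le_bound _ (by positivity) fun x => ?_
  have key : ∀ (r : ℝ) (z : ℕ → E), 0 ≤ r →
      (∑ k ∈ range (m + 1 + 1), ‖z k‖ ^ p ≤ r ^ p * ‖x‖ ^ p) →
      ‖∑ k ∈ range (m + 1 + 1), V k (z k)‖ ≤ r * ‖x‖ := by
    intro r z hr hz
    have h1 := h.sumV hp z hz
    rwa [← Real.mul_rpow hr (norm_nonneg _), ← Real.rpow_mul (by positivity),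
      mul_one_div_cancel hp.ne', Real.rpow_one] at h1
  have e1 : TT A m δ w V W x = ∑ k ∈ range (m + 1 + 1), V k (A (W k x)) +
      ∑ k ∈ range (m + 1 + 1), V k (if k = 0 then 0 else wt m δ w (k - 1) • W (k - 1) x) := by
    unfold TT
    rw [_root_.add_apply, _root_.sum_apply, _root_.sum_apply,
      sum_range_succ' (fun k => V k (if k = 0 then 0 else wt m δ w (k - 1) • W (k - 1) x)) (m + 1)]
    have c1 : ∑ k ∈ range (m + 2), (V k * A * W k) x =
        ∑ k ∈ range (m + 1 + 1), V k (A (W k x)) := rfl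
    rw [c1]
    congr 1
    rw [if_pos rfl, map_zero, add_zero]
    refine sum_congr rfl fun k _ => ?_
    rw [if_neg (by omega), Nat.add_sub_cancel, map_smul]
    rfl
  rw [e1, add_mul]
  refine (norm_add_le _ _).trans (add_le_add (key ‖A‖ _ (norm_nonneg _) ?_) (key w _ hw ?_))
  · calc ∑ k ∈ range (m + 1 + 1), ‖A (W k x)‖ ^ p ≤
        ∑ k ∈ range (m + 1 + 1), ‖A‖ ^ p * ‖W k x‖ ^ p := by
          refine sum_le_sum fun k _ => ?_
          rw [← Real.mul_rpow (norm_nonneg _) (norm_nonneg _)]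
          exact Real.rpow_le_rpow (norm_nonneg _) (A.le_opNorm _) hp.le
      _ ≤ ‖A‖ ^ p * ‖x‖ ^ p := by
          rw [← mul_sum]
          exact mul_le_mul_of_nonneg_left (h.normW x) (by positivity)
  · rw [sum_range_succ', if_pos rfl, norm_zero, Real.zero_rpow hp.ne', add_zero]
    calc ∑ k ∈ range (m + 1), ‖if k + 1 = 0 then (0 : E) else
          wt m δ w (k + 1 - 1) • W (k + 1 - 1) x‖ ^ p ≤
        ∑ k ∈ range (m + 1), w ^ p * ‖W k x‖ ^ p := by
          refine sum_le_sum fun k _ => ?_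
          rw [if_neg (by omega), Nat.add_sub_cancel, norm_smul,
            Real.mul_rpow (norm_nonneg _) (norm_nonneg _)]
          refine mul_le_mul_of_nonneg_right ?_ (by positivity)
          exact Real.rpow_le_rpow (norm_nonneg _) (norm_wt_le hδ hδw _) hp.le
      _ ≤ w ^ p * ‖x‖ ^ p := by
          rw [← mul_sum]
          refine mul_le_mul_of_nonneg_left ?_ (by positivity)
          refine le_trans ?_ (h.normW x)
          exact sum_le_sum_of_subset_of_nonneg (range_subset_range.2 (by omega))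
            fun _ _ _ => by positivity

/-- **The approximation property for all contractions.** -/
theorem stp_contr {p : ℝ} (hp : 0 < p) (hE : Reflexive E) (hM : MetricAP E) (hS : SelfSum p E) :
    Stp p {T : E →L[ℂ] E | ‖T‖ ≤ 1} := by
  classical
  intro T hT X Y ε hε
  have hT1 : ‖T‖ ≤ 1 := hT
  obtain ⟨M, hM0, hMX⟩ := exists_bound X
  obtain ⟨M', hM'0, hMY⟩ := exists_bound Y
  set τ : ℝ := min (1 / 2) (ε / (4 * (M + M'))) with hτ
  have hτ0 : 0 < τ := lt_min (by norm_num) (by positivity)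
  have hτ1 : τ ≤ 1 / 2 := min_le_left _ _
  have hτM : τ * (M + M') ≤ ε / 4 := by
    have : τ ≤ ε / (4 * (M + M')) := min_le_right _ _
    rw [le_div_iff₀ (by positivity)] at this
    linarith
  set ε1 : ℝ := ε / 8 with hε1
  have hε10 : 0 < ε1 := by positivity
  obtain ⟨P, hPX, hPY, hcop⟩ := hS (X ∪ X.image fun x => T x) (Y ∪ Y.image fun y => y.comp T)
    ε1 hε10
  obtain ⟨V0, W0, hC0, -, -⟩ := hcop 0 ∅ ∅ 1 one_pos
  have hPP := hC0.PP
  have hPn : ‖P‖ ≤ 1 := by
    have := hC0.norm_V hp (le_refl 0)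
    rwa [hC0.V0] at this
  obtain ⟨F, hF1, hF2, hFX, hFY⟩ := two_sided hE hM (X ∪ X.image fun x => T x)
    (Y ∪ Y.image fun y => y.comp T) hε10
  set A0 : E →L[ℂ] E := (((1 - τ : ℝ)) : ℂ) • (P * F * T * P) with hA0
  have hPA0 : P * A0 = A0 := by
    rw [hA0, mul_smul_comm]
    congr 1
    calc P * (P * F * T * P) = (P * P) * F * T * P := by noncomm_ring
      _ = _ := by rw [hPP]
  have hA0P : A0 * P = A0 := by
    rw [hA0, smul_mul_assoc]
    congr 1
    calc P * F * T * P * P = P * F * T * (P * P) := by noncomm_ring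
      _ = _ := by rw [hPP]
  haveI : FiniteDimensional ℂ (LinearMap.range (F : E →ₗ[ℂ] E)) := hF2
  haveI : FiniteDimensional ℂ (LinearMap.range (A0 : E →ₗ[ℂ] E)) := by
    refine Submodule.finiteDimensional_of_le
      (S₂ := (LinearMap.range (F : E →ₗ[ℂ] E)).map (P : E →ₗ[ℂ] E)) ?_
    rintro _ ⟨x, rfl⟩
    refine ⟨F ((((1 - τ : ℝ)) : ℂ) • T (P x)), ⟨_, rfl⟩, ?_⟩
    change P (F ((((1 - τ : ℝ)) : ℂ) • T (P x))) = (((1 - τ : ℝ)) : ℂ) • P (F (T (P x)))
    rw [map_smul, map_smul]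
  obtain ⟨A, χ, hA, hPA, hAP, hχ, hs⟩ := exists_sep_op A0 P hPP hPA0 hA0P
    (show 0 < τ / 2 by positivity)
  have hA0n : ‖A0‖ ≤ 1 - τ := by
    rw [hA0, norm_smul, Complex.norm_real, Real.norm_of_nonneg (by linarith)]
    have h1 : ‖P * F * T * P‖ ≤ 1 := by
      calc ‖P * F * T * P‖ ≤ ‖P * F * T‖ * ‖P‖ := norm_mul_le _ _
        _ ≤ (‖P * F‖ * ‖T‖) * ‖P‖ := mul_le_mul_of_nonneg_right (norm_mul_le _ _) (norm_nonneg _)
        _ ≤ ((‖P‖ * ‖F‖) * ‖T‖) * ‖P‖ := by
            gcongr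
            exact norm_mul_le _ _
        _ ≤ ((1 * 1) * 1) * 1 := by gcongr
        _ = 1 := by norm_num
    calc (1 - τ) * ‖P * F * T * P‖ ≤ (1 - τ) * 1 := mul_le_mul_of_nonneg_left h1 (by linarith)
      _ = 1 - τ := mul_one _
  have hAn : ‖A‖ ≤ 1 - τ / 2 := by
    have e : A = A0 + (A - A0) := by abel
    rw [e]
    refine (norm_add_le _ _).trans ?_
    linarith
  have hsmall : ∀ {F' : Type _} [NormedAddCommGroup F'] [NormedSpace ℂ F'] (u v t : F'),
      ‖v - t‖ ≤ 3 * ε1 → ‖u - (((1 - τ : ℝ)) : ℂ) • v‖ ≤ τ / 2 * (M + M') → ‖v‖ ≤ M + M' →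
      ‖u - t‖ ≤ ε := by
    intro F' _ _ u v t h1 h2 h3
    have e : u - t = (u - (((1 - τ : ℝ)) : ℂ) • v) + ((v - t) - ((τ : ℝ) : ℂ) • v) := by
      push_cast
      rw [sub_smul, one_smul]
      abel
    rw [e]
    have h4 : ‖((τ : ℝ) : ℂ) • v‖ ≤ τ * (M + M') := by
      rw [norm_smul, Complex.norm_real, Real.norm_of_nonneg hτ0.le]
      exact mul_le_mul_of_nonneg_left h3 hτ0.le
    have h5 := norm_add_le (u - (((1 - τ : ℝ)) : ℂ) • v) ((v - t) - ((τ : ℝ) : ℂ) • v)
    have h6 := norm_sub_le (v - t) (((τ : ℝ) : ℂ) • v)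
    linarith
  refine ⟨A, P, τ / 2, χ, ?_, by positivity, hχ, hs, hPA, hAP, ?_, ?_, ?_, ?_⟩
  · change ‖A‖ ≤ 1
    linarith
  · linarith
  · intro x hx
    have hPx := hPX x (mem_union_left _ hx)
    have hPTx := hPX (T x) (mem_union_right _ (mem_image_of_mem _ hx))
    have hFTx := hFX (T x) (mem_union_right _ (mem_image_of_mem _ hx))
    refine ⟨?_, hPx.trans (by linarith)⟩
    have hxM : ‖x‖ ≤ M + M' := (hMX x hx).trans (by linarith)
    have hop : ∀ (Q : E →L[ℂ] E) (z : E), ‖Q‖ ≤ 1 → ‖Q z‖ ≤ ‖z‖ := fun Q z hQ => by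
      have := Q.le_of_opNorm_le hQ z
      rwa [one_mul] at this
    refine hsmall (A x) ((P * F * T * P) x) (T x) ?_ ?_ ?_
    · have e : (P * F * T * P) x - T x = P (F (T (P x - x))) + (P (F (T x) - T x) +
          (P (T x) - T x)) := by
        change P (F (T (P x))) - T x = _
        rw [map_sub, map_sub, map_sub, map_sub]
        abel
      rw [e]
      have h1 : ‖P (F (T (P x - x)))‖ ≤ ε1 :=
        (hop P _ hPn).trans ((hop F _ hF1).trans ((hop T _ hT1).trans hPx))
      have h2 : ‖P (F (T x) - T x)‖ ≤ ε1 := (hop P _ hPn).trans hFTx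
      have h3 := norm_add_le (P (F (T (P x - x)))) (P (F (T x) - T x) + (P (T x) - T x))
      have h4 := norm_add_le (P (F (T x) - T x)) (P (T x) - T x)
      linarith
    · have e : A x - (((1 - τ : ℝ)) : ℂ) • (P * F * T * P) x = (A - A0) x := by
        rw [_root_.sub_apply, hA0, _root_.smul_apply]
      rw [e]
      refine ((A - A0).le_opNorm x).trans ?_
      exact mul_le_mul hA hxM (norm_nonneg _) (by positivity)
    · exact (hop P _ hPn).trans ((hop F _ hF1).trans ((hop T _ hT1).trans ((hop P _ hPn).trans hxM)))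
  · intro y hy
    have hyP := hPY y (mem_union_left _ hy)
    have hyTP := hPY (y.comp T) (mem_union_right _ (mem_image_of_mem _ hy))
    have hyF := hFY y (mem_union_left _ hy)
    refine ⟨?_, hyP.trans (by linarith)⟩
    have hyM : ‖y‖ ≤ M + M' := (hMY y hy).trans (by linarith)
    have hop : ∀ (z : StrongDual ℂ E) (Q : E →L[ℂ] E), ‖Q‖ ≤ 1 → ‖z.comp Q‖ ≤ ‖z‖ :=
      fun z Q hQ => (ContinuousLinearMap.opNorm_comp_le _ _).trans
        (mul_le_of_le_one_right (norm_nonneg _) hQ)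
    refine hsmall (y.comp A) (y.comp (P * F * T * P)) (y.comp T) ?_ ?_ ?_
    · have e : y.comp (P * F * T * P) - y.comp T = (((y.comp P - y).comp F).comp T).comp P +
          (((y.comp F - y).comp T).comp P + ((y.comp T).comp P - y.comp T)) := by
        ext z
        simp only [_root_.sub_apply, _root_.add_apply, ContinuousLinearMap.comp_apply,
          mul_apply_eq_comp]
        ring
      rw [e]
      have h1 : ‖(((y.comp P - y).comp F).comp T).comp P‖ ≤ ε1 :=
        (hop _ P hPn).trans ((hop _ T hT1).trans ((hop _ F hF1).trans hyP))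
      have h2 : ‖((y.comp F - y).comp T).comp P‖ ≤ ε1 :=
        (hop _ P hPn).trans ((hop _ T hT1).trans hyF)
      have h3 := norm_add_le ((((y.comp P - y).comp F).comp T).comp P)
        (((y.comp F - y).comp T).comp P + ((y.comp T).comp P - y.comp T))
      have h4 := norm_add_le (((y.comp F - y).comp T).comp P) ((y.comp T).comp P - y.comp T)
      linarith
    · have e : y.comp A - (((1 - τ : ℝ)) : ℂ) • y.comp (P * F * T * P) = y.comp (A - A0) := by
        ext z
        simp only [hA0, _root_.sub_apply, ContinuousLinearMap.comp_apply, _root_.smul_apply,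
          map_sub, map_smul]
      rw [e]
      refine (ContinuousLinearMap.opNorm_comp_le _ _).trans ?_
      rw [mul_comm]
      exact mul_le_mul hA hyM (norm_nonneg _) (by positivity)
    · refine le_trans ?_ hyM
      refine hop y _ ?_
      calc ‖P * F * T * P‖ ≤ ‖P * F * T‖ * ‖P‖ := norm_mul_le _ _
        _ ≤ (‖P * F‖ * ‖T‖) * ‖P‖ := mul_le_mul_of_nonneg_right (norm_mul_le _ _) (norm_nonneg _)
        _ ≤ ((‖P‖ * ‖F‖) * ‖T‖) * ‖P‖ := by
            gcongr
            exact norm_mul_le _ _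
        _ ≤ ((1 * 1) * 1) * 1 := by gcongr
        _ = 1 := by norm_num
  · intro m X' Y' ε' hε'
    obtain ⟨V, W, hVW, h1, h2⟩ := hcop (m + 1) X' Y' ε' hε'
    refine ⟨V, W, hVW, h1, h2, fun δ hδ hδw => ?_⟩
    change ‖TT A m δ (τ / 2) V W‖ ≤ 1
    exact (norm_TT_le hp hVW hδ hδw).trans (by linarith)

end Pool.Agent.J6H45.TV
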