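import Pool.Agent.J6H45.TV.G
import Pool.Agent.J6H45.TV.E

/-!
# Typical contractions of a self-similar space
-/

set_option autoImplicit false
open Finset Filter Topology TopologicalSpace Pool.Agent.Y280

namespace Pool.Agent.J6H45.TV

/-- The contractions of `E`: the closed unit ball of the bounded operators. -/
def Contr (E : Type*) [NormedAddCommGroup E] [NormedSpace ℂ E] : Set (E →L[ℂ] E) :=
  {T | ‖T‖ ≤ 1}

/-- The strong* operator topology on the contractions: pointwise convergence of the operators and of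
their adjoints. -/
@[reducible] noncomputable def StrongStar (E : Type*) [NormedAddCommGroup E] [NormedSpace ℂ E] :
    TopologicalSpace (Contr E) :=
  TopologicalSpace.induced (fun T : Contr E => ((fun x : E => (T : E →L[ℂ] E) x),
    (fun y : StrongDual ℂ E => y.comp (T : E →L[ℂ] E)))) instTopologicalSpaceProd

variable {E : Type*} [NormedAddCommGroup E] [NormedSpace ℂ E]

lemma fin_min {α : Type*} (I : Finset α) (g : α → ℝ) (hg : ∀ a ∈ I, 0 < g a) :
    ∃ ε > 0, ∀ a ∈ I, ε ≤ g a := by
  classical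
  induction I using Finset.induction_on with
  | empty => exact ⟨1, one_pos, fun a ha => absurd ha (notMem_empty a)⟩
  | insert b s _ ih =>
    obtain ⟨ε, hε, h⟩ := ih fun a ha => hg a (mem_insert_of_mem ha)
    refine ⟨min ε (g b), lt_min hε (hg b (mem_insert_self b s)), fun a ha => ?_⟩
    rcases mem_insert.1 ha with rfl | ha
    · exact min_le_right _ _
    · exact (min_le_left _ _).trans (h a ha)

lemma pi_nhd {α F : Type*} [SeminormedAddCommGroup F] {U : Set (α → F)} (hU : IsOpen U) {f : α → F}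
    (hf : f ∈ U) : ∃ (I : Finset α) (ε : ℝ), 0 < ε ∧ ∀ g : α → F, (∀ a ∈ I, ‖g a - f a‖ < ε) →
      g ∈ U := by
  obtain ⟨I, u, hu, hIu⟩ := isOpen_pi_iff.1 hU f hf
  have h1 : ∀ a : α, ∃ r > 0, a ∈ I → Metric.ball (f a) r ⊆ u a := by
    intro a
    by_cases ha : a ∈ I
    · obtain ⟨r, hr, hr'⟩ := Metric.isOpen_iff.1 (hu a ha).1 (f a) (hu a ha).2
      exact ⟨r, hr, fun _ => hr'⟩
    · exact ⟨1, one_pos, fun h => absurd h ha⟩
  choose r hr hr' using h1
  obtain ⟨ε, hε, hεr⟩ := fin_min I r fun a _ => hr a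
  refine ⟨I, ε, hε, fun g hg => hIu ?_⟩
  intro a ha
  apply hr' a ha
  rw [Metric.mem_ball, dist_eq_norm]
  exact (hg a ha).trans_le (hεr a ha)

lemma strongStar_nhd (w : Contr E) (O : Set (Contr E)) (hO : @IsOpen (Contr E) (StrongStar E) O)
    (hw : w ∈ O) : ∃ (X : Finset E) (Y : Finset (StrongDual ℂ E)) (ε : ℝ), 0 < ε ∧
      ∀ w' : Contr E, (∀ x ∈ X, ‖(w' : E →L[ℂ] E) x - (w : E →L[ℂ] E) x‖ < ε) →
      (∀ y ∈ Y, ‖y.comp (w' : E →L[ℂ] E) - y.comp (w : E →L[ℂ] E)‖ < ε) → w' ∈ O := by
  obtain ⟨O', hO', rfl⟩ := isOpen_induced_iff.1 hO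
  obtain ⟨U, V, hU, hV, hwU, hwV, hUV⟩ := isOpen_prod_iff.1 hO' _ _ hw
  obtain ⟨X, ε1, hε1, h1⟩ := pi_nhd hU hwU
  obtain ⟨Y, ε2, hε2, h2⟩ := pi_nhd hV hwV
  refine ⟨X, Y, min ε1 ε2, lt_min hε1 hε2, fun w' hX hY => hUV ⟨?_, ?_⟩⟩
  · exact h1 _ fun x hx => (hX x hx).trans_le (min_le_left _ _)
  · exact h2 _ fun y hy => (hY y hy).trans_le (min_le_right _ _)

lemma bw_contr : @BW E _ _ (Contr E) (StrongStar E) (fun w => (w : E →L[ℂ] E)) {T | ‖T‖ ≤ 1} := by
  letI : TopologicalSpace (Contr E) := StrongStar E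
  have hd : Continuous (fun T : Contr E => ((fun x : E => (T : E →L[ℂ] E) x),
      (fun y : StrongDual ℂ E => y.comp (T : E →L[ℂ] E)))) := continuous_induced_dom
  refine ⟨fun T hT => ⟨⟨T, hT⟩, rfl⟩, fun w => w.2, fun x => ?_, fun y => ?_, ?_⟩
  · exact (continuous_apply x).comp (continuous_fst.comp hd)
  · exact (continuous_apply y).comp (continuous_snd.comp hd)
  · intro w O hO hw
    exact strongStar_nhd w O hO hw

/-- The dual space of a separable reflexive space is separable. -/
theorem separable_dual [SeparableSpace E] (hE : Reflexive E) :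
    SeparableSpace (StrongDual ℂ E) := by
  classical
  have hne : Nonempty E := ⟨0⟩
  set d : ℕ → E := denseSeq E with hd
  have hdd : DenseRange d := denseRange_denseSeq E
  choose y hy1 hy2 using fun n => exists_dual_vector'' ℂ (d n)
  set M : Submodule ℂ (StrongDual ℂ E) := (Submodule.span ℂ (Set.range y)).topologicalClosure
    with hM
  have hMt : M = ⊤ := by
    by_contra hcon
    obtain ⟨f, hf⟩ : ∃ f, f ∉ M := by
      by_contra h
      push Not at h
      exact hcon (Submodule.eq_top_iff'.2 h)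
    have hconv : Convex ℝ (M : Set (StrongDual ℂ E)) := (M.restrictScalars ℝ).convex
    obtain ⟨G, s, hs1, hs2⟩ := RCLike.geometric_hahn_banach_closed_point (𝕜 := ℂ) hconv
      (Submodule.isClosed_topologicalClosure _) hf
    have hG0 : ∀ g ∈ M, G g = 0 := by
      intro g hg
      by_contra hne0
      -- scale
      have h1 : ∀ t : ℝ, t * ‖G g‖ ^ 2 < s := by
        intro t
        have h2 := hs1 (((t : ℂ) * (starRingEnd ℂ) (G g)) • g) (M.smul_mem _ hg)
        rw [map_smul, smul_eq_mul, mul_assoc, mul_comm ((starRingEnd ℂ) (G g)),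
          Complex.mul_conj, Complex.normSq_eq_norm_sq, ← Complex.ofReal_mul] at h2
        exact h2
      have hp : 0 < ‖G g‖ ^ 2 := by positivity
      have h3 := h1 ((|s| + 1) / ‖G g‖ ^ 2)
      rw [div_mul_cancel₀ _ hp.ne'] at h3
      linarith [le_abs_self s]
    have hs0 : 0 < s := by
      have := hs1 0 (M.zero_mem)
      simpa using this
    obtain ⟨x, hx⟩ := hE G
    have hx0 : x ≠ 0 := by
      rintro rfl
      rw [hx f, map_zero] at hs2
      simp at hs2
      linarith
    have hxn : 0 < ‖x‖ := norm_pos_iff.2 hx0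
    obtain ⟨n, hn⟩ := hdd.exists_dist_lt x (show (0 : ℝ) < ‖x‖ / 4 by positivity)
    have h1 : y n x = 0 := by
      rw [← hx (y n)]
      exact hG0 _ (Submodule.le_topologicalClosure _ (Submodule.subset_span ⟨n, rfl⟩))
    have h2 : ‖d n‖ ≤ ‖x‖ / 4 := by
      have h3 : y n (d n) = ((‖d n‖ : ℝ) : ℂ) := hy2 n
      have h4 : y n (d n - x) = ((‖d n‖ : ℝ) : ℂ) := by rw [map_sub, h1, sub_zero, h3]
      have h5 : ‖y n (d n - x)‖ ≤ ‖d n - x‖ :=
        ((y n).le_opNorm _).trans (mul_le_of_le_one_left (norm_nonneg _) (hy1 n))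
      rw [h4, Complex.norm_real, norm_norm] at h5
      rw [dist_comm, dist_eq_norm] at hn
      exact h5.trans hn.le
    have h6 : ‖x‖ ≤ ‖x - d n‖ + ‖d n‖ := by
      have := norm_add_le (x - d n) (d n)
      rwa [sub_add_cancel] at this
    rw [dist_eq_norm] at hn
    linarith
  have hsep : IsSeparable (M : Set (StrongDual ℂ E)) := by
    rw [hM, Submodule.topologicalClosure_coe]
    exact ((Set.countable_range y).isSeparable.span (R := ℂ)).closure
  rw [hMt] at hsep
  exact isSeparable_univ_iff.1 (by simpa using hsep)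

lemma strongStar_cm [CompleteSpace E] [SeparableSpace E] (hE : Reflexive E) :
    @IsCompletelyMetrizableSpace (Contr E) (StrongStar E) := by
  haveI := separable_dual hE
  letI : TopologicalSpace (Contr E) := StrongStar E
  refine cm_abs_star (fun w : Contr E => (w : E →L[ℂ] E)) ⟨rfl⟩ Subtype.val_injective
    (fun w => w.2) ?_
  intro w T0 hT0
  refine ⟨⟨T0, ?_⟩, rfl⟩
  refine ContinuousLinearMap.opNorm_le_bound _ zero_le_one fun x => ?_
  exact le_of_tendsto (hT0 x).norm (Eventually.of_forall fun i =>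
    ((w i : E →L[ℂ] E).le_opNorm _).trans (mul_le_mul_of_nonneg_right (w i).2 (norm_nonneg _)))

/-- Typical contractions of a separable reflexive self-similar space with the metric approximation
property have nontrivial hyperinvariant subspaces. -/
theorem typ_contr {p : ℝ} (hp : 1 < p) [CompleteSpace E] [Nontrivial E] [SeparableSpace E]
    (hE : Reflexive E) (hM : MetricAP E) (hS : SelfSum p E) :
    @IsCompletelyMetrizableSpace (Contr E) (StrongStar E) ∧
      @BaireSpace (Contr E) (StrongStar E) ∧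
      {T : Contr E | DenselyHyperinvariant (T : E →L[ℂ] E)} ∈
        @residual (Contr E) (StrongStar E) := by
  haveI := separable_dual hE
  have hcm := strongStar_cm hE
  letI : TopologicalSpace (Contr E) := StrongStar E
  haveI := hcm
  have hB : BaireSpace (Contr E) := inferInstance
  refine ⟨hcm, hB, ?_⟩
  have h := typ_hyp hE (Real.HolderConjugate.conjExponent hp) bw_contr
    (stp_contr (by linarith) hE hM hS)
  exact Filter.mem_of_superset h fun w hw => hyp_of_goodH hw

end Pool.Agent.J6H45.TV
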