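import Pool.Agent.J6H45.TV.G

/-!
# The spaces `ℓ_p(Y)`

`func_tail` and `lp_reflexive` are complex versions of the lemmas of the starting file `H621R3.WS1`.
-/

set_option autoImplicit false
open Finset Filter Topology TopologicalSpace
open scoped ENNReal

namespace Pool.Agent.J6H45.TV

/-- The space `ℓ_P(Y)`. -/
abbrev LY (P : ℝ≥0∞) (Y : Type*) [NormedAddCommGroup Y] := lp (fun _ : ℕ => Y) P

variable {Y : Type*} [NormedAddCommGroup Y] [NormedSpace ℂ Y] {P : ℝ≥0∞} [hP : Fact (1 ≤ P)]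

/-- Move the coordinate `β i` to the place `α i`, after applying `R`, for all `i ∈ s`. -/
noncomputable def Mv (P : ℝ≥0∞) [Fact (1 ≤ P)] {ι : Type*} (s : Finset ι) (α β : ι → ℕ)
    (R : Y →L[ℂ] Y) : LY P Y →L[ℂ] LY P Y :=
  ∑ i ∈ s, (lp.singleContinuousLinearMap ℂ (fun _ : ℕ => Y) P (α i)).comp
    (R.comp (lp.evalCLM ℂ (fun _ : ℕ => Y) P (β i)))

variable {ι : Type*}

lemma Mv_apply (s : Finset ι) (α β : ι → ℕ) (R : Y →L[ℂ] Y) (f : LY P Y) :
    Mv P s α β R f = ∑ i ∈ s, lp.single P (α i) (R (f (β i))) := by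
  simp only [Mv, _root_.sum_apply]
  rfl

lemma toReal_pos' (hPt : P ≠ ∞) : 0 < P.toReal :=
  ENNReal.toReal_pos (zero_lt_one.trans_le hP.out).ne' hPt

lemma norm_sum_inj (hPt : P ≠ ∞) (s : Finset ι) {α : ι → ℕ} (hα : Set.InjOn α s) (v : ι → Y) :
    ‖∑ i ∈ s, (lp.single P (α i) (v i) : LY P Y)‖ ^ P.toReal = ∑ i ∈ s, ‖v i‖ ^ P.toReal := by
  classical
  set g : ℕ → Y := fun j => ∑ i ∈ s with α i = j, v i with hg
  have hgi : ∀ i ∈ s, g (α i) = v i := by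
    intro i hi
    rw [hg]
    beta_reduce
    have e : s.filter (fun k => α k = α i) = {i} := by
      ext k
      simp only [mem_filter, mem_singleton]
      constructor
      · rintro ⟨h1, h2⟩
        exact hα h1 hi h2
      · rintro rfl
        exact ⟨hi, rfl⟩
    rw [e, sum_singleton]
  have e1 : ∑ i ∈ s, (lp.single P (α i) (v i) : LY P Y) =
      ∑ j ∈ s.image α, lp.single P j (g j) := by
    rw [sum_image hα]
    refine sum_congr rfl fun i hi => ?_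
    rw [hgi i hi]
  rw [e1, lp.norm_sum_single (toReal_pos' hPt) g (s.image α), sum_image hα]
  refine sum_congr rfl fun i hi => ?_
  rw [hgi i hi]

lemma Mv_pow (hPt : P ≠ ∞) (s : Finset ι) {α : ι → ℕ} (hα : Set.InjOn α s) (β : ι → ℕ)
    (R : Y →L[ℂ] Y) (f : LY P Y) :
    ‖Mv P s α β R f‖ ^ P.toReal = ∑ i ∈ s, ‖R (f (β i))‖ ^ P.toReal := by
  rw [Mv_apply, norm_sum_inj hPt s hα]

lemma sum_coord_le (hPt : P ≠ ∞) (s : Finset ι) {β : ι → ℕ} (hβ : Set.InjOn β s) (f : LY P Y) :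
    ∑ i ∈ s, ‖f (β i)‖ ^ P.toReal ≤ ‖f‖ ^ P.toReal := by
  classical
  rw [← sum_image (f := fun j => ‖f j‖ ^ P.toReal) hβ]
  exact lp.sum_rpow_le_norm_rpow (toReal_pos' hPt) f _

lemma Mv_le (hPt : P ≠ ∞) (s : Finset ι) {α β : ι → ℕ} (hα : Set.InjOn α s)
    (hβ : Set.InjOn β s) {R : Y →L[ℂ] Y} (hR : ‖R‖ ≤ 1) : ‖Mv P s α β R‖ ≤ 1 := by
  refine ContinuousLinearMap.opNorm_le_bound _ zero_le_one fun f => ?_
  rw [one_mul]
  refine (Real.rpow_le_rpow_iff (norm_nonneg _) (norm_nonneg _) (toReal_pos' hPt)).1 ?_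
  rw [Mv_pow hPt s hα]
  refine le_trans (sum_le_sum fun i _ => ?_) (sum_coord_le hPt s hβ f)
  exact Real.rpow_le_rpow (norm_nonneg _) (((R.le_opNorm _)).trans
    (mul_le_of_le_one_left (norm_nonneg _) hR)) (toReal_pos' hPt).le

/-- Truncation to a finite set of coordinates. -/
noncomputable def Tr (P : ℝ≥0∞) [Fact (1 ≤ P)] (Y : Type*) [NormedAddCommGroup Y]
    [NormedSpace ℂ Y] (s : Finset ℕ) : LY P Y →L[ℂ] LY P Y :=
  Mv P s id id 1

lemma Tr_apply (s : Finset ℕ) (f : LY P Y) : Tr P Y s f = ∑ i ∈ s, lp.single P i (f i) := by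
  rw [Tr, Mv_apply]; rfl

lemma Tr_coe (s : Finset ℕ) (f : LY P Y) (i : ℕ) :
    (Tr P Y s f) i = if i ∈ s then f i else 0 := by
  rw [Tr_apply]
  simp only [lp.coeFn_sum, lp.coeFn_single, Finset.sum_apply, Finset.sum_pi_single]

lemma Tr_Tr (s t : Finset ℕ) (f : LY P Y) : Tr P Y s (Tr P Y t f) = Tr P Y (s ∩ t) f := by
  apply lp.ext
  funext i
  rw [Tr_coe, Tr_coe, Tr_coe]
  by_cases h1 : i ∈ s <;> by_cases h2 : i ∈ t <;> simp [h1, h2]

lemma Tr_pow (hPt : P ≠ ∞) (s : Finset ℕ) (f : LY P Y) :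
    ‖Tr P Y s f‖ ^ P.toReal = ∑ i ∈ s, ‖f i‖ ^ P.toReal := by
  rw [Tr_apply]
  exact lp.norm_sum_single (toReal_pos' hPt) (fun i => f i) s

lemma Tr_split (hPt : P ≠ ∞) (s : Finset ℕ) (f : LY P Y) :
    ‖f‖ ^ P.toReal = ‖Tr P Y s f‖ ^ P.toReal + ‖f - Tr P Y s f‖ ^ P.toReal := by
  have h := lp.norm_compl_sum_single (toReal_pos' hPt) f s
  rw [← Tr_apply] at h
  rw [h, Tr_pow hPt]
  ring

lemma Tr_le (hPt : P ≠ ∞) (s : Finset ℕ) (f : LY P Y) : ‖Tr P Y s f‖ ≤ ‖f‖ := by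
  have h := Tr_split hPt s f
  have h2 : 0 ≤ ‖f - Tr P Y s f‖ ^ P.toReal := Real.rpow_nonneg (norm_nonneg _) _
  exact (Real.rpow_le_rpow_iff (norm_nonneg _) (norm_nonneg _) (toReal_pos' hPt)).1 (by linarith)

lemma Trc_le (hPt : P ≠ ∞) (s : Finset ℕ) (f : LY P Y) : ‖f - Tr P Y s f‖ ≤ ‖f‖ := by
  have h := Tr_split hPt s f
  have h2 : 0 ≤ ‖Tr P Y s f‖ ^ P.toReal := Real.rpow_nonneg (norm_nonneg _) _
  exact (Real.rpow_le_rpow_iff (norm_nonneg _) (norm_nonneg _) (toReal_pos' hPt)).1 (by linarith)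

lemma Tr_tendsto (hPt : P ≠ ∞) (f : LY P Y) :
    Tendsto (fun s : Finset ℕ => Tr P Y s f) atTop (𝓝 f) := by
  have h := lp.hasSum_single hPt f
  rw [HasSum] at h
  simpa [Tr_apply] using h

lemma Tr_add (hPt : P ≠ ∞) (s : Finset ℕ) (x w : LY P Y) (hx : Tr P Y s x = x)
    (hw : Tr P Y s w = 0) : ‖x + w‖ ^ P.toReal = ‖x‖ ^ P.toReal + ‖w‖ ^ P.toReal := by
  rw [Tr_split hPt s (x + w), map_add, hx, hw]
  simp

lemma ev_pow {a α β : ℝ} (ha : 0 < a) (hαβ : β < α) (hα : 0 < α) (b c : ℝ) :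
    ∀ᶠ N : ℕ in atTop, b * (N : ℝ) ^ β + c ≤ a * (N : ℝ) ^ α := by
  have h1 : Tendsto (fun N : ℕ => (N : ℝ) ^ (-(α - β))) atTop (𝓝 0) :=
    (tendsto_rpow_neg_atTop (by linarith : 0 < α - β)).comp tendsto_natCast_atTop_atTop
  have h2 : Tendsto (fun N : ℕ => (N : ℝ) ^ (-α)) atTop (𝓝 0) :=
    (tendsto_rpow_neg_atTop hα).comp tendsto_natCast_atTop_atTop
  have h3 : Tendsto (fun N : ℕ => b * (N : ℝ) ^ (-(α - β)) + c * (N : ℝ) ^ (-α)) atTop (𝓝 0) := by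
    simpa using (h1.const_mul b).add (h2.const_mul c)
  filter_upwards [h3.eventually (gt_mem_nhds ha), eventually_gt_atTop 0] with N hN hN0
  have hNp : (0 : ℝ) < N := by exact_mod_cast hN0
  have h4 : (b * (N : ℝ) ^ (-(α - β)) + c * (N : ℝ) ^ (-α)) * (N : ℝ) ^ α
      = b * (N : ℝ) ^ β + c := by
    rw [add_mul, mul_assoc, mul_assoc, ← Real.rpow_add hNp, ← Real.rpow_add hNp]
    simp
  rw [← h4]
  exact mul_le_mul_of_nonneg_right hN.le (Real.rpow_nonneg hNp.le _)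

lemma exists_phase (z : ℂ) : ∃ c : ℂ, ‖c‖ = 1 ∧ c * z = (‖z‖ : ℂ) := by
  by_cases hz : z = 0
  · exact ⟨1, norm_one, by simp [hz]⟩
  · have hn : (‖z‖ : ℂ) ≠ 0 := by
      rw [Complex.ofReal_ne_zero]; exact norm_ne_zero_iff.2 hz
    refine ⟨(‖z‖ : ℂ) / z, ?_, div_mul_cancel₀ _ hz⟩
    rw [norm_div, Complex.norm_real, norm_norm, div_self (norm_ne_zero_iff.2 hz)]

lemma func_tail (hPt : P ≠ ∞) (h1 : 1 < P.toReal) (g : StrongDual ℂ (LY P Y)) :
    Tendsto (fun s : Finset ℕ => ‖g - g.comp (Tr P Y s)‖) atTop (𝓝 0) := by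
  by_contra hcon
  obtain ⟨δ, hδ, hfr⟩ : ∃ δ : ℝ, 0 < δ ∧ ∀ s₀ : Finset ℕ, ∃ s, s₀ ⊆ s ∧
      δ < ‖g - g.comp (Tr P Y s)‖ := by
    by_contra h
    push Not at h
    apply hcon
    rw [Metric.tendsto_atTop]
    intro ε hε
    obtain ⟨s₀, hs⟩ := h (ε / 2) (by positivity)
    refine ⟨s₀, fun s hss => ?_⟩
    have := hs s hss
    rw [Real.dist_eq, sub_zero, abs_of_nonneg (norm_nonneg _)]
    linarith
  have hstep : ∀ s₀ : Finset ℕ, ∃ (s' : Finset ℕ) (w : LY P Y), s₀ ⊆ s' ∧ Tr P Y s' w = w ∧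
      Tr P Y s₀ w = 0 ∧ ‖w‖ ≤ 1 ∧ δ < (g w).re := by
    intro s₀
    obtain ⟨s, hss, hs⟩ := hfr s₀
    obtain ⟨z, hz1, hz⟩ : ∃ z : LY P Y, ‖z‖ ≤ 1 ∧ δ < ((g - g.comp (Tr P Y s)) z).re := by
      by_contra h
      push Not at h
      refine absurd hs (not_lt.2 ?_)
      refine ContinuousLinearMap.opNorm_le_of_unit_norm hδ.le (fun x hx => ?_)
      obtain ⟨c, hc1, hc2⟩ := exists_phase ((g - g.comp (Tr P Y s)) x)
      have h3 := h (c • x) (by rw [norm_smul, hc1, hx, mul_one])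
      rw [map_smul, smul_eq_mul, hc2, Complex.ofReal_re] at h3
      exact h3
    set w := z - Tr P Y s z with hw
    have hgw : δ < (g w).re := by
      have : (g - g.comp (Tr P Y s)) z = g w := by simp [hw]
      rwa [this] at hz
    have hlim : Tendsto (fun s' : Finset ℕ => (g (Tr P Y s' w)).re) atTop (𝓝 (g w).re) :=
      (Complex.continuous_re.tendsto _).comp ((g.continuous.tendsto w).comp (Tr_tendsto hPt w))
    have hev := hlim.eventually (lt_mem_nhds hgw)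
    obtain ⟨s', hs', hs's⟩ := (hev.and (eventually_ge_atTop s)).exists
    have hsub : s₀ ⊆ s' := hss.trans hs's
    refine ⟨s', Tr P Y s' w, hsub, ?_, ?_, ?_, hs'⟩
    · rw [Tr_Tr, Finset.inter_self]
    · rw [Tr_Tr, Finset.inter_eq_left.2 hsub, hw, map_sub, Tr_Tr, Finset.inter_eq_left.2 hss,
        sub_self]
    · exact (Tr_le hPt _ _).trans ((Trc_le hPt _ _).trans hz1)
  have hK : ∀ K : ℕ, ∃ (s : Finset ℕ) (x : LY P Y), Tr P Y s x = x ∧ ‖x‖ ^ P.toReal ≤ K ∧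
      K * δ ≤ (g x).re := by
    intro K
    induction K with
    | zero =>
      refine ⟨∅, 0, by simp, ?_, by simp⟩
      rw [norm_zero, Real.zero_rpow (toReal_pos' hPt).ne']
      simp
    | succ K ih =>
      obtain ⟨s, x, hx1, hx2, hx3⟩ := ih
      obtain ⟨s', w, hss, hw1, hw2, hw3, hw4⟩ := hstep s
      refine ⟨s', x + w, ?_, ?_, ?_⟩
      · rw [map_add, hw1]
        congr 1
        conv_lhs => rw [← hx1]
        rw [Tr_Tr, Finset.inter_eq_right.2 hss, hx1]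
      · rw [Tr_add hPt s x w hx1 hw2]
        have : ‖w‖ ^ P.toReal ≤ 1 := Real.rpow_le_one (norm_nonneg _) hw3 (toReal_pos' hPt).le
        push_cast
        linarith
      · rw [map_add, Complex.add_re]
        push_cast
        linarith
  have hN := ev_pow (a := δ) (α := 1) (β := 1 / P.toReal) hδ
    (by rw [div_lt_one (toReal_pos' hPt)]; exact h1) one_pos ‖g‖ 1
  obtain ⟨N, hN⟩ := hN.exists
  obtain ⟨s, x, -, hx2, hx3⟩ := hK N
  have hx4 : ‖x‖ ≤ (N : ℝ) ^ (1 / P.toReal) := by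
    rw [← Real.rpow_le_rpow_iff (norm_nonneg _) (by positivity) (toReal_pos' hPt),
      ← Real.rpow_mul (by positivity), one_div_mul_cancel (toReal_pos' hPt).ne', Real.rpow_one]
    exact hx2
  have hx5 : (g x).re ≤ ‖g‖ * (N : ℝ) ^ (1 / P.toReal) :=
    (Complex.re_le_norm _).trans ((g.le_opNorm x).trans (by gcongr))
  rw [Real.rpow_one] at hN
  linarith

theorem lp_reflexive (hPt : P ≠ ∞) (h1 : 1 < P.toReal) (hY : Reflexive Y) :
    Reflexive (LY P Y) := by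
  intro Φ
  let D : ∀ _ : ℕ, StrongDual ℂ Y →L[ℂ] StrongDual ℂ (LY P Y) := fun n =>
    (ContinuousLinearMap.compL ℂ (LY P Y) Y ℂ).flip (lp.evalCLM ℂ (fun _ : ℕ => Y) P n)
  have hDa : ∀ n (ψ : StrongDual ℂ Y) (y : LY P Y), D n ψ y = ψ (y n) := fun n ψ y => rfl
  have hch : ∀ n, ∃ x : Y, ∀ ψ : StrongDual ℂ Y, ψ x = Φ (D n ψ) := by
    intro n
    obtain ⟨x, hx⟩ := hY ((Φ : StrongDual ℂ (LY P Y) →L[ℂ] ℂ).comp (D n))
    exact ⟨x, fun ψ => (hx ψ).symm⟩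
  choose x hx using hch
  -- functional identity on truncations
  have key : ∀ (s : Finset ℕ) (g : StrongDual ℂ (LY P Y)),
      Φ (g.comp (Tr P Y s)) = g (∑ i ∈ s, lp.single P i (x i)) := by
    intro s g
    have e1 : g.comp (Tr P Y s) =
        ∑ i ∈ s, D i (g.comp (lp.singleContinuousLinearMap ℂ (fun _ : ℕ => Y) P i)) := by
      ext y
      simp only [ContinuousLinearMap.comp_apply, Tr_apply, map_sum, _root_.sum_apply,
        hDa, lp.singleContinuousLinearMap_apply]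
    rw [e1, map_sum, map_sum]
    refine Finset.sum_congr rfl (fun i _ => ?_)
    rw [← hx i]
    simp
  have hmem : Memℓp x P := by
    refine memℓp_gen' (C := ‖Φ‖ ^ P.toReal) (fun s => ?_)
    rw [← lp.norm_sum_single (toReal_pos' hPt) x s]
    apply Real.rpow_le_rpow (norm_nonneg _) _ (toReal_pos' hPt).le
    set v := ∑ i ∈ s, lp.single P i (x i) with hv
    obtain ⟨h, hh1, hh2⟩ := exists_dual_vector'' ℂ v
    have h3 := key s h
    rw [← hv] at h3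
    have h4 : ‖h.comp (Tr P Y s)‖ ≤ 1 := by
      refine ContinuousLinearMap.opNorm_le_bound _ zero_le_one (fun y => ?_)
      rw [ContinuousLinearMap.comp_apply]
      calc ‖h (Tr P Y s y)‖ ≤ ‖h‖ * ‖Tr P Y s y‖ := h.le_opNorm _
        _ ≤ 1 * ‖y‖ := by
          apply mul_le_mul hh1 (Tr_le hPt _ _) (norm_nonneg _) zero_le_one
    calc ‖v‖ = ‖h v‖ := by rw [hh2, RCLike.norm_ofReal, abs_of_nonneg (norm_nonneg _)]
      _ = ‖Φ (h.comp (Tr P Y s))‖ := by rw [h3]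
      _ ≤ ‖Φ‖ * ‖h.comp (Tr P Y s)‖ := Φ.le_opNorm _
      _ ≤ ‖Φ‖ := mul_le_of_le_one_right Φ.opNorm_nonneg h4
  refine ⟨⟨x, hmem⟩, fun g => ?_⟩
  have hxs : ∀ s : Finset ℕ, ∑ i ∈ s, lp.single P i (x i) = Tr P Y s ⟨x, hmem⟩ := by
    intro s
    rw [Tr_apply]
  have l1 : Tendsto (fun s : Finset ℕ => Φ (g.comp (Tr P Y s))) atTop (𝓝 (g ⟨x, hmem⟩)) := by
    have := (g.continuous.tendsto _).comp (Tr_tendsto hPt (⟨x, hmem⟩ : LY P Y))
    refine this.congr (fun s => ?_)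
    simp only [Function.comp]
    rw [key, hxs]
  have l2 : Tendsto (fun s : Finset ℕ => Φ (g.comp (Tr P Y s))) atTop (𝓝 (Φ g)) := by
    rw [tendsto_iff_norm_sub_tendsto_zero]
    have h3 : ∀ s : Finset ℕ, ‖Φ (g.comp (Tr P Y s)) - Φ g‖ ≤ ‖Φ‖ * ‖g - g.comp (Tr P Y s)‖ := by
      intro s
      rw [norm_sub_rev, ← map_sub]
      exact Φ.le_opNorm _
    refine squeeze_zero (fun s => norm_nonneg _) h3 ?_
    simpa using (func_tail hPt h1 g).const_mul ‖Φ‖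
  exact (tendsto_nhds_unique l1 l2).symm

theorem lp_separable (hPt : P ≠ ∞) [SeparableSpace Y] : SeparableSpace (LY P Y) := by
  rw [← isSeparable_univ_iff]
  have h1 : IsSeparable
      (⋃ i : ℕ, Set.range (lp.singleContinuousLinearMap ℂ (fun _ : ℕ => Y) P i)) := by
    apply IsSeparable.iUnion
    intro i
    exact isSeparable_range (lp.singleContinuousLinearMap ℂ (fun _ : ℕ => Y) P i).continuous
  have h2 := (h1.span (R := ℂ)).closure
  refine h2.mono (fun f _ => ?_)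
  refine mem_closure_of_tendsto (Tr_tendsto hPt f) (Eventually.of_forall (fun s => ?_))
  rw [Tr_apply]
  apply Submodule.sum_mem
  intro i _
  apply Submodule.subset_span
  exact Set.mem_iUnion.2 ⟨i, ⟨f i, rfl⟩⟩

lemma lp_nontrivial [Nontrivial Y] : Nontrivial (LY P Y) := by
  obtain ⟨y, hy⟩ := exists_ne (0 : Y)
  refine ⟨⟨lp.single P 0 y, 0, fun h => hy ?_⟩⟩
  have h1 := congrArg (fun f : LY P Y => f 0) h
  simpa using h1

end Pool.Agent.J6H45.TV
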