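import Pool.Agent.J6H45.TV.I
import Pool.Agent.J6H45.TV.H

/-!
# `ℓ_p(Y)` is self-similar and inherits the metric approximation property
-/

set_option autoImplicit false
open Finset Filter Topology TopologicalSpace
open scoped ENNReal

namespace Pool.Agent.J6H45.TV

variable {Y : Type*} [NormedAddCommGroup Y] [NormedSpace ℂ Y] {P : ℝ≥0∞} [hP : Fact (1 ≤ P)]

lemma sum_rpow_le_sum {ι : Type*} {p : ℝ} (hp : 1 ≤ p) (s : Finset ι) (a : ι → ℝ)
    (ha : ∀ i ∈ s, 0 ≤ a i) : ∑ i ∈ s, a i ^ p ≤ (∑ i ∈ s, a i) ^ p := by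
  classical
  induction s using Finset.induction_on with
  | empty => simp [Real.zero_rpow (by linarith : p ≠ 0)]
  | insert b t hb ih =>
    rw [sum_insert hb, sum_insert hb]
    have h1 := ih fun i hi => ha i (mem_insert_of_mem hi)
    have h2 : 0 ≤ ∑ i ∈ t, a i := sum_nonneg fun i hi => ha i (mem_insert_of_mem hi)
    have h3 := Real.add_rpow_le_rpow_add (ha b (mem_insert_self b t)) h2 hp
    linarith

lemma metricAP_lp (hPt : P ≠ ∞) (h1 : 1 < P.toReal) (hM : MetricAP Y) : MetricAP (LY P Y) := by
  classical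
  intro X ε hε
  have hε2 : 0 < ε / 2 := by positivity
  have h2 : ∀ᶠ N in atTop, ∀ x ∈ X, ‖Tr P Y (range N) x - x‖ < ε / 2 := by
    rw [eventually_all_finset]
    intro x _
    have h3 := (Tr_tendsto hPt x).comp tendsto_finset_range
    rw [tendsto_iff_norm_sub_tendsto_zero] at h3
    exact h3.eventually (gt_mem_nhds hε2)
  obtain ⟨N, hN⟩ := h2.exists
  obtain ⟨F, hF1, hF2, hF3⟩ := hM ((X ×ˢ range N).image fun z => z.1 z.2) (ε / (2 * (N + 1)))
    (by positivity)
  refine ⟨Mv P (range N) id id F, Mv_le hPt _ Function.injective_id.injOn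
    Function.injective_id.injOn hF1, ?_, ?_⟩
  · haveI : ∀ i : ℕ, FiniteDimensional ℂ ((LinearMap.range (F : Y →ₗ[ℂ] Y)).map
        ((lp.singleContinuousLinearMap ℂ (fun _ : ℕ => Y) P i : Y →L[ℂ] LY P Y) :
          Y →ₗ[ℂ] LY P Y)) := fun i => inferInstance
    haveI : FiniteDimensional ℂ (⨆ i ∈ range N, (LinearMap.range (F : Y →ₗ[ℂ] Y)).map
        ((lp.singleContinuousLinearMap ℂ (fun _ : ℕ => Y) P i : Y →L[ℂ] LY P Y) :
          Y →ₗ[ℂ] LY P Y) : Submodule ℂ (LY P Y)) :=
      Submodule.finiteDimensional_finset_sup _ _ |> fun h => by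
        rw [← Finset.sup_eq_iSup]; exact h
    refine Submodule.finiteDimensional_of_le (S₂ := ⨆ i ∈ range N,
      (LinearMap.range (F : Y →ₗ[ℂ] Y)).map
        ((lp.singleContinuousLinearMap ℂ (fun _ : ℕ => Y) P i : Y →L[ℂ] LY P Y) :
          Y →ₗ[ℂ] LY P Y)) ?_
    rintro _ ⟨x, rfl⟩
    have e : (Mv P (range N) id id F : LY P Y →ₗ[ℂ] LY P Y) x =
        ∑ i ∈ range N, lp.single P i (F (x i)) := Mv_apply _ _ _ _ _
    rw [e]
    refine Submodule.sum_mem _ fun i hi => ?_
    refine Submodule.mem_iSup_of_mem i (Submodule.mem_iSup_of_mem hi ?_)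
    exact ⟨F (x i), ⟨x i, rfl⟩, rfl⟩
  · intro x hx
    have e : Mv P (range N) id id F x - x = (Mv P (range N) id id F x - Tr P Y (range N) x) +
        (Tr P Y (range N) x - x) := by abel
    rw [e]
    refine (norm_add_le _ _).trans ?_
    have h4 : ‖Mv P (range N) id id F x - Tr P Y (range N) x‖ ≤ ε / 2 := by
      rw [Mv_apply, Tr_apply, ← sum_sub_distrib]
      refine (norm_sum_le _ _).trans ?_
      have h5 : ∀ i ∈ range N, ‖(lp.single P (id i) (F (x (id i))) : LY P Y) -
          lp.single P i (x i)‖ ≤ ε / (2 * (N + 1)) := by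
        intro i hi
        have e2 : (lp.single P (id i) (F (x (id i))) : LY P Y) - lp.single P i (x i) =
            lp.single P i (F (x i) - x i) := by
          rw [lp.single_sub]; rfl
        rw [e2, lp.norm_single (zero_lt_one.trans_le hP.out)]
        exact hF3 _ (mem_image.2 ⟨(x, i), mem_product.2 ⟨hx, hi⟩, rfl⟩)
      refine (sum_le_sum h5).trans ?_
      rw [sum_const, card_range, nsmul_eq_mul]
      rw [mul_div_assoc', div_le_div_iff₀ (by positivity) (by positivity)]
      nlinarith
    linarith [hN x hx]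

/-- The offset of the `k`-th copy. -/
def off (K N k : ℕ) : ℕ := if k = 0 then 0 else K + k * N

lemma off_inj {K N k j a b : ℕ} (hK : N ≤ K) (ha : a < N) (hb : b < N)
    (h : off K N k + a = off K N j + b) : k = j ∧ a = b := by
  unfold off at h
  by_cases hk : k = 0
  · by_cases hj : j = 0
    · rw [if_pos hk, if_pos hj] at h
      exact ⟨by omega, by omega⟩
    · rw [if_pos hk, if_neg hj] at h
      omega
  · by_cases hj : j = 0
    · rw [if_neg hk, if_pos hj] at h
      omega
    · rw [if_neg hk, if_neg hj] at h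
      have hN : 0 < N := by omega
      have h1 : k * N + a = j * N + b := by omega
      have h2 : k = j := by
        have e1 : (k * N + a) / N = k := by
          rw [mul_comm, Nat.mul_add_div hN, Nat.div_eq_of_lt ha, add_zero]
        have e2 : (j * N + b) / N = j := by
          rw [mul_comm, Nat.mul_add_div hN, Nat.div_eq_of_lt hb, add_zero]
        rw [← e1, ← e2, h1]
      refine ⟨h2, ?_⟩
      rw [h2] at h1
      omega

/-- The embedding of the first `N` coordinates as the `k`-th copy. -/
noncomputable def VV (P : ℝ≥0∞) [Fact (1 ≤ P)] (Y : Type*) [NormedAddCommGroup Y]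
    [NormedSpace ℂ Y] (K N k : ℕ) : LY P Y →L[ℂ] LY P Y :=
  Mv P (range N) (fun i => off K N k + i) id 1

/-- The coordinates of the `k`-th copy. -/
noncomputable def WW (P : ℝ≥0∞) [Fact (1 ≤ P)] (Y : Type*) [NormedAddCommGroup Y]
    [NormedSpace ℂ Y] (K N k : ℕ) : LY P Y →L[ℂ] LY P Y :=
  Mv P (range N) id (fun i => off K N k + i) 1

lemma VV_apply (K N k : ℕ) (f : LY P Y) :
    VV P Y K N k f = ∑ i ∈ range N, lp.single P (off K N k + i) (f i) := by
  rw [VV, Mv_apply]; rfl

lemma WW_apply (K N k : ℕ) (f : LY P Y) :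
    WW P Y K N k f = ∑ i ∈ range N, lp.single P i (f (off K N k + i)) := by
  rw [WW, Mv_apply]; rfl

lemma WW_coe (K N k : ℕ) (f : LY P Y) (j : ℕ) :
    (WW P Y K N k f) j = if j < N then f (off K N k + j) else 0 := by
  rw [WW_apply]
  simp only [lp.coeFn_sum, lp.coeFn_single, Finset.sum_apply]
  by_cases hj : j < N
  · rw [if_pos hj, sum_eq_single_of_mem j (mem_range.2 hj)]
    · simp
    · intro i _ hij
      rw [Pi.single_eq_of_ne hij.symm]
  · rw [if_neg hj]
    refine sum_eq_zero fun i hi => ?_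
    rw [Pi.single_eq_of_ne]
    have := mem_range.1 hi
    omega

lemma VV_coe {K N : ℕ} (hK : N ≤ K) (k : ℕ) (f : LY P Y) {i : ℕ} (hi : i < N) (j : ℕ) :
    (VV P Y K N k f) (off K N j + i) = if j = k then f i else 0 := by
  rw [VV_apply]
  simp only [lp.coeFn_sum, lp.coeFn_single, Finset.sum_apply]
  by_cases hj : j = k
  · rw [if_pos hj, sum_eq_single_of_mem i (mem_range.2 hi)]
    · subst hj
      rw [Pi.single_eq_same]
    · intro a _ hai
      rw [Pi.single_eq_of_ne]
      rw [hj]
      omega
  · rw [if_neg hj]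
    refine sum_eq_zero fun a ha => ?_
    rw [Pi.single_eq_of_ne]
    intro h
    exact hj (off_inj hK hi (mem_range.1 ha) h).1

lemma off_injOn {K N k : ℕ} : Set.InjOn (fun i => off K N k + i) (range N : Finset ℕ) :=
  fun a _ b _ h => by simpa using h

lemma copies_lp (hPt : P ≠ ∞) {K N : ℕ} (hK : N ≤ K) (n : ℕ) :
    Copies P.toReal (Tr P Y (range N)) n (VV P Y K N) (WW P Y K N) := by
  have h0 : off K N 0 = 0 := rfl
  refine ⟨?_, ?_, ?_, ?_, ?_, ?_, ?_⟩
  · refine ContinuousLinearMap.ext fun f => ?_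
    rw [VV_apply, Tr_apply, h0]
    exact sum_congr rfl fun i _ => by rw [zero_add]
  · refine ContinuousLinearMap.ext fun f => ?_
    rw [WW_apply, Tr_apply, h0]
    exact sum_congr rfl fun i _ => by rw [zero_add]
  · intro k _
    refine ContinuousLinearMap.ext fun f => ?_
    apply lp.ext
    funext j
    change (Tr P Y (range N) (WW P Y K N k f)) j = _
    rw [Tr_coe, WW_coe]
    by_cases hj : j < N
    · rw [if_pos (mem_range.2 hj)]
    · rw [if_neg (fun h => hj (mem_range.1 h)), if_neg hj]
  · intro k _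
    refine ContinuousLinearMap.ext fun f => ?_
    change VV P Y K N k (Tr P Y (range N) f) = _
    rw [VV_apply, VV_apply]
    refine sum_congr rfl fun i hi => ?_
    rw [Tr_coe, if_pos hi]
  · intro j _ k _
    refine ContinuousLinearMap.ext fun f => ?_
    apply lp.ext
    funext i
    change (WW P Y K N j (VV P Y K N k f)) i = _
    rw [WW_coe]
    by_cases hi : i < N
    · rw [if_pos hi, VV_coe hK k f hi j]
      split_ifs with hjk
      · rw [Tr_coe, if_pos (mem_range.2 hi)]
      · rfl
    · rw [if_neg hi]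
      split_ifs with hjk
      · rw [Tr_coe, if_neg (fun h => hi (mem_range.1 h))]
      · rfl
  · intro z
    have e : ∑ k ∈ range (n + 1), VV P Y K N k (z k) =
        ∑ a ∈ range (n + 1) ×ˢ range N,
          (lp.single P (off K N a.1 + a.2) (z a.1 a.2) : LY P Y) := by
      rw [sum_product]
      exact sum_congr rfl fun k _ => VV_apply _ _ _ _
    rw [e, norm_sum_inj hPt (range (n + 1) ×ˢ range N)
      (α := fun a : ℕ × ℕ => off K N a.1 + a.2) ?_ (fun a => z a.1 a.2), sum_product]
    · refine sum_le_sum fun k _ => ?_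
      exact sum_coord_le hPt (range N) (β := id) Function.injective_id.injOn (z k)
    · rintro ⟨k, a⟩ hka ⟨j, b⟩ hjb h
      have h1 := mem_range.1 (mem_product.1 (mem_coe.1 hka)).2
      have h2 := mem_range.1 (mem_product.1 (mem_coe.1 hjb)).2
      obtain ⟨h3, h4⟩ := off_inj hK h1 h2 h
      exact Prod.ext h3 h4
  · intro x
    have e : ∀ k, ‖WW P Y K N k x‖ ^ P.toReal =
        ∑ i ∈ range N, ‖x (off K N k + i)‖ ^ P.toReal := by
      intro k
      rw [WW, Mv_pow hPt (range N) Function.injective_id.injOn]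
      rfl
    simp only [e]
    rw [← sum_product (f := fun a : ℕ × ℕ => ‖x (off K N a.1 + a.2)‖ ^ P.toReal)]
    refine sum_coord_le hPt (range (n + 1) ×ˢ range N)
      (β := fun a : ℕ × ℕ => off K N a.1 + a.2) ?_ x
    rintro ⟨k, a⟩ hka ⟨j, b⟩ hjb h
    have h1 := mem_range.1 (mem_product.1 (mem_coe.1 hka)).2
    have h2 := mem_range.1 (mem_product.1 (mem_coe.1 hjb)).2
    obtain ⟨h3, h4⟩ := off_inj hK h1 h2 h
    exact Prod.ext h3 h4

lemma selfSum_lp (hPt : P ≠ ∞) (h1 : 1 < P.toReal) : SelfSum P.toReal (LY P Y) := by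
  intro X G ε hε
  have hX : ∀ (X : Finset (LY P Y)) {ε : ℝ}, 0 < ε → ∀ᶠ N in atTop, ∀ x ∈ X,
      ‖Tr P Y (range N) x - x‖ < ε := by
    intro X ε hε
    rw [eventually_all_finset]
    intro x _
    have h3 := (Tr_tendsto hPt x).comp tendsto_finset_range
    rw [tendsto_iff_norm_sub_tendsto_zero] at h3
    exact h3.eventually (gt_mem_nhds hε)
  have hG : ∀ (G : Finset (StrongDual ℂ (LY P Y))) {ε : ℝ}, 0 < ε → ∀ᶠ N in atTop, ∀ g ∈ G,
      ‖g - g.comp (Tr P Y (range N))‖ < ε := by
    intro G ε hε
    rw [eventually_all_finset]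
    intro g _
    exact ((func_tail hPt h1 g).comp tendsto_finset_range).eventually (gt_mem_nhds hε)
  obtain ⟨N, hN1, hN2⟩ := ((hX X hε).and (hG G hε)).exists
  refine ⟨Tr P Y (range N), fun x hx => (hN1 x hx).le, fun y hy => ?_, ?_⟩
  · rw [norm_sub_rev]; exact (hN2 y hy).le
  · intro n X' G' ε' hε'
    obtain ⟨K, ⟨hK1, hK2⟩, hK3⟩ := (((hX X' hε').and (hG G' hε')).and
      (eventually_ge_atTop N)).exists
    refine ⟨VV P Y K N, WW P Y K N, copies_lp hPt hK3 n, ?_, ?_⟩
    · intro x hx k hk1 _
      have e : WW P Y K N k x = - WW P Y K N k (Tr P Y (range K) x - x) := by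
        have h2 : WW P Y K N k (Tr P Y (range K) x) = 0 := by
          apply lp.ext
          funext j
          rw [WW_coe, Tr_coe]
          by_cases hj : j < N
          · rw [if_pos hj, if_neg]
            · rfl
            · rw [mem_range, off, if_neg (by omega)]
              omega
          · rw [if_neg hj]; rfl
        rw [map_sub, h2, zero_sub, neg_neg]
      rw [e, norm_neg]
      refine ((WW P Y K N k).le_of_opNorm_le (Mv_le hPt _ Function.injective_id.injOn off_injOn
        ContinuousLinearMap.norm_id_le) _).trans ?_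
      rw [one_mul]
      exact (hK1 x hx).le
    · intro y hy k hk1 _
      have e : y.comp (VV P Y K N k) = (y - y.comp (Tr P Y (range K))).comp (VV P Y K N k) := by
        have h2 : (Tr P Y (range K)).comp (VV P Y K N k) = 0 := by
          refine ContinuousLinearMap.ext fun f => ?_
          apply lp.ext
          funext j
          change (Tr P Y (range K) (VV P Y K N k f)) j = 0
          rw [Tr_coe]
          split_ifs with hj
          · rw [VV_apply]
            simp only [lp.coeFn_sum, lp.coeFn_single, Finset.sum_apply]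
            refine sum_eq_zero fun i _ => ?_
            rw [Pi.single_eq_of_ne]
            have := mem_range.1 hj
            rw [off, if_neg (by omega)]
            omega
          · rfl
        rw [ContinuousLinearMap.sub_comp, ContinuousLinearMap.comp_assoc, h2,
          ContinuousLinearMap.comp_zero, sub_zero]
      rw [e]
      refine (ContinuousLinearMap.opNorm_comp_le _ _).trans ?_
      refine (mul_le_of_le_one_right (norm_nonneg _) (Mv_le hPt _ off_injOn
        Function.injective_id.injOn ContinuousLinearMap.norm_id_le)).trans ?_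
      exact (hK2 y hy).le

/-- **Typical contractions of `ℓ_p(Y)` have nontrivial hyperinvariant subspaces.** -/
theorem typ_lp (hPt : P ≠ ∞) (h1 : 1 < P.toReal) [CompleteSpace Y] [Nontrivial Y]
    [SeparableSpace Y] (hY : Reflexive Y) (hM : MetricAP Y) :
    @IsCompletelyMetrizableSpace (Contr (LY P Y)) (StrongStar (LY P Y)) ∧
      @BaireSpace (Contr (LY P Y)) (StrongStar (LY P Y)) ∧
      {T : Contr (LY P Y) | DenselyHyperinvariant (T : LY P Y →L[ℂ] LY P Y)} ∈
        @residual (Contr (LY P Y)) (StrongStar (LY P Y)) := by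
  haveI := lp_separable (P := P) (Y := Y) hPt
  haveI := lp_nontrivial (P := P) (Y := Y)
  exact typ_contr h1 (lp_reflexive hPt h1 hY) (metricAP_lp hPt h1 hM) (selfSum_lp hPt h1)

end Pool.Agent.J6H45.TV
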