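import Pool.Agent.J6H45.TV.J

/-!
# Classes of contractions of `ℓ_p`
-/

set_option autoImplicit false
open Finset Filter Topology TopologicalSpace Polynomial Pool.Agent.Y280
open scoped ENNReal

namespace Pool.Agent.J6H45.TV

/-- Near every matrix there is one with a separable annihilating polynomial that does not vanish at
zero; the difference is a small nonnegative diagonal matrix. -/
lemma exists_diag_pos {N : ℕ} (M : Matrix (Fin N) (Fin N) ℂ) {τ : ℝ} (hτ : 0 < τ) :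
    ∃ (D : Fin N → ℝ) (χ : ℂ[X]), (∀ i, 0 ≤ D i ∧ D i ≤ τ) ∧
      aeval (M + Matrix.diagonal fun i => (D i : ℂ)) χ = 0 ∧ χ.Separable ∧ χ.coeff 0 ≠ 0 := by
  obtain ⟨s, hs, hs'⟩ := exists_large_sep M (2 * ((N : ℝ) + 1) / τ)
  have hs0 : 0 < s := lt_trans (by positivity) hs
  have hsC : (s : ℂ) ≠ 0 := by exact_mod_cast hs0.ne'
  set χ₀ : ℂ[X] := ((Matrix.diagonal fun i : Fin N => ((i : ℕ) : ℂ)) + (s : ℂ) • M).charpoly with hχ₀
  have hne : χ₀ ≠ 0 := (Matrix.charpoly_monic _).ne_zero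
  obtain ⟨c, hc0, hc1, hc⟩ : ∃ c : ℝ, 0 < c ∧ c ≤ τ / 2 ∧ χ₀.eval (-(s : ℂ) * c) ≠ 0 := by
    by_contra hcon
    push Not at hcon
    apply hne
    apply Polynomial.eq_zero_of_infinite_isRoot
    refine Set.infinite_of_injective_forall_mem
      (f := fun n : ℕ => -(s : ℂ) * ((τ / 2 / ((n : ℝ) + 1) : ℝ) : ℂ)) ?_ ?_
    · intro a b hab
      have h1 : ((τ / 2 / ((a : ℝ) + 1) : ℝ) : ℂ) = ((τ / 2 / ((b : ℝ) + 1) : ℝ) : ℂ) :=
        mul_left_cancel₀ (neg_ne_zero.2 hsC) hab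
      have h2 : τ / 2 / ((a : ℝ) + 1) = τ / 2 / ((b : ℝ) + 1) := Complex.ofReal_injective h1
      have h3 : (a : ℝ) + 1 = b + 1 := by
        field_simp at h2
        linarith
      exact_mod_cast add_right_cancel h3
    · intro n
      refine hcon _ (by positivity) ?_
      refine div_le_self (by positivity) ?_
      have : (0 : ℝ) ≤ n := Nat.cast_nonneg n
      linarith
  refine ⟨fun i => s⁻¹ * (i : ℕ) + c, χ₀.comp (C (s : ℂ) * X + C (-(s : ℂ) * c)), ?_, ?_,
    sep_scale hs' hsC, ?_⟩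
  · intro i
    refine ⟨by positivity, ?_⟩
    have h1 : s⁻¹ * ((i : ℕ) : ℝ) ≤ τ / 2 := by
      rw [inv_mul_le_iff₀ hs0]
      rw [div_lt_iff₀ hτ] at hs
      have h2 : ((i : ℕ) : ℝ) ≤ N := by exact_mod_cast i.2.le
      nlinarith
    linarith
  · rw [aeval_comp]
    have e : aeval (M + Matrix.diagonal fun i : Fin N => ((s⁻¹ * ((i : ℕ) : ℝ) + c : ℝ) : ℂ))
        (C (s : ℂ) * X + C (-(s : ℂ) * c)) =
        (Matrix.diagonal fun i : Fin N => ((i : ℕ) : ℂ)) + (s : ℂ) • M := by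
      rw [map_add, map_mul, aeval_X, aeval_C, aeval_C, Algebra.algebraMap_eq_smul_one,
        Algebra.algebraMap_eq_smul_one, smul_mul_assoc, one_mul]
      ext i j
      simp only [Matrix.add_apply, Matrix.smul_apply, Matrix.diagonal_apply, Matrix.one_apply,
        smul_eq_mul]
      push_cast
      split_ifs
      · field_simp
        ring
      · ring
    rw [e]
    exact Matrix.aeval_self_charpoly _
  · rw [coeff_zero_eq_eval_zero, eval_comp]
    simpa using hc

section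

variable {E : Type*} [NormedAddCommGroup E] [NormedSpace ℂ E]

/-- An operator of finite rank is annihilated by `X χ` if its matrix is annihilated by `χ`. -/
lemma aeval_of_matrix {N : ℕ} (B : E →L[ℂ] E) (f : Fin N → StrongDual ℂ E) (b : Fin N → E)
    (M : Matrix (Fin N) (Fin N) ℂ) (hB : ∀ x, B x = ∑ i, f i x • b i)
    (hM : ∀ i j, f i (b j) = M i j) {χ : ℂ[X]} (hχ : aeval M χ = 0) : aeval B (X * χ) = 0 := by
  have hpow : ∀ (n : ℕ) x, (B ^ (n + 1)) x = ∑ i, ((M ^ n).mulVec fun j => f j x) i • b i := by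
    intro n
    induction n with
    | zero =>
      intro x
      rw [zero_add, pow_one, hB, pow_zero, Matrix.one_mulVec]
    | succ n ih =>
      intro x
      rw [pow_succ', ContinuousLinearMap.mul_apply, ih x, map_sum]
      rw [pow_succ' M, ← Matrix.mulVec_mulVec]
      set c := (M ^ n).mulVec fun j => f j x with hc
      have h1 : ∀ i, B (c i • b i) = ∑ k, (c i * M k i) • b k := by
        intro i
        rw [map_smul, hB, smul_sum]
        refine sum_congr rfl fun k _ => ?_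
        rw [hM, smul_smul]
      rw [sum_congr rfl fun i _ => h1 i, sum_comm]
      refine sum_congr rfl fun k _ => ?_
      rw [← sum_smul]
      congr 1
      rw [Matrix.mulVec, dotProduct]
      exact sum_congr rfl fun i _ => mul_comm _ _
  have hpoly : ∀ (r : ℂ[X]) x, (B * aeval B r) x =
      ∑ i, ((aeval M r).mulVec fun j => f j x) i • b i := by
    intro r
    induction r using Polynomial.induction_on' with
    | add r r' h1 h2 =>
      intro x
      rw [map_add, mul_add, _root_.add_apply, h1, h2, map_add, Matrix.add_mulVec, ← sum_add_distrib]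
      refine sum_congr rfl fun i _ => ?_
      rw [Pi.add_apply, add_smul]
    | monomial n a =>
      intro x
      rw [aeval_monomial, aeval_monomial, Algebra.algebraMap_eq_smul_one,
        Algebra.algebraMap_eq_smul_one, smul_mul_assoc, one_mul, smul_mul_assoc, one_mul,
        mul_smul_comm, ← pow_succ', _root_.smul_apply, hpow, Matrix.smul_mulVec, smul_sum]
      refine sum_congr rfl fun i _ => ?_
      rw [Pi.smul_apply, smul_assoc]
  rw [map_mul, aeval_X]
  ext x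
  rw [hpoly, hχ]
  simp

end

variable {P : ℝ≥0∞} [hP : Fact (1 ≤ P)]

/-- The diagonal operator with the entries `d 0, …, d (N - 1)`. -/
noncomputable def Dg (P : ℝ≥0∞) [Fact (1 ≤ P)] (N : ℕ) (d : ℕ → ℝ) : LY P ℂ →L[ℂ] LY P ℂ :=
  ∑ i ∈ range N, ((d i : ℝ) : ℂ) • ((lp.singleContinuousLinearMap ℂ (fun _ : ℕ => ℂ) P i).comp
    (lp.evalCLM ℂ (fun _ : ℕ => ℂ) P i))

lemma Dg_apply (N : ℕ) (d : ℕ → ℝ) (x : LY P ℂ) :
    Dg P N d x = ∑ i ∈ range N, lp.single P i ((d i : ℂ) * x i) := by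
  simp only [Dg, _root_.sum_apply, _root_.smul_apply]
  refine sum_congr rfl fun i _ => ?_
  rw [← smul_eq_mul, lp.single_smul]
  rfl

lemma Dg_coe (N : ℕ) (d : ℕ → ℝ) (x : LY P ℂ) (i : ℕ) :
    (Dg P N d x) i = if i < N then (d i : ℂ) * x i else 0 := by
  rw [Dg_apply]
  simp only [lp.coeFn_sum, lp.coeFn_single, Finset.sum_apply, Finset.sum_pi_single, mem_range]

lemma Dg_norm (hPt : P ≠ ∞) (N : ℕ) {d : ℕ → ℝ} (hd : ∀ i, 0 ≤ d i ∧ d i ≤ 1) :
    ‖Dg P N d‖ ≤ 1 := by
  refine ContinuousLinearMap.opNorm_le_bound _ zero_le_one fun x => ?_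
  rw [one_mul]
  refine (Real.rpow_le_rpow_iff (norm_nonneg _) (norm_nonneg _) (toReal_pos' hPt)).1 ?_
  rw [Dg_apply, lp.norm_sum_single (toReal_pos' hPt) (fun i => (d i : ℂ) * x i)]
  refine le_trans (sum_le_sum fun i _ => ?_)
    (lp.sum_rpow_le_norm_rpow (toReal_pos' hPt) x (range N))
  refine Real.rpow_le_rpow (norm_nonneg _) ?_ (toReal_pos' hPt).le
  rw [norm_mul, Complex.norm_real, Real.norm_of_nonneg (hd i).1]
  exact mul_le_of_le_one_left (norm_nonneg _) (hd i).2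

/-- Sets of operators on `ℓ_P` which are stable under finite sections, convex combinations, pointwise
limits, and contain the simplest finite matrices. -/
structure Adm (P : ℝ≥0∞) [Fact (1 ≤ P)] (𝒱 : Set (LY P ℂ →L[ℂ] LY P ℂ)) : Prop where
  closed : ∀ (T : ℕ → LY P ℂ →L[ℂ] LY P ℂ) (T0 : LY P ℂ →L[ℂ] LY P ℂ), (∀ m, T m ∈ 𝒱) →
    (∀ x, Tendsto (fun m => T m x) atTop (𝓝 (T0 x))) → T0 ∈ 𝒱
  convex : ∀ S ∈ 𝒱, ∀ T ∈ 𝒱, ∀ t : ℝ, 0 ≤ t → t ≤ 1 →
    (((1 - t : ℝ)) : ℂ) • S + ((t : ℝ) : ℂ) • T ∈ 𝒱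
  trunc : ∀ T ∈ 𝒱, ∀ N : ℕ, Tr P ℂ (range N) * T * Tr P ℂ (range N) ∈ 𝒱
  diag : ∀ (N : ℕ) (d : ℕ → ℝ), (∀ i, 0 ≤ d i ∧ d i ≤ 1) → Dg P N d ∈ 𝒱
  ampl : ∀ T ∈ 𝒱, ∀ K N n : ℕ, N ≤ K →
    ∑ k ∈ range (n + 1), VV P ℂ K N k * T * WW P ℂ K N k ∈ 𝒱
  perm : ∀ (K N n : ℕ) (c : ℕ → ℝ), N ≤ K → (∀ k, 0 ≤ c k ∧ c k ≤ 1) →
    ∑ k ∈ range n, ((c k : ℝ) : ℂ) • (VV P ℂ K N (k + 1) * WW P ℂ K N k) ∈ 𝒱

lemma opn {E : Type*} [NormedAddCommGroup E] [NormedSpace ℂ E] (Q : E →L[ℂ] E) (z : E)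
    (hQ : ‖Q‖ ≤ 1) : ‖Q z‖ ≤ ‖z‖ := by
  have := Q.le_of_opNorm_le hQ z
  rwa [one_mul] at this

/-- The copies of the first `N` coordinates far away. -/
lemma copies_far (hPt : P ≠ ∞) (h1 : 1 < P.toReal) (N n : ℕ) (X' : Finset (LY P ℂ))
    (G' : Finset (StrongDual ℂ (LY P ℂ))) {ε' : ℝ} (hε' : 0 < ε') : ∃ K, N ≤ K ∧
      Copies P.toReal (Tr P ℂ (range N)) n (VV P ℂ K N) (WW P ℂ K N) ∧
        (∀ x ∈ X', ∀ k, 1 ≤ k → k ≤ n → ‖WW P ℂ K N k x‖ ≤ ε') ∧
        (∀ y ∈ G', ∀ k, 1 ≤ k → k ≤ n → ‖y.comp (VV P ℂ K N k)‖ ≤ ε') := by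
  have hX : ∀ᶠ N in atTop, ∀ x ∈ X', ‖Tr P ℂ (range N) x - x‖ < ε' := by
    rw [eventually_all_finset]
    intro x _
    have h3 := (Tr_tendsto hPt x).comp tendsto_finset_range
    rw [tendsto_iff_norm_sub_tendsto_zero] at h3
    exact h3.eventually (gt_mem_nhds hε')
  have hG : ∀ᶠ N in atTop, ∀ g ∈ G', ‖g - g.comp (Tr P ℂ (range N))‖ < ε' := by
    rw [eventually_all_finset]
    intro g _
    exact ((func_tail hPt h1 g).comp tendsto_finset_range).eventually (gt_mem_nhds hε')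
  obtain ⟨K, ⟨hK1, hK2⟩, hK3⟩ := ((hX.and hG).and (eventually_ge_atTop N)).exists
  refine ⟨K, hK3, copies_lp hPt hK3 n, ?_, ?_⟩
  · intro x hx k hk1 _
    have e : WW P ℂ K N k x = - WW P ℂ K N k (Tr P ℂ (range K) x - x) := by
      have h2 : WW P ℂ K N k (Tr P ℂ (range K) x) = 0 := by
        apply lp.ext
        funext j
        rw [WW_coe, Tr_coe]
        by_cases hj : j < N
        · rw [if_pos hj, if_neg]
          · rfl
          · rw [mem_range, off, if_neg (by omega)]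
            omega
        · rw [if_neg hj]; rfl
      rw [map_sub, h2, zero_sub, neg_neg]
    rw [e, norm_neg]
    exact (opn _ _ (Mv_le hPt _ Function.injective_id.injOn off_injOn
      ContinuousLinearMap.norm_id_le)).trans (hK1 x hx).le
  · intro y hy k hk1 _
    have e : y.comp (VV P ℂ K N k) = (y - y.comp (Tr P ℂ (range K))).comp (VV P ℂ K N k) := by
      have h2 : (Tr P ℂ (range K)).comp (VV P ℂ K N k) = 0 := by
        refine ContinuousLinearMap.ext fun f => ?_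
        apply lp.ext
        funext j
        change (Tr P ℂ (range K) (VV P ℂ K N k f)) j = 0
        rw [Tr_coe]
        split_ifs with hj
        · rw [VV_apply]
          simp only [lp.coeFn_sum, lp.coeFn_single, Finset.sum_apply]
          refine sum_eq_zero fun i _ => ?_
          rw [Pi.single_eq_of_ne]
          have := mem_range.1 hj
          rw [off, if_neg (by omega)]
          omega
        · rfl
      rw [ContinuousLinearMap.sub_comp, ContinuousLinearMap.comp_assoc, h2,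
        ContinuousLinearMap.comp_zero, sub_zero]
    rw [e]
    refine (ContinuousLinearMap.opNorm_comp_le _ _).trans ?_
    refine (mul_le_of_le_one_right (norm_nonneg _) (Mv_le hPt _ off_injOn
      Function.injective_id.injOn ContinuousLinearMap.norm_id_le)).trans ?_
    exact (hK2 y hy).le

lemma wt_eq (m : ℕ) (δ w : ℝ) (k : ℕ) : wt m δ w k = ((if k < m then δ else w : ℝ) : ℂ) := by
  unfold wt
  split_ifs <;> rfl

/-- **The approximation property for classes of contractions of `ℓ_P`.** -/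
theorem stp_adm (hPt : P ≠ ∞) (h1 : 1 < P.toReal) {𝒱 : Set (LY P ℂ →L[ℂ] LY P ℂ)}
    (h𝒱 : Adm P 𝒱) : Stp P.toReal {T : LY P ℂ →L[ℂ] LY P ℂ | ‖T‖ ≤ 1 ∧ T ∈ 𝒱} := by
  classical
  have hp := toReal_pos' hPt
  intro T hT X G ε hε
  obtain ⟨hT1, hT2⟩ := hT
  obtain ⟨M, hM0, hMX⟩ := exists_bound X
  obtain ⟨M', hM'0, hMY⟩ := exists_bound G
  set τ : ℝ := min (1 / 2) (ε / (4 * (M + M'))) with hτ
  have hτ0 : 0 < τ := lt_min (by norm_num) (by positivity)
  have hτ1 : τ ≤ 1 / 2 := min_le_left _ _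
  have hτM : τ * (M + M') ≤ ε / 4 := by
    have : τ ≤ ε / (4 * (M + M')) := min_le_right _ _
    rw [le_div_iff₀ (by positivity)] at this
    linarith
  set ε1 : ℝ := ε / 8 with hε1
  have hε10 : 0 < ε1 := by positivity
  have hX : ∀ᶠ N in atTop, ∀ x ∈ X ∪ X.image fun x => T x, ‖Tr P ℂ (range N) x - x‖ < ε1 := by
    rw [eventually_all_finset]
    intro x _
    have h3 := (Tr_tendsto hPt x).comp tendsto_finset_range
    rw [tendsto_iff_norm_sub_tendsto_zero] at h3
    exact h3.eventually (gt_mem_nhds hε10)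
  have hG : ∀ᶠ N in atTop, ∀ g ∈ G ∪ G.image fun g => g.comp T,
      ‖g - g.comp (Tr P ℂ (range N))‖ < ε1 := by
    rw [eventually_all_finset]
    intro g _
    exact ((func_tail hPt h1 g).comp tendsto_finset_range).eventually (gt_mem_nhds hε10)
  obtain ⟨N, hPX, hPY'⟩ := (hX.and hG).exists
  set Q := Tr P ℂ (range N) with hQ
  have hPY : ∀ g ∈ G ∪ G.image fun g => g.comp T, ‖g.comp Q - g‖ < ε1 := fun g hg => by
    rw [norm_sub_rev]; exact hPY' g hg
  have hQn : ‖Q‖ ≤ 1 := Mv_le hPt _ Function.injective_id.injOn Function.injective_id.injOn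
    ContinuousLinearMap.norm_id_le
  have hQQ : Q * Q = Q := by
    refine ContinuousLinearMap.ext fun f => ?_
    change Q (Q f) = Q f
    rw [hQ, Tr_Tr, inter_self]
  set A0 : LY P ℂ →L[ℂ] LY P ℂ := (((1 - τ : ℝ)) : ℂ) • (Q * T * Q) with hA0
  set M0 : Matrix (Fin N) (Fin N) ℂ := Matrix.of fun i j => (A0 (lp.single P (j : ℕ) 1)) i with hM0'
  obtain ⟨D, χ, hD, hχ, hs, hχ0⟩ := exists_diag_pos M0 (show 0 < τ / 2 by positivity)
  set d : ℕ → ℝ := fun i => if h : i < N then D ⟨i, h⟩ / (τ / 2) else 0 with hd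
  have hd1 : ∀ i, 0 ≤ d i ∧ d i ≤ 1 := by
    intro i
    rw [hd]
    beta_reduce
    split_ifs with h
    · exact ⟨div_nonneg (hD _).1 (by positivity), (div_le_one (by positivity)).2 (hD _).2⟩
    · exact ⟨le_rfl, zero_le_one⟩
  set A : LY P ℂ →L[ℂ] LY P ℂ := A0 + (((τ / 2 : ℝ)) : ℂ) • Dg P N d with hA
  have hQD : Q * Dg P N d = Dg P N d := by
    refine ContinuousLinearMap.ext fun f => ?_
    apply lp.ext
    funext j
    change (Q (Dg P N d f)) j = _
    rw [hQ, Tr_coe, Dg_coe]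
    by_cases hj : j < N
    · rw [if_pos (mem_range.2 hj)]
    · rw [if_neg (fun h => hj (mem_range.1 h)), if_neg hj]
  have hDQ : Dg P N d * Q = Dg P N d := by
    refine ContinuousLinearMap.ext fun f => ?_
    apply lp.ext
    funext j
    change (Dg P N d (Q f)) j = _
    rw [Dg_coe, Dg_coe, hQ, Tr_coe]
    by_cases hj : j < N
    · rw [if_pos hj, if_pos (mem_range.2 hj), if_pos hj]
    · rw [if_neg hj, if_neg hj]
  have hQA0 : Q * A0 = A0 := by
    rw [hA0, mul_smul_comm]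
    congr 1
    calc Q * (Q * T * Q) = (Q * Q) * T * Q := by noncomm_ring
      _ = _ := by rw [hQQ]
  have hA0Q : A0 * Q = A0 := by
    rw [hA0, smul_mul_assoc]
    congr 1
    calc Q * T * Q * Q = Q * T * (Q * Q) := by noncomm_ring
      _ = _ := by rw [hQQ]
  have hQA : Q * A = A := by rw [hA, mul_add, hQA0, mul_smul_comm, hQD]
  have hAQ : A * Q = A := by rw [hA, add_mul, hA0Q, smul_mul_assoc, hDQ]
  have hAA0 : ‖A - A0‖ ≤ τ / 2 := by
    rw [hA, add_sub_cancel_left, norm_smul, Complex.norm_real, Real.norm_of_nonneg (by positivity)]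
    exact mul_le_of_le_one_right (by positivity) (Dg_norm hPt N hd1)
  have hQTQ : ‖Q * T * Q‖ ≤ 1 := by
    calc ‖Q * T * Q‖ ≤ ‖Q * T‖ * ‖Q‖ := norm_mul_le _ _
      _ ≤ (‖Q‖ * ‖T‖) * ‖Q‖ := mul_le_mul_of_nonneg_right (norm_mul_le _ _) (norm_nonneg _)
      _ ≤ (1 * 1) * 1 := by gcongr
      _ = 1 := by norm_num
  have hA0n : ‖A0‖ ≤ 1 - τ := by
    rw [hA0, norm_smul, Complex.norm_real, Real.norm_of_nonneg (by linarith)]
    calc (1 - τ) * ‖Q * T * Q‖ ≤ (1 - τ) * 1 := mul_le_mul_of_nonneg_left hQTQ (by linarith)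
      _ = 1 - τ := mul_one _
  have hAn : ‖A‖ ≤ 1 - τ / 2 := by
    have e : A = A0 + (A - A0) := by abel
    rw [e]
    refine (norm_add_le _ _).trans ?_
    linarith
  -- the normalised matrix
  set t : ℝ := τ / 2 / (1 - τ / 2) with ht
  have hτ2 : 0 < 1 - τ / 2 := by linarith
  have ht0 : 0 ≤ t := by positivity
  have ht1 : t ≤ 1 := by
    rw [ht, div_le_one hτ2]
    linarith
  set B : LY P ℂ →L[ℂ] LY P ℂ := (((1 - t : ℝ)) : ℂ) • (Q * T * Q) + ((t : ℝ) : ℂ) • Dg P N d with hB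
  have hB𝒱 : B ∈ 𝒱 := h𝒱.convex _ (h𝒱.trunc T hT2 N) _ (h𝒱.diag N d hd1) t ht0 ht1
  have hAB : A = (((1 - τ / 2 : ℝ)) : ℂ) • B := by
    rw [hB, smul_add, smul_smul, smul_smul, ← Complex.ofReal_mul, ← Complex.ofReal_mul, hA, hA0]
    have e2 : (1 - τ / 2) * t = τ / 2 := by rw [ht, mul_div_cancel₀ _ hτ2.ne']
    have e1 : (1 - τ / 2) * (1 - t) = 1 - τ := by
      have h9 : (1 - τ / 2) * (1 - t) = (1 - τ / 2) - (1 - τ / 2) * t := by ring
      rw [h9, e2]; ring
    rw [e1, e2]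
  have hZ : (0 : LY P ℂ →L[ℂ] LY P ℂ) ∈ 𝒱 := by
    have := h𝒱.diag 0 (fun _ => 0) (fun _ => ⟨le_rfl, zero_le_one⟩)
    simpa [Dg] using this
  have hA𝒱 : A ∈ 𝒱 := by
    have := h𝒱.convex _ hB𝒱 _ hZ (τ / 2) (by positivity) (by linarith)
    rw [smul_zero, add_zero, ← hAB] at this
    exact this
  -- the annihilating polynomial
  have haev : aeval A (Polynomial.X * χ) = 0 := by
    refine aeval_of_matrix A (fun i : Fin N => (lp.evalCLM ℂ (fun _ : ℕ => ℂ) P (i : ℕ)).comp A)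
      (fun i : Fin N => lp.single P (i : ℕ) (1 : ℂ)) _ ?_ ?_ hχ
    · intro x
      have h2 : A x = Q (A x) := (congrArg (fun R : LY P ℂ →L[ℂ] LY P ℂ => R x) hQA).symm
      have h3 : Q (A x) = ∑ i ∈ range N, (A x) i • (lp.single P i (1 : ℂ) : LY P ℂ) := by
        rw [hQ, Tr_apply]
        refine sum_congr rfl fun i _ => ?_
        rw [← lp.single_smul, smul_eq_mul, mul_one]
      rw [h2, h3, ← Fin.sum_univ_eq_sum_range
        (fun i => (A x) i • (lp.single P i (1 : ℂ) : LY P ℂ)) N]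
      rfl
    · intro i j
      change (A (lp.single P (j : ℕ) 1)) i = _
      have h5 : ∀ v : LY P ℂ, (A v) (i : ℕ) =
          (A0 v) (i : ℕ) + ((τ / 2 : ℝ) : ℂ) * (Dg P N d v) (i : ℕ) := fun v => rfl
      rw [h5, Matrix.add_apply, Matrix.diagonal_apply, Dg_coe, if_pos i.2, lp.coeFn_single]
      congr 1
      by_cases hij : i = j
      · subst hij
        rw [if_pos rfl, Pi.single_eq_same, mul_one, hd]
        beta_reduce
        rw [dif_pos i.2, ← Complex.ofReal_mul, mul_div_cancel₀ _ (by positivity)]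
      · rw [if_neg hij, Pi.single_eq_of_ne (fun h => hij (Fin.ext h)), mul_zero, mul_zero]
  have hsep : (Polynomial.X * χ).Separable := by
    refine Separable.mul separable_X hs ?_
    rw [(Polynomial.irreducible_X).coprime_iff_not_dvd, X_dvd_iff]
    exact hχ0
  have hsmall : ∀ {F' : Type _} [NormedAddCommGroup F'] [NormedSpace ℂ F'] (u v t : F'),
      ‖v - t‖ ≤ 3 * ε1 → ‖u - (((1 - τ : ℝ)) : ℂ) • v‖ ≤ τ / 2 * (M + M') → ‖v‖ ≤ M + M' →
      ‖u - t‖ ≤ ε := by
    intro F' _ _ u v t h1 h2 h3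
    have e : u - t = (u - (((1 - τ : ℝ)) : ℂ) • v) + ((v - t) - ((τ : ℝ) : ℂ) • v) := by
      push_cast
      rw [sub_smul, one_smul]
      abel
    rw [e]
    have h4 : ‖((τ : ℝ) : ℂ) • v‖ ≤ τ * (M + M') := by
      rw [norm_smul, Complex.norm_real, Real.norm_of_nonneg hτ0.le]
      exact mul_le_mul_of_nonneg_left h3 hτ0.le
    have h5 := norm_add_le (u - (((1 - τ : ℝ)) : ℂ) • v) ((v - t) - ((τ : ℝ) : ℂ) • v)
    have h6 := norm_sub_le (v - t) (((τ : ℝ) : ℂ) • v)
    linarith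
  refine ⟨A, Q, τ / 2, Polynomial.X * χ, ⟨by linarith, hA𝒱⟩, by positivity, haev, hsep, hQA, hAQ, by linarith,
    ?_, ?_, ?_⟩
  · intro x hx
    have hPx := hPX x (mem_union_left _ hx)
    have hPTx := hPX (T x) (mem_union_right _ (mem_image_of_mem _ hx))
    refine ⟨?_, hPx.le.trans (by linarith)⟩
    have hxM : ‖x‖ ≤ M + M' := (hMX x hx).trans (by linarith)
    refine hsmall (A x) ((Q * T * Q) x) (T x) ?_ ?_ ?_
    · have e : (Q * T * Q) x - T x = Q (T (Q x - x)) + (Q (T x) - T x) := by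
        change Q (T (Q x)) - T x = _
        rw [map_sub, map_sub]
        abel
      rw [e]
      have h1 : ‖Q (T (Q x - x))‖ ≤ ε1 :=
        (opn Q _ hQn).trans ((opn T _ hT1).trans hPx.le)
      have h3 := norm_add_le (Q (T (Q x - x))) (Q (T x) - T x)
      linarith
    · have e : A x - (((1 - τ : ℝ)) : ℂ) • (Q * T * Q) x = (A - A0) x := by
        rw [_root_.sub_apply, hA0, _root_.smul_apply]
      rw [e]
      refine ((A - A0).le_opNorm x).trans ?_
      exact mul_le_mul hAA0 hxM (norm_nonneg _) (by positivity)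
    · exact (opn Q _ hQn).trans ((opn T _ hT1).trans ((opn Q _ hQn).trans hxM))
  · intro y hy
    have hyP := hPY y (mem_union_left _ hy)
    have hyTP := hPY (y.comp T) (mem_union_right _ (mem_image_of_mem _ hy))
    refine ⟨?_, hyP.le.trans (by linarith)⟩
    have hyM : ‖y‖ ≤ M + M' := (hMY y hy).trans (by linarith)
    have hop : ∀ (z : StrongDual ℂ (LY P ℂ)) (R : LY P ℂ →L[ℂ] LY P ℂ), ‖R‖ ≤ 1 →
        ‖z.comp R‖ ≤ ‖z‖ :=
      fun z R hR => (ContinuousLinearMap.opNorm_comp_le _ _).trans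
        (mul_le_of_le_one_right (norm_nonneg _) hR)
    refine hsmall (y.comp A) (y.comp (Q * T * Q)) (y.comp T) ?_ ?_ ?_
    · have e : y.comp (Q * T * Q) - y.comp T = ((y.comp Q - y).comp T).comp Q +
          ((y.comp T).comp Q - y.comp T) := by
        ext z
        simp only [_root_.sub_apply, _root_.add_apply, ContinuousLinearMap.comp_apply,
          mul_apply_eq_comp]
        ring
      rw [e]
      have h1 : ‖((y.comp Q - y).comp T).comp Q‖ ≤ ε1 :=
        (hop _ _ hQn).trans ((hop _ _ hT1).trans hyP.le)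
      have h3 := norm_add_le (((y.comp Q - y).comp T).comp Q) ((y.comp T).comp Q - y.comp T)
      linarith
    · have e : y.comp A - (((1 - τ : ℝ)) : ℂ) • y.comp (Q * T * Q) = y.comp (A - A0) := by
        ext z
        simp only [hA0, _root_.sub_apply, _root_.smul_apply, ContinuousLinearMap.comp_apply,
          map_sub, map_smul, smul_eq_mul]
      rw [e]
      refine (ContinuousLinearMap.opNorm_comp_le _ _).trans ?_
      rw [mul_comm]
      exact mul_le_mul hAA0 hyM (norm_nonneg _) (by positivity)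
    · exact (hop _ _ (by simpa using hQTQ)).trans hyM
  · intro m X' G' ε' hε'
    obtain ⟨K, hNK, hc, hcx, hcy⟩ := copies_far hPt h1 N (m + 1) X' G' hε'
    refine ⟨VV P ℂ K N, WW P ℂ K N, hc, hcx, hcy, ?_⟩
    intro δ hδ hδw
    refine ⟨(norm_TT_le hp hc hδ hδw).trans (by linarith), ?_⟩
    set w : ℝ := τ / 2 with hw
    have hw0 : 0 < w := by positivity
    set c : ℕ → ℝ := fun k => (if k < m then δ else w) / w with hcdef
    have hc01 : ∀ k, 0 ≤ c k ∧ c k ≤ 1 := by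
      intro k
      rw [hcdef]
      beta_reduce
      split_ifs
      · exact ⟨by positivity, (div_le_one hw0).2 hδw⟩
      · exact ⟨by positivity, (div_le_one hw0).2 le_rfl⟩
    have h2 := h𝒱.convex _ (h𝒱.ampl B hB𝒱 K N (m + 1) hNK) _
      (h𝒱.perm K N (m + 1) c hNK hc01) w hw0.le (by linarith)
    have e : TT A m δ w (VV P ℂ K N) (WW P ℂ K N) = (((1 - w : ℝ)) : ℂ) •
        (∑ k ∈ range (m + 1 + 1), VV P ℂ K N k * B * WW P ℂ K N k) + ((w : ℝ) : ℂ) •
        (∑ k ∈ range (m + 1), ((c k : ℝ) : ℂ) • (VV P ℂ K N (k + 1) * WW P ℂ K N k)) := by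
      unfold TT
      rw [smul_sum, smul_sum]
      congr 1
      · refine sum_congr rfl fun k _ => ?_
        rw [hAB, mul_smul_comm, smul_mul_assoc]
      · refine sum_congr rfl fun k _ => ?_
        rw [smul_smul, ← Complex.ofReal_mul, wt_eq]
        congr 2
        rw [hcdef]
        beta_reduce
        field_simp
    rw [e]
    exact h2

end Pool.Agent.J6H45.TV
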