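import Pool.Agent.J6H45.TV.K

/-!
# Typical members of classes of contractions of `ℓ_p`
-/

set_option autoImplicit false
open Finset Filter Topology TopologicalSpace Pool.Agent.Y280
open scoped ENNReal ComplexOrder

namespace Pool.Agent.J6H45.TV

/-- The strong* operator topology on a set of operators: pointwise convergence of the operators and of
their adjoints. -/
@[reducible] noncomputable def StrongStarOn {E : Type*} [NormedAddCommGroup E] [NormedSpace ℂ E]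
    (C : Set (E →L[ℂ] E)) : TopologicalSpace C :=
  TopologicalSpace.induced (fun T : C => ((fun x : E => (T : E →L[ℂ] E) x),
    (fun y : StrongDual ℂ E => y.comp (T : E →L[ℂ] E)))) instTopologicalSpaceProd

section

variable {E : Type*} [NormedAddCommGroup E] [NormedSpace ℂ E]

lemma bw_on (C : Set (E →L[ℂ] E)) : @BW E _ _ C (StrongStarOn C) (fun w => (w : E →L[ℂ] E)) C := by
  letI : TopologicalSpace C := StrongStarOn C
  have hd : Continuous (fun T : C => ((fun x : E => (T : E →L[ℂ] E) x),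
      (fun y : StrongDual ℂ E => y.comp (T : E →L[ℂ] E)))) := continuous_induced_dom
  refine ⟨fun T hT => ⟨⟨T, hT⟩, rfl⟩, fun w => w.2, fun x => ?_, fun y => ?_, ?_⟩
  · exact (continuous_apply x).comp (continuous_fst.comp hd)
  · exact (continuous_apply y).comp (continuous_snd.comp hd)
  · intro w O hO hw
    obtain ⟨O', hO', rfl⟩ := isOpen_induced_iff.1 hO
    obtain ⟨U, V, hU, hV, hwU, hwV, hUV⟩ := isOpen_prod_iff.1 hO' _ _ hw
    obtain ⟨X, ε1, hε1, h1⟩ := pi_nhd hU hwU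
    obtain ⟨Y, ε2, hε2, h2⟩ := pi_nhd hV hwV
    refine ⟨X, Y, min ε1 ε2, lt_min hε1 hε2, fun w' hX hY => hUV ⟨?_, ?_⟩⟩
    · exact h1 _ fun x hx => (hX x hx).trans_le (min_le_left _ _)
    · exact h2 _ fun y hy => (hY y hy).trans_le (min_le_right _ _)

lemma cm_on [CompleteSpace E] [SeparableSpace E] (hE : Reflexive E) {C : Set (E →L[ℂ] E)}
    (hC : ∀ T ∈ C, ‖T‖ ≤ 1)
    (hcl : ∀ (T : ℕ → E →L[ℂ] E) (T0 : E →L[ℂ] E), (∀ m, T m ∈ C) →
      (∀ x, Tendsto (fun m => T m x) atTop (𝓝 (T0 x))) → T0 ∈ C) :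
    @IsCompletelyMetrizableSpace C (StrongStarOn C) := by
  haveI := separable_dual hE
  letI : TopologicalSpace C := StrongStarOn C
  refine cm_abs_star (fun w : C => (w : E →L[ℂ] E)) ⟨rfl⟩ Subtype.val_injective
    (fun w => hC _ w.2) ?_
  intro w T0 hT0
  exact ⟨⟨T0, hcl (fun m => w m) T0 (fun m => (w m).2) hT0⟩, rfl⟩

end

variable {P : ℝ≥0∞} [hP : Fact (1 ≤ P)]

/-- Typical members of a class of contractions of `ℓ_P` have nontrivial hyperinvariant subspaces. -/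
theorem typ_adm (hPt : P ≠ ∞) (h1 : 1 < P.toReal) {𝒱 : Set (LY P ℂ →L[ℂ] LY P ℂ)}
    (h𝒱 : Adm P 𝒱) {C : Set (LY P ℂ →L[ℂ] LY P ℂ)} (hC : C = {T | ‖T‖ ≤ 1 ∧ T ∈ 𝒱}) :
    @IsCompletelyMetrizableSpace C (StrongStarOn C) ∧ @BaireSpace C (StrongStarOn C) ∧
      {T : C | DenselyHyperinvariant (T : LY P ℂ →L[ℂ] LY P ℂ)} ∈
        @residual C (StrongStarOn C) := by
  subst hC
  haveI := lp_separable (P := P) (Y := ℂ) hPt
  haveI := lp_nontrivial (P := P) (Y := ℂ)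
  have hCr : Reflexive ℂ := by
    intro G
    refine ⟨G 1, fun f => ?_⟩
    have h2 : f = f 1 • (1 : StrongDual ℂ ℂ) := by
      ext
      simp
    rw [h2]
    simp
  have hE : Reflexive (LY P ℂ) := lp_reflexive hPt h1 hCr
  haveI := separable_dual hE
  set C : Set (LY P ℂ →L[ℂ] LY P ℂ) := {T | ‖T‖ ≤ 1 ∧ T ∈ 𝒱} with hC
  have hcm := cm_on hE (C := C) (fun T hT => hT.1) (by
    intro T T0 hT hT0
    refine ⟨?_, h𝒱.closed T T0 (fun m => (hT m).2) hT0⟩
    refine ContinuousLinearMap.opNorm_le_bound _ zero_le_one fun x => ?_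
    exact le_of_tendsto (hT0 x).norm (Eventually.of_forall fun i =>
      ((T i).le_opNorm _).trans (mul_le_mul_of_nonneg_right (hT i).1 (norm_nonneg _))))
  letI : TopologicalSpace C := StrongStarOn C
  haveI := hcm
  have hB : BaireSpace C := inferInstance
  refine ⟨hcm, hB, ?_⟩
  have h := typ_hyp hE (Real.HolderConjugate.conjExponent h1) (bw_on C) (stp_adm hPt h1 h𝒱)
  exact Filter.mem_of_superset h fun w hw => hyp_of_goodH hw

/-! ### Coordinates -/

lemma VV_coe' (K N k : ℕ) (f : LY P ℂ) (j : ℕ) :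
    (VV P ℂ K N k f) j = ∑ i ∈ range N, if off K N k + i = j then f i else 0 := by
  rw [VV_apply]
  simp only [lp.coeFn_sum, lp.coeFn_single, Finset.sum_apply]
  refine sum_congr rfl fun i _ => ?_
  by_cases h : off K N k + i = j
  · rw [if_pos h, h, Pi.single_eq_same]
  · rw [if_neg h, Pi.single_eq_of_ne (fun h' => h h'.symm)]

lemma gather_coe (K N n : ℕ) (z : ℕ → LY P ℂ) (j : ℕ) :
    (∑ k ∈ range n, VV P ℂ K N k (z k) : LY P ℂ) j =
      ∑ a ∈ range n ×ˢ range N, if off K N a.1 + a.2 = j then z a.1 a.2 else 0 := by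
  rw [lp.coeFn_sum, Finset.sum_apply, sum_product]
  exact sum_congr rfl fun k _ => VV_coe' _ _ _ _ _

/-- All coordinates are in the set `Φ`. -/
def In (P : ℝ≥0∞) (Φ : Set ℂ) (x : LY P ℂ) : Prop := ∀ i, x i ∈ Φ

/-- A closed convex cone in the complex plane. -/
structure Cone (Φ : Set ℂ) : Prop where
  closed : IsClosed Φ
  zero : (0 : ℂ) ∈ Φ
  add : ∀ a ∈ Φ, ∀ b ∈ Φ, a + b ∈ Φ
  smul : ∀ t : ℝ, 0 ≤ t → ∀ a ∈ Φ, (t : ℂ) * a ∈ Φ

/-- The operators which map sequences with coordinates in `Φ` to such sequences. -/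
def Pres (P : ℝ≥0∞) [Fact (1 ≤ P)] (Φ : Set ℂ) : Set (LY P ℂ →L[ℂ] LY P ℂ) :=
  {T | ∀ x : LY P ℂ, (∀ i, x i ∈ Φ) → ∀ i, (T x) i ∈ Φ}

lemma Cone.sum {Φ : Set ℂ} (hΦ : Cone Φ) {ι : Type*} (s : Finset ι) (f : ι → ℂ)
    (hf : ∀ i ∈ s, f i ∈ Φ) : ∑ i ∈ s, f i ∈ Φ := by
  classical
  induction s using Finset.induction_on with
  | empty => simpa using hΦ.zero
  | insert b t hb ih =>
    rw [sum_insert hb]
    exact hΦ.add _ (hf b (mem_insert_self b t)) _ (ih fun i hi => hf i (mem_insert_of_mem hi))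

lemma In.sum {Φ : Set ℂ} (hΦ : Cone Φ) {ι : Type*} (s : Finset ι) (f : ι → LY P ℂ)
    (hf : ∀ i ∈ s, In P Φ (f i)) : In P Φ (∑ i ∈ s, f i) := by
  intro j
  rw [lp.coeFn_sum, Finset.sum_apply]
  exact hΦ.sum _ _ fun i hi => hf i hi j

lemma In.smul {Φ : Set ℂ} (hΦ : Cone Φ) {t : ℝ} (ht : 0 ≤ t) {f : LY P ℂ} (hf : In P Φ f) :
    In P Φ (((t : ℝ) : ℂ) • f) := by
  intro j
  rw [lp.coeFn_smul, Pi.smul_apply, smul_eq_mul]
  exact hΦ.smul t ht _ (hf j)

lemma In.VV {Φ : Set ℂ} (hΦ : Cone Φ) (K N k : ℕ) {f : LY P ℂ} (hf : In P Φ f) :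
    In P Φ (VV P ℂ K N k f) := by
  intro j
  rw [VV_coe']
  refine hΦ.sum _ _ fun i _ => ?_
  split_ifs
  · exact hf i
  · exact hΦ.zero

lemma In.WW {Φ : Set ℂ} (hΦ : Cone Φ) (K N k : ℕ) {f : LY P ℂ} (hf : In P Φ f) :
    In P Φ (WW P ℂ K N k f) := by
  intro j
  rw [WW_coe]
  split_ifs
  · exact hf _
  · exact hΦ.zero

lemma In.Tr {Φ : Set ℂ} (hΦ : Cone Φ) (N : ℕ) {f : LY P ℂ} (hf : In P Φ f) :
    In P Φ (Tr P ℂ (range N) f) := by
  intro j
  rw [Tr_coe]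
  split_ifs
  · exact hf _
  · exact hΦ.zero

lemma In.Dg {Φ : Set ℂ} (hΦ : Cone Φ) (N : ℕ) {d : ℕ → ℝ} (hd : ∀ i, 0 ≤ d i) {f : LY P ℂ}
    (hf : In P Φ f) : In P Φ (Dg P N d f) := by
  intro j
  rw [Dg_coe]
  split_ifs
  · exact hΦ.smul _ (hd j) _ (hf _)
  · exact hΦ.zero

lemma coord_tendsto {T : ℕ → LY P ℂ →L[ℂ] LY P ℂ} {T0 : LY P ℂ →L[ℂ] LY P ℂ}
    (h : ∀ x, Tendsto (fun m => T m x) atTop (𝓝 (T0 x))) (x : LY P ℂ) (i : ℕ) :
    Tendsto (fun m => (T m x) i) atTop (𝓝 ((T0 x) i)) :=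
  ((lp.evalCLM ℂ (fun _ : ℕ => ℂ) P i).continuous.tendsto _).comp (h x)

lemma adm_pres {Φ : Set ℂ} (hΦ : Cone Φ) : Adm P (Pres P Φ) := by
  refine ⟨?_, ?_, ?_, ?_, ?_, ?_⟩
  · intro T T0 hT h x hx i
    exact hΦ.closed.mem_of_tendsto (coord_tendsto h x i) (Eventually.of_forall fun m => hT m x hx i)
  · intro S hS T hT t ht0 ht1 x hx
    have h1 : In P Φ (((1 - t : ℝ) : ℂ) • S x + ((t : ℝ) : ℂ) • T x) := by
      intro i
      rw [lp.coeFn_add, Pi.add_apply]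
      exact hΦ.add _ (In.smul hΦ (by linarith) (fun i => hS x hx i) i) _
        (In.smul hΦ ht0 (fun i => hT x hx i) i)
    exact h1
  · intro T hT N x hx
    exact In.Tr hΦ N (hT _ (In.Tr hΦ N hx))
  · intro N d hd x hx
    exact In.Dg hΦ N (fun i => (hd i).1) hx
  · intro T hT K N n _ x hx i
    rw [_root_.sum_apply]
    exact In.sum hΦ _ (fun k => (VV P ℂ K N k * T * WW P ℂ K N k) x)
      (fun k _ => In.VV hΦ K N k (hT _ (In.WW hΦ K N k hx))) i
  · intro K N n c _ hc x hx i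
    rw [_root_.sum_apply]
    exact In.sum hΦ _ (fun k => (((c k : ℝ) : ℂ) • (VV P ℂ K N (k + 1) * WW P ℂ K N k)) x)
      (fun k _ => In.smul hΦ (hc k).1 (In.VV hΦ K N (k + 1) (In.WW hΦ K N k hx))) i

/-! ### Doubly substochastic operators -/

lemma cone_nonneg : Cone {z : ℂ | 0 ≤ z} where
  closed := isClosed_Ici
  zero := Set.mem_setOf_eq ▸ le_refl (0 : ℂ)
  add := fun a ha b hb => by
    have h1 : (0 : ℂ) ≤ a := ha
    have h2 : (0 : ℂ) ≤ b := hb
    exact add_nonneg h1 h2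
  smul := fun t ht a ha => by
    have h1 : (0 : ℂ) ≤ (t : ℂ) := by exact_mod_cast ht
    have h2 : (0 : ℂ) ≤ a := ha
    exact mul_nonneg h1 h2

lemma cone_real : Cone {z : ℂ | z.im = 0} where
  closed := isClosed_eq Complex.continuous_im continuous_const
  zero := rfl
  add := fun a ha b hb => by
    change (a + b).im = 0
    rw [Complex.add_im, ha, hb, add_zero]
  smul := fun t _ a ha => by
    change ((t : ℂ) * a).im = 0
    have h1 : a.im = 0 := ha
    rw [Complex.im_ofReal_mul, h1, mul_zero]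

/-- Doubly substochastic operators on `ℓ_P`: they preserve the order, the order interval `[0, 1]`, and do
not increase the sums of nonnegative sequences. -/
def DoublySub (P : ℝ≥0∞) [Fact (1 ≤ P)] : Set (LY P ℂ →L[ℂ] LY P ℂ) :=
  {T | (∀ x : LY P ℂ, (∀ i, 0 ≤ x i) → ∀ i, 0 ≤ (T x) i) ∧
    (∀ x : LY P ℂ, (∀ i, 0 ≤ x i) → (∀ i, x i ≤ 1) → ∀ i, (T x) i ≤ 1) ∧
    ∀ x : LY P ℂ, (∀ i, 0 ≤ x i) → ∀ M : ℝ, (∀ n, ∑ i ∈ range n, x i ≤ (M : ℂ)) →
      ∀ n, ∑ i ∈ range n, (T x) i ≤ (M : ℂ)}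

lemma gather_le {K N n : ℕ} (hK : N ≤ K) (z : ℕ → LY P ℂ) (hz : ∀ k, ∀ i, z k i ≤ 1) (j : ℕ) :
    (∑ k ∈ range n, VV P ℂ K N k (z k) : LY P ℂ) j ≤ 1 := by
  rw [gather_coe]
  by_cases h : ∃ a ∈ range n ×ˢ range N, off K N a.1 + a.2 = j
  · obtain ⟨a, ha, haj⟩ := h
    rw [sum_eq_single_of_mem a ha]
    · rw [if_pos haj]
      exact hz _ _
    · intro b hb hba
      rw [if_neg]
      intro hbj
      apply hba
      obtain ⟨h1, h2⟩ := off_inj hK (mem_range.1 (mem_product.1 hb).2)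
        (mem_range.1 (mem_product.1 ha).2) (hbj.trans haj.symm)
      exact Prod.ext h1 h2
  · push Not at h
    rw [sum_eq_zero fun a ha => if_neg (h a ha)]
    exact zero_le_one

lemma gather_sum_le (K N n : ℕ) (z : ℕ → LY P ℂ) (hz : ∀ k, ∀ i, 0 ≤ z k i) (m : ℕ) :
    ∑ j ∈ range m, (∑ k ∈ range n, VV P ℂ K N k (z k) : LY P ℂ) j ≤
      ∑ k ∈ range n, ∑ i ∈ range N, z k i := by
  simp only [gather_coe]
  rw [sum_comm, ← sum_product (f := fun a : ℕ × ℕ => z a.1 a.2)]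
  refine sum_le_sum fun a _ => ?_
  rw [sum_ite_eq]
  split_ifs
  · exact le_rfl
  · exact hz _ _

lemma scatter_sum_le {K N n : ℕ} (hK : N ≤ K) (x : LY P ℂ) (hx : ∀ i, 0 ≤ x i) {M : ℝ}
    (hM : ∀ n, ∑ i ∈ range n, x i ≤ (M : ℂ)) :
    ∑ k ∈ range n, ∑ i ∈ range N, x (off K N k + i) ≤ (M : ℂ) := by
  classical
  rw [← sum_product (f := fun a : ℕ × ℕ => x (off K N a.1 + a.2))]
  have hinj : Set.InjOn (fun a : ℕ × ℕ => off K N a.1 + a.2) (range n ×ˢ range N : Finset _) := by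
    rintro ⟨k, a⟩ hka ⟨j, b⟩ hjb h
    have h1 := mem_range.1 (mem_product.1 (mem_coe.1 hka)).2
    have h2 := mem_range.1 (mem_product.1 (mem_coe.1 hjb)).2
    obtain ⟨h3, h4⟩ := off_inj hK h1 h2 h
    exact Prod.ext h3 h4
  rw [← sum_image (f := fun j => x j) hinj]
  obtain ⟨m, hm⟩ := ((range n ×ˢ range N).image fun a : ℕ × ℕ => off K N a.1 + a.2).exists_nat_subset_range
  exact (sum_le_sum_of_subset_of_nonneg hm fun i _ _ => hx i).trans (hM m)

lemma adm_doublySub : Adm P (DoublySub P) := by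
  have hpres : ∀ T ∈ DoublySub P, T ∈ Pres P {z : ℂ | 0 ≤ z} := fun T hT => hT.1
  have hA := adm_pres (P := P) cone_nonneg
  have hWc : ∀ (K N k : ℕ) (x : LY P ℂ), (∀ i, x i ≤ 1) → ∀ i, (WW P ℂ K N k x) i ≤ 1 := by
    intro K N k x hx i
    rw [WW_coe]
    split_ifs
    · exact hx _
    · exact zero_le_one
  have hWs : ∀ (K N k : ℕ) (x : LY P ℂ), (∀ i, 0 ≤ x i) → ∀ n,
      ∑ i ∈ range n, (WW P ℂ K N k x) i ≤ ∑ i ∈ range N, x (off K N k + i) := by
    intro K N k x hx n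
    simp only [WW_coe]
    rw [← sum_filter]
    refine sum_le_sum_of_subset_of_nonneg ?_ fun i _ _ => hx _
    intro i hi
    exact mem_range.2 (mem_filter.1 hi).2
  have hreal : ∀ (N : ℕ) (x : ℕ → ℂ), (∀ i, 0 ≤ x i) →
      ∑ i ∈ range N, x i = ((∑ i ∈ range N, (x i).re : ℝ) : ℂ) := by
    intro N x hx
    rw [Complex.ofReal_sum]
    refine sum_congr rfl fun i _ => ?_
    exact Complex.ext rfl (by simpa using ((Complex.nonneg_iff.1 (hx i)).2).symm)
  refine ⟨?_, ?_, ?_, ?_, ?_, ?_⟩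
  · intro T T0 hT h
    refine ⟨hA.closed T T0 (fun m => hpres _ (hT m)) h, ?_, ?_⟩
    · intro x hx hx1 i
      exact le_of_tendsto (coord_tendsto h x i) (Eventually.of_forall fun m => (hT m).2.1 x hx hx1 i)
    · intro x hx M hM n
      have h2 : Tendsto (fun m => ∑ i ∈ range n, (T m x) i) atTop
          (𝓝 (∑ i ∈ range n, (T0 x) i)) := tendsto_finsetSum _ fun i _ => coord_tendsto h x i
      exact le_of_tendsto h2 (Eventually.of_forall fun m => (hT m).2.2 x hx M hM n)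
  · intro S hS T hT t ht0 ht1
    have ht0' : (0 : ℂ) ≤ ((t : ℝ) : ℂ) := by exact_mod_cast ht0
    have ht1' : (0 : ℂ) ≤ ((1 - t : ℝ) : ℂ) := by
      have : (0 : ℝ) ≤ 1 - t := by linarith
      exact_mod_cast this
    have hst : ((1 - t : ℝ) : ℂ) + ((t : ℝ) : ℂ) = 1 := by push_cast; ring
    refine ⟨hA.convex S (hpres _ hS) T (hpres _ hT) t ht0 ht1, ?_, ?_⟩
    · intro x hx hx1 i
      have h1 : ((1 - t : ℝ) : ℂ) * (S x) i + ((t : ℝ) : ℂ) * (T x) i ≤ 1 := by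
        calc ((1 - t : ℝ) : ℂ) * (S x) i + ((t : ℝ) : ℂ) * (T x) i
            ≤ ((1 - t : ℝ) : ℂ) * 1 + ((t : ℝ) : ℂ) * 1 :=
              add_le_add (mul_le_mul_of_nonneg_left (hS.2.1 x hx hx1 i) ht1')
                (mul_le_mul_of_nonneg_left (hT.2.1 x hx hx1 i) ht0')
          _ = 1 := by rw [mul_one, mul_one, hst]
      exact h1
    · intro x hx M hM n
      have h1 : ∑ i ∈ range n, (((1 - t : ℝ) : ℂ) * (S x) i + ((t : ℝ) : ℂ) * (T x) i) ≤ (M : ℂ) := by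
        rw [sum_add_distrib, ← mul_sum, ← mul_sum]
        calc ((1 - t : ℝ) : ℂ) * ∑ i ∈ range n, (S x) i + ((t : ℝ) : ℂ) * ∑ i ∈ range n, (T x) i
            ≤ ((1 - t : ℝ) : ℂ) * M + ((t : ℝ) : ℂ) * M :=
              add_le_add (mul_le_mul_of_nonneg_left (hS.2.2 x hx M hM n) ht1')
                (mul_le_mul_of_nonneg_left (hT.2.2 x hx M hM n) ht0')
          _ = M := by rw [← add_mul, hst, one_mul]
      exact h1
  · intro T hT N
    have hTr1 : ∀ x : LY P ℂ, (∀ i, x i ≤ 1) → ∀ i, (Tr P ℂ (range N) x) i ≤ 1 := by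
      intro x hx i
      rw [Tr_coe]
      split_ifs
      · exact hx i
      · exact zero_le_one
    have hTrs : ∀ x : LY P ℂ, (∀ i, 0 ≤ x i) → ∀ n,
        ∑ i ∈ range n, (Tr P ℂ (range N) x) i ≤ ∑ i ∈ range n, x i := by
      intro x hx n
      refine sum_le_sum fun i _ => ?_
      rw [Tr_coe]
      split_ifs
      · exact le_rfl
      · exact hx i
    refine ⟨hA.trunc T (hpres _ hT) N, ?_, ?_⟩
    · intro x hx hx1
      exact hTr1 _ (hT.2.1 _ (In.Tr cone_nonneg N hx) (hTr1 x hx1))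
    · intro x hx M hM n
      refine (hTrs _ (hT.1 _ (In.Tr cone_nonneg N hx)) n).trans ?_
      exact hT.2.2 _ (In.Tr cone_nonneg N hx) M (fun n => (hTrs x hx n).trans (hM n)) n
  · intro N d hd
    have hd' : ∀ i, (0 : ℂ) ≤ ((d i : ℝ) : ℂ) ∧ ((d i : ℝ) : ℂ) ≤ 1 := fun i =>
      ⟨by exact_mod_cast (hd i).1, by exact_mod_cast (hd i).2⟩
    have h1 : ∀ x : LY P ℂ, (∀ i, 0 ≤ x i) → ∀ i, (Dg P N d x) i ≤ x i := by
      intro x hx i
      rw [Dg_coe]
      split_ifs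
      · exact mul_le_of_le_one_left (hx i) (hd' i).2
      · exact hx i
    refine ⟨hA.diag N d hd, ?_, ?_⟩
    · intro x hx hx1 i
      exact (h1 x hx i).trans (hx1 i)
    · intro x hx M hM n
      exact (sum_le_sum fun i _ => h1 x hx i).trans (hM n)
  · intro T hT K N n hK
    refine ⟨hA.ampl T (hpres _ hT) K N n hK, ?_, ?_⟩
    · intro x hx hx1 i
      rw [_root_.sum_apply]
      exact gather_le hK (fun k => T (WW P ℂ K N k x))
        (fun k => hT.2.1 _ (In.WW cone_nonneg K N k hx) (hWc K N k x hx1)) i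
    · intro x hx M hM m
      rw [_root_.sum_apply]
      refine (gather_sum_le K N (n + 1) (fun k => T (WW P ℂ K N k x))
        (fun k => hT.1 _ (In.WW cone_nonneg K N k hx)) m).trans ?_
      refine le_trans (sum_le_sum fun k _ => ?_) (scatter_sum_le (n := n + 1) hK x hx hM)
      rw [hreal N (fun i => x (off K N k + i)) (fun i => hx _)]
      refine hT.2.2 _ (In.WW cone_nonneg K N k hx) _ (fun n' => ?_) N
      rw [← hreal N (fun i => x (off K N k + i)) (fun i => hx _)]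
      exact hWs K N k x hx n'
  · intro K N n c hK hc
    have hc' : ∀ i, (0 : ℂ) ≤ ((c i : ℝ) : ℂ) ∧ ((c i : ℝ) : ℂ) ≤ 1 := fun i =>
      ⟨by exact_mod_cast (hc i).1, by exact_mod_cast (hc i).2⟩
    have e : ∀ x : LY P ℂ,
        (∑ k ∈ range n, ((c k : ℝ) : ℂ) • (VV P ℂ K N (k + 1) * WW P ℂ K N k)) x =
        ∑ k ∈ range (n + 1), VV P ℂ K N k (if k = 0 then 0 else
          ((c (k - 1) : ℝ) : ℂ) • WW P ℂ K N (k - 1) x) := by
      intro x
      rw [_root_.sum_apply, sum_range_succ' _ n, if_pos rfl, map_zero, add_zero]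
      refine sum_congr rfl fun k _ => ?_
      rw [if_neg (by omega), Nat.add_sub_cancel, map_smul]
      rfl
    have hz : ∀ x : LY P ℂ, (∀ i, 0 ≤ x i) → ∀ k i, 0 ≤ ((if k = 0 then 0 else
        ((c (k - 1) : ℝ) : ℂ) • WW P ℂ K N (k - 1) x : LY P ℂ)) i := by
      intro x hx k i
      split_ifs
      · exact le_rfl
      · exact In.smul cone_nonneg (hc _).1 (In.WW cone_nonneg K N (k - 1) hx) i
    refine ⟨hA.perm K N n c hK hc, ?_, ?_⟩
    · intro x hx hx1 i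
      rw [e]
      refine gather_le hK _ (fun k i => ?_) i
      split_ifs
      · exact zero_le_one
      · rw [lp.coeFn_smul, Pi.smul_apply, smul_eq_mul]
        exact (mul_le_of_le_one_left (In.WW cone_nonneg K N (k - 1) hx i) (hc' _).2).trans
          (hWc K N (k - 1) x hx1 i)
    · intro x hx M hM m
      rw [e]
      refine (gather_sum_le K N (n + 1) _ (hz x hx) m).trans ?_
      rw [sum_range_succ' _ n]
      have h0 : ∑ i ∈ range N, ((if (0 : ℕ) = 0 then 0 else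
          ((c (0 - 1) : ℝ) : ℂ) • WW P ℂ K N (0 - 1) x : LY P ℂ)) i = 0 := by
        rw [if_pos rfl]
        exact sum_eq_zero fun i _ => rfl
      rw [h0, add_zero]
      refine le_trans (sum_le_sum fun k _ => ?_) (scatter_sum_le (n := n) hK x hx hM)
      rw [if_neg (by omega), Nat.add_sub_cancel]
      refine le_trans (sum_le_sum fun i _ => ?_) (hWs K N k x hx N)
      rw [lp.coeFn_smul, Pi.smul_apply, smul_eq_mul]
      exact mul_le_of_le_one_left (In.WW cone_nonneg K N k hx i) (hc' _).2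

end Pool.Agent.J6H45.TV
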