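import Pool.Agent.J6H45.TV.L

/-!
# The general theorem and its instances
-/

set_option autoImplicit false
open Finset Filter Topology TopologicalSpace
open scoped ENNReal ComplexOrder

namespace Pool.Agent.J6H45.TV

/-- For the strong* operator topology the set `C` of operators is completely metrizable, hence a Baire
space, and the set of all its members which have nontrivial closed hyperinvariant subspaces arbitrarily
close to every vector is comeager (residual) in it. -/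
def TypicalIn {E : Type*} [NormedAddCommGroup E] [NormedSpace ℂ E] (C : Set (E →L[ℂ] E)) : Prop :=
  @IsCompletelyMetrizableSpace C (StrongStarOn C) ∧ @BaireSpace C (StrongStarOn C) ∧
    {T : C | DenselyHyperinvariant (T : E →L[ℂ] E)} ∈ @residual C (StrongStarOn C)

/-- Closed under limits of pointwise convergent sequences. -/
def PtwClosed {E : Type*} [NormedAddCommGroup E] [NormedSpace ℂ E] (C : Set (E →L[ℂ] E)) : Prop :=
  ∀ (T : ℕ → E →L[ℂ] E) (T0 : E →L[ℂ] E), (∀ m, T m ∈ C) →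
    (∀ x, Tendsto (fun m => T m x) atTop (𝓝 (T0 x))) → T0 ∈ C

/-- The general theorem. -/
theorem typ_stp {E : Type*} [NormedAddCommGroup E] [NormedSpace ℂ E] [CompleteSpace E]
    [Nontrivial E] [SeparableSpace E] (hE : Reflexive E) {p : ℝ} (hp : 1 < p)
    {C : Set (E →L[ℂ] E)} (hC : C ⊆ Contr E) (hcl : PtwClosed C) (hst : Stp p C) :
    TypicalIn C := by
  haveI := separable_dual hE
  have hcm := cm_on hE (C := C) (fun T hT => hC hT) hcl
  letI : TopologicalSpace C := StrongStarOn C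
  haveI := hcm
  have hB : BaireSpace C := inferInstance
  refine ⟨hcm, hB, ?_⟩
  have h := typ_hyp hE (Real.HolderConjugate.conjExponent hp) (bw_on C) hst
  exact Filter.mem_of_superset h fun w hw => hyp_of_goodH hw

lemma ptwClosed_contr {E : Type*} [NormedAddCommGroup E] [NormedSpace ℂ E] :
    PtwClosed (Contr E) := by
  intro T T0 hT hT0
  refine ContinuousLinearMap.opNorm_le_bound _ zero_le_one fun x => ?_
  exact le_of_tendsto (hT0 x).norm (Eventually.of_forall fun i =>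
    ((T i).le_opNorm _).trans (mul_le_mul_of_nonneg_right (hT i) (norm_nonneg _)))

/-- The copies `1, …, n` are almost orthogonal to the vectors of `X` and the functionals of `G`. -/
def Far {E : Type*} [NormedAddCommGroup E] [NormedSpace ℂ E] (X : Finset E)
    (G : Finset (StrongDual ℂ E)) (ε : ℝ) (n : ℕ) (V W : ℕ → E →L[ℂ] E) : Prop :=
  (∀ x ∈ X, ∀ k, 1 ≤ k → k ≤ n → ‖W k x‖ ≤ ε) ∧
    ∀ g ∈ G, ∀ k, 1 ≤ k → k ≤ n → ‖g.comp (V k)‖ ≤ ε

/-- `A` is close to `T` at the vectors of `X`, and so are the adjoints at the functionals of `G`. -/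
def Near {E : Type*} [NormedAddCommGroup E] [NormedSpace ℂ E] (X : Finset E)
    (G : Finset (StrongDual ℂ E)) (ε : ℝ) (A T : E →L[ℂ] E) : Prop :=
  (∀ x ∈ X, ‖A x - T x‖ ≤ ε) ∧ ∀ g ∈ G, ‖g.comp A - g.comp T‖ ≤ ε

/-- The range of `P` has arbitrarily many copies far away, in the position of an `ℓ_p`-sum, such that
the copies of `A`, coupled by a shift with the weights `δ, …, δ, w`, form an operator in `C`. -/
def CopiesIn {E : Type*} [NormedAddCommGroup E] [NormedSpace ℂ E] (p : ℝ) (C : Set (E →L[ℂ] E))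
    (A P : E →L[ℂ] E) (w : ℝ) : Prop :=
  ∀ (m : ℕ) (X : Finset E) (G : Finset (StrongDual ℂ E)) (ε : ℝ), 0 < ε →
    ∃ V W : ℕ → E →L[ℂ] E, Copies p P (m + 1) V W ∧ Far X G ε (m + 1) V W ∧
      ∀ δ : ℝ, 0 < δ → δ ≤ w → TT A m δ w V W ∈ C

open Polynomial in
/-- Every operator in `C` is approximated by operators in `C` which have a separable annihilating
polynomial and live on the range of a projection with copies. -/
def WithCopies {E : Type*} [NormedAddCommGroup E] [NormedSpace ℂ E] (p : ℝ)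
    (C : Set (E →L[ℂ] E)) : Prop :=
  ∀ T ∈ C, ∀ (X : Finset E) (G : Finset (StrongDual ℂ E)) (ε : ℝ), 0 < ε →
    ∃ (A P : E →L[ℂ] E) (w : ℝ) (χ : ℂ[X]), A ∈ C ∧ 0 < w ∧ aeval A χ = 0 ∧ χ.Separable ∧
      P * A = A ∧ A * P = A ∧ Near X G ε A T ∧ Near X G ε P 1 ∧ CopiesIn p C A P w

lemma stp_of_withCopies {E : Type*} [NormedAddCommGroup E] [NormedSpace ℂ E] {p : ℝ}
    {C : Set (E →L[ℂ] E)} (hC : C ⊆ Contr E) (h : WithCopies p C) : Stp p C := by
  intro T hT X G ε hε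
  obtain ⟨A, P, w, χ, h1, h2, h3, h4, h5, h6, h8, h9, h10⟩ := h T hT X G ε hε
  refine ⟨A, P, w, χ, h1, h2, h3, h4, h5, h6, hC h1, fun x hx => ⟨h8.1 x hx, h9.1 x hx⟩,
    fun g hg => ⟨h8.2 g hg, h9.2 g hg⟩, ?_⟩
  intro m X' G' ε' hε'
  obtain ⟨V, W, k1, k2, k3⟩ := h10 m X' G' ε' hε'
  exact ⟨V, W, k1, k2.1, k2.2, k3⟩

lemma withCopies_of_stp {E : Type*} [NormedAddCommGroup E] [NormedSpace ℂ E] {p : ℝ}
    {C : Set (E →L[ℂ] E)} (h : Stp p C) : WithCopies p C := by
  intro T hT X G ε hε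
  obtain ⟨A, P, w, χ, h1, h2, h3, h4, h5, h6, -, h8, h9, h10⟩ := h T hT X G ε hε
  refine ⟨A, P, w, χ, h1, h2, h3, h4, h5, h6, ⟨fun x hx => (h8 x hx).1, fun g hg => (h9 g hg).1⟩,
    ⟨fun x hx => (h8 x hx).2, fun g hg => (h9 g hg).2⟩, ?_⟩
  intro m X' G' ε' hε'
  obtain ⟨V, W, k1, k2, k3, k4⟩ := h10 m X' G' ε' hε'
  exact ⟨V, W, k1, ⟨k2, k3⟩, k4⟩

section coordinates

variable {E : Type*} [NormedAddCommGroup E] [NormedSpace ℂ E] (c : E → ℕ → ℂ)

/-- The operators which map sequences with coordinates in `Φ` to such sequences. -/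
def Preserves (Φ : Set ℂ) : Set (E →L[ℂ] E) :=
  {T | ∀ x, (∀ i, c x i ∈ Φ) → ∀ i, c (T x) i ∈ Φ}

/-- The operators which preserve the positivity of the coordinates. -/
def Positive : Set (E →L[ℂ] E) := {T | ∀ x, (∀ i, 0 ≤ c x i) → ∀ i, 0 ≤ c (T x) i}

/-- The operators which map sequences with values in `[0, 1]` to sequences bounded by `1`. -/
def UnitBound : Set (E →L[ℂ] E) :=
  {T | ∀ x, (∀ i, 0 ≤ c x i) → (∀ i, c x i ≤ 1) → ∀ i, c (T x) i ≤ 1}

/-- The operators which do not increase the sums of nonnegative sequences. -/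
def SumBound : Set (E →L[ℂ] E) :=
  {T | ∀ x, (∀ i, 0 ≤ c x i) → ∀ M : ℝ, (∀ n, ∑ i ∈ range n, c x i ≤ (M : ℂ)) →
    ∀ n, ∑ i ∈ range n, c (T x) i ≤ (M : ℂ)}

/-- The doubly substochastic operators. -/
def DoublySubstochastic : Set (E →L[ℂ] E) := Positive c ∩ (UnitBound c ∩ SumBound c)

end coordinates

/-- The coordinates of a sequence. -/
def coord (P : ℝ≥0∞) (x : LY P ℂ) (i : ℕ) : ℂ := x i

lemma doublySub_eq {P : ℝ≥0∞} [Fact (1 ≤ P)] :
    DoublySubstochastic (coord P) = DoublySub P := rfl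

lemma positive_eq {P : ℝ≥0∞} [Fact (1 ≤ P)] :
    Positive (coord P) = Pres P {z : ℂ | 0 ≤ z} := rfl

lemma preserves_eq {P : ℝ≥0∞} [Fact (1 ≤ P)] (Φ : Set ℂ) :
    Preserves (coord P) Φ = Pres P Φ := rfl

/-- All contractions of a self-similar space. -/
theorem typ_all {E : Type*} [NormedAddCommGroup E] [NormedSpace ℂ E] [CompleteSpace E]
    [Nontrivial E] [SeparableSpace E] (hE : Reflexive E) {p : ℝ} (hp : 1 < p)
    (hM : MetricAP E) (hS : SelfSum p E) : TypicalIn (Contr E) :=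
  typ_stp hE hp subset_rfl ptwClosed_contr (stp_contr (by linarith) hE hM hS)

/-- All contractions of `ℓ_p(Y)`. -/
theorem typ_LY {Y : Type*} [NormedAddCommGroup Y] [NormedSpace ℂ Y] [CompleteSpace Y]
    [Nontrivial Y] [SeparableSpace Y] {P : ℝ≥0∞} [hP : Fact (1 ≤ P)] (hPt : P ≠ ∞)
    (h1 : 1 < P.toReal) (hY : Reflexive Y) (hM : MetricAP Y) : TypicalIn (Contr (LY P Y)) := by
  haveI := lp_separable (P := P) (Y := Y) hPt
  haveI := lp_nontrivial (P := P) (Y := Y)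
  exact typ_all (lp_reflexive hPt h1 hY) h1 (metricAP_lp hPt h1 hM) (selfSum_lp hPt h1)

/-- Classes of contractions of `ℓ_p`. -/
theorem typ_class {P : ℝ≥0∞} [hP : Fact (1 ≤ P)] (hPt : P ≠ ∞) (h1 : 1 < P.toReal)
    {𝒱 : Set (LY P ℂ →L[ℂ] LY P ℂ)} (h𝒱 : Adm P 𝒱) : TypicalIn (Contr (LY P ℂ) ∩ 𝒱) :=
  typ_adm hPt h1 h𝒱 rfl

/-- A typical contraction in `𝒱`. -/
def TypicalContractionIn {E : Type*} [NormedAddCommGroup E] [NormedSpace ℂ E]
    (𝒱 : Set (E →L[ℂ] E)) : Prop := TypicalIn (Contr E ∩ 𝒱)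

theorem typ_pres {P : ℝ≥0∞} [hP : Fact (1 ≤ P)] (hPt : P ≠ ∞) (h1 : 1 < P.toReal) {Φ : Set ℂ}
    (hΦ : Cone Φ) : TypicalContractionIn (Preserves (coord P) Φ) := by
  rw [preserves_eq]
  exact typ_class hPt h1 (adm_pres hΦ)

theorem typ_pos {P : ℝ≥0∞} [hP : Fact (1 ≤ P)] (hPt : P ≠ ∞) (h1 : 1 < P.toReal) :
    TypicalContractionIn (Positive (coord P)) := by
  rw [positive_eq]
  exact typ_class hPt h1 (adm_pres cone_nonneg)

/-- The doubly substochastic contractions of `ℓ_p`. -/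
theorem typ_ds {P : ℝ≥0∞} [hP : Fact (1 ≤ P)] (hPt : P ≠ ∞) (h1 : 1 < P.toReal) :
    TypicalContractionIn (DoublySubstochastic (coord P)) := by
  rw [doublySub_eq]
  exact typ_class hPt h1 adm_doublySub

end Pool.Agent.J6H45.TV
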